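import Pool.Agent.V5helper39.BM.Stm2

set_option autoImplicit false

/-! # Approximation by finite convex combinations -/

namespace Pool.Agent.V5helper39.BM

open Filter Topology Set MeasureTheory

theorem t_APX : S_APX := by
  intro Z ω hω Q hQ C0 hb hsep q hq δ hδ
  classical
  rcases Q.eq_empty_or_nonempty with hQe | hQe
  · subst hQe
    simp at hq
  obtain ⟨q₀, hq₀⟩ := hQe
  obtain ⟨c₀, hc₀⟩ := hsep (δ / 4) (by positivity)
  -- centres in `Q`
  set c : ℕ → Z → ℝ := fun n => if h : (Q ∩ wBall ω (c₀ n) (δ / 4)).Nonempty then h.choose else q₀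
    with hcd
  have hcQ : ∀ n, c n ∈ Q := by
    intro n
    simp only [hcd]
    split_ifs with h
    · exact h.choose_spec.1
    · exact hq₀
  have hcov : ∀ q ∈ Q, ∃ n, q ∈ wBall ω (c n) (δ / 2) := by
    intro q hq
    obtain ⟨n, hn⟩ := hc₀ q hq
    refine ⟨n, fun z => ?_⟩
    have h : (Q ∩ wBall ω (c₀ n) (δ / 4)).Nonempty := ⟨q, hq, hn⟩
    have h1 : c n = h.choose := by simp only [hcd]; rw [dif_pos h]
    have h2 : c n ∈ wBall ω (c₀ n) (δ / 4) := by rw [h1]; exact h.choose_spec.2
    have h3 : q z - c n z = (q z - c₀ n z) - (c n z - c₀ n z) := by ring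
    rw [h3]
    refine (abs_sub _ _).trans ?_
    have h4 := hn z
    have h5 := h2 z
    linarith
  haveI : CompactSpace Q := isCompact_iff_compactSpace.1 hQ
  letI : MeasurableSpace Q := borel Q
  haveI : BorelSpace Q := ⟨rfl⟩
  obtain ⟨μ, hμ⟩ := exists_bary hQ q hq
  -- the sets
  set Acc : ℕ → Set Q := fun N => {p | ∃ n < N, (p : Z → ℝ) ∈ wBall ω (c n) (δ / 2)} with hAcc
  have hAccm : ∀ N, MeasurableSet (Acc N) := by
    intro N
    have h1 : Acc N = ⋃ n ∈ Finset.range N, Subtype.val ⁻¹' (wBall ω (c n) (δ / 2)) := by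
      ext p
      simp [hAcc]
    rw [h1]
    refine Finset.measurableSet_biUnion _ fun n _ => ?_
    exact ((wBall_closed ω (c n) (δ / 2)).preimage continuous_subtype_val).measurableSet
  set B : ℕ → Set Q := fun N => Acc (N + 1) \ Acc N with hB
  have hBm : ∀ N, MeasurableSet (B N) := fun N => (hAccm _).diff (hAccm _)
  have hmono : Monotone Acc := by
    intro M N hMN p hp
    obtain ⟨n, hn, h⟩ := hp
    exact ⟨n, hn.trans_le hMN, h⟩
  have hAccS : ∀ N, Acc (N + 1) = Acc N ∪ B N := fun N =>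
    (union_diff_cancel (hmono (Nat.le_succ N))).symm
  have hdisj : ∀ N, Disjoint (Acc N) (B N) := fun N => disjoint_sdiff_right
  have hBball : ∀ N, ∀ p ∈ B N, (p : Z → ℝ) ∈ wBall ω (c N) (δ / 2) := by
    rintro N p ⟨⟨n, hn, hp⟩, hp2⟩
    rcases Nat.lt_succ_iff_lt_or_eq.1 hn with h | h
    · exact absurd ⟨n, h, hp⟩ hp2
    · rwa [h] at hp
  have hint : ∀ (z : Z), Integrable (fun p : Q => (p : Z → ℝ) z) (μ : Measure Q) := by
    intro z
    exact (evb hQ z).integrable _
  -- masses
  have hmass : ∀ N, ∑ i : Fin N, (μ : Measure Q).real (B i) = (μ : Measure Q).real (Acc N) := by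
    intro N
    induction N with
    | zero =>
      have : Acc 0 = ∅ := by ext p; simp [hAcc]
      simp [this]
    | succ N ih =>
      rw [Fin.sum_univ_castSucc]
      simp only [Fin.val_castSucc, Fin.val_last]
      rw [ih, hAccS N, measureReal_union (hdisj N) (hBm N)]
  -- main estimate
  have hmain : ∀ N z, |∫ p in Acc N, (p : Z → ℝ) z ∂(μ : Measure Q) -
      ∑ i : Fin N, (μ : Measure Q).real (B i) * c i z| ≤ δ / 2 * ω z * (μ : Measure Q).real (Acc N) := by
    intro N z
    induction N with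
    | zero =>
      have : Acc 0 = ∅ := by ext p; simp [hAcc]
      simp [this]
    | succ N ih =>
      rw [Fin.sum_univ_castSucc]
      simp only [Fin.val_castSucc, Fin.val_last]
      rw [hAccS N, setIntegral_union (hdisj N) (hBm N) (hint z).integrableOn
        (hint z).integrableOn, measureReal_union (hdisj N) (hBm N)]
      have h1 : ∫ p in B N, (p : Z → ℝ) z ∂(μ : Measure Q) - (μ : Measure Q).real (B N) * c N z
          = ∫ p in B N, ((p : Z → ℝ) z - c N z) ∂(μ : Measure Q) := by
        rw [integral_sub (hint z).integrableOn (integrable_const _), setIntegral_const,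
          smul_eq_mul]
      have h2 : |∫ p in B N, ((p : Z → ℝ) z - c N z) ∂(μ : Measure Q)| ≤
          δ / 2 * ω z * (μ : Measure Q).real (B N) := by
        rw [← Real.norm_eq_abs]
        refine norm_setIntegral_le_of_norm_le_const (measure_lt_top _ _) ?_
        intro p hp
        exact hBball N p hp z
      have h3 : ∫ p in Acc N, (p : Z → ℝ) z ∂(μ : Measure Q) +
          ∫ p in B N, (p : Z → ℝ) z ∂(μ : Measure Q) -
          (∑ i : Fin N, (μ : Measure Q).real (B i) * c i z + (μ : Measure Q).real (B N) * c N z)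
          = (∫ p in Acc N, (p : Z → ℝ) z ∂(μ : Measure Q) -
          ∑ i : Fin N, (μ : Measure Q).real (B i) * c i z) +
          ∫ p in B N, ((p : Z → ℝ) z - c N z) ∂(μ : Measure Q) := by
        rw [← h1]; ring
      rw [h3]
      refine (abs_add_le _ _).trans ?_
      have h4 := add_le_add ih h2
      refine h4.trans (le_of_eq ?_)
      ring
  -- choice of `N`
  obtain ⟨η, hη0, hη⟩ : ∃ η : ℝ, 0 < η ∧ η * |C0| ≤ δ / 4 := by
    refine ⟨δ / (4 * (|C0| + 1)), by positivity, ?_⟩
    calc δ / (4 * (|C0| + 1)) * |C0| = δ / 4 * (|C0| / (|C0| + 1)) := by field_simp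
      _ ≤ δ / 4 * 1 := by
        gcongr
        rw [div_le_one (by positivity)]
        linarith
      _ = δ / 4 := mul_one _
  have hlim : Tendsto (fun N => (μ : Measure Q).real (Acc N)) atTop (𝓝 1) := by
    have h1 : Tendsto (fun N => (μ : Measure Q) (Acc N)) atTop (𝓝 ((μ : Measure Q) (⋃ N, Acc N))) :=
      tendsto_measure_iUnion_atTop hmono
    have h2 : (⋃ N, Acc N) = univ := by
      ext p
      simp only [mem_iUnion, mem_univ, iff_true]
      obtain ⟨n, hn⟩ := hcov p p.2
      exact ⟨n + 1, n, Nat.lt_succ_self n, hn⟩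
    rw [h2, measure_univ] at h1
    exact (ENNReal.tendsto_toReal ENNReal.one_ne_top).comp h1
  obtain ⟨N, hN⟩ := ((hlim.eventually (lt_mem_nhds (show (1 - η : ℝ) < 1 by linarith)))).exists
  have hle1 : (μ : Measure Q).real (Acc N) ≤ 1 := measureReal_le_one
  refine ⟨N + 1, Fin.snoc (fun i : Fin N => (μ : Measure Q).real (B i))
      (1 - (μ : Measure Q).real (Acc N)), Fin.snoc (fun i : Fin N => c i) q₀, ?_, ?_, ?_, ?_⟩
  · intro i
    refine Fin.lastCases ?_ (fun i => ?_) i
    · rw [Fin.snoc_last]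
      linarith
    · rw [Fin.snoc_castSucc]
      exact measureReal_nonneg
  · rw [Fin.sum_univ_castSucc]
    simp only [Fin.snoc_castSucc, Fin.snoc_last]
    rw [hmass]
    ring
  · intro i
    refine Fin.lastCases ?_ (fun i => ?_) i
    · rw [Fin.snoc_last]
      exact hq₀
    · rw [Fin.snoc_castSucc]
      exact hcQ i
  · intro z
    rw [Fin.sum_univ_castSucc]
    simp only [Fin.snoc_castSucc, Fin.snoc_last]
    have e1 : |∫ p in (Acc N)ᶜ, (p : Z → ℝ) z ∂(μ : Measure Q)| ≤ |C0| * ω z * η := by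
      rw [← Real.norm_eq_abs]
      have h1 : ‖∫ p in (Acc N)ᶜ, (p : Z → ℝ) z ∂(μ : Measure Q)‖ ≤
          |C0| * ω z * (μ : Measure Q).real (Acc N)ᶜ := by
        refine norm_setIntegral_le_of_norm_le_const (measure_lt_top _ _) ?_
        intro p _
        refine (hb p p.2 z).trans ?_
        exact mul_le_mul_of_nonneg_right (le_abs_self _) (hω z)
      refine h1.trans ?_
      have h2 : (μ : Measure Q).real (Acc N)ᶜ = 1 - (μ : Measure Q).real (Acc N) := by
        rw [measureReal_compl (hAccm N), probReal_univ]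
      rw [h2]
      have h3 : 0 ≤ |C0| * ω z := mul_nonneg (abs_nonneg _) (hω z)
      exact mul_le_mul_of_nonneg_left (by linarith) h3
    have e2 : |(1 - (μ : Measure Q).real (Acc N)) * q₀ z| ≤ η * (|C0| * ω z) := by
      rw [abs_mul, abs_of_nonneg (by linarith)]
      have h2 : |q₀ z| ≤ |C0| * ω z := (hb _ hq₀ z).trans
        (mul_le_mul_of_nonneg_right (le_abs_self _) (hω z))
      exact mul_le_mul (by linarith) h2 (abs_nonneg _) hη0.le
    have e3 : q z = ∫ p in Acc N, (p : Z → ℝ) z ∂(μ : Measure Q) +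
        ∫ p in (Acc N)ᶜ, (p : Z → ℝ) z ∂(μ : Measure Q) := by
      rw [hμ z, integral_add_compl (hAccm N) (hint z)]
    have e4 := hmain N z
    have e5 : δ / 2 * ω z * (μ : Measure Q).real (Acc N) ≤ δ / 2 * ω z := by
      have : 0 ≤ δ / 2 * ω z := mul_nonneg (by positivity) (hω z)
      exact mul_le_of_le_one_right this hle1
    have e6 : |C0| * ω z * η ≤ δ / 4 * ω z := by
      have := mul_le_mul_of_nonneg_right hη (hω z)
      linarith
    rw [e3]
    have e7 : ∫ p in Acc N, (p : Z → ℝ) z ∂(μ : Measure Q) +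
        ∫ p in (Acc N)ᶜ, (p : Z → ℝ) z ∂(μ : Measure Q) -
        (∑ i : Fin N, (μ : Measure Q).real (B i) * c i z +
          (1 - (μ : Measure Q).real (Acc N)) * q₀ z) =
        (∫ p in Acc N, (p : Z → ℝ) z ∂(μ : Measure Q) -
          ∑ i : Fin N, (μ : Measure Q).real (B i) * c i z) +
        (∫ p in (Acc N)ᶜ, (p : Z → ℝ) z ∂(μ : Measure Q) -
          (1 - (μ : Measure Q).real (Acc N)) * q₀ z) := by ring
    rw [e7]
    refine (abs_add_le _ _).trans ?_
    have e8 := abs_sub (∫ p in (Acc N)ᶜ, (p : Z → ℝ) z ∂(μ : Measure Q))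
      ((1 - (μ : Measure Q).real (Acc N)) * q₀ z)
    have e9 : η * (|C0| * ω z) ≤ δ / 4 * ω z := by linarith
    linarith

end Pool.Agent.V5helper39.BM
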