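import Pool.Agent.V5helper39.BM.Stm2

set_option autoImplicit false

/-! # The differential equations -/

namespace Pool.Agent.V5helper39.BM

open Filter Topology Set

/-- selection of a scale at which `p` is almost maximal -/
lemma sel_up {p : ℝ → ℝ} {c C : ℝ} (hc : 0 < c) (hp : ∀ x, 0 < x → c ≤ p x ∧ p x ≤ C) {θ : ℝ}
    (hθ : 1 < θ) {s : ℝ} (hs : 0 < s) :
    ∃ y, 0 < y ∧ y < s ∧ ∀ x, 0 < x → x ≤ y → p x < θ * p y := by
  by_contra hcon
  push Not at hcon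
  have key : ∀ n : ℕ, ∃ y, 0 < y ∧ y < s ∧ θ ^ n * c ≤ p y := by
    intro n
    induction n with
    | zero =>
      refine ⟨s / 2, by positivity, by linarith, ?_⟩
      rw [pow_zero, one_mul]
      exact (hp _ (by positivity)).1
    | succ n ih =>
      obtain ⟨y, hy0, hys, hy⟩ := ih
      obtain ⟨x, hx0, hxy, hx⟩ := hcon y hy0 hys
      refine ⟨x, hx0, by linarith, ?_⟩
      rw [pow_succ']
      have : θ * (θ ^ n * c) ≤ θ * p y := mul_le_mul_of_nonneg_left hy (by linarith)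
      linarith
  obtain ⟨n, hn⟩ := pow_unbounded_of_one_lt (C / c) hθ
  obtain ⟨y, hy0, -, hy⟩ := key n
  rw [div_lt_iff₀ hc] at hn
  have := (hp y hy0).2
  linarith

/-- selection of a scale at which `p` is almost minimal -/
lemma sel_low {p : ℝ → ℝ} {c C : ℝ} (hc : 0 < c) (hp : ∀ x, 0 < x → c ≤ p x ∧ p x ≤ C) {θ : ℝ}
    (hθ : 1 < θ) {s : ℝ} (hs : 0 < s) :
    ∃ y, 0 < y ∧ y < s ∧ ∀ x, 0 < x → x ≤ y → p y < θ * p x := by
  by_contra hcon
  push Not at hcon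
  have hθ0 : 0 < θ := by linarith
  have key : ∀ n : ℕ, ∃ y, 0 < y ∧ y < s ∧ θ ^ n * p y ≤ C := by
    intro n
    induction n with
    | zero =>
      refine ⟨s / 2, by positivity, by linarith, ?_⟩
      rw [pow_zero, one_mul]
      exact (hp _ (by positivity)).2
    | succ n ih =>
      obtain ⟨y, hy0, hys, hy⟩ := ih
      obtain ⟨x, hx0, hxy, hx⟩ := hcon y hy0 hys
      refine ⟨x, hx0, by linarith, ?_⟩
      have h1 : θ ^ n * (θ * p x) ≤ θ ^ n * p y := mul_le_mul_of_nonneg_left hx (by positivity)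
      rw [pow_succ, mul_assoc]
      linarith
  obtain ⟨n, hn⟩ := pow_unbounded_of_one_lt (C / c) hθ
  obtain ⟨y, hy0, -, hy⟩ := key n
  rw [div_lt_iff₀ hc] at hn
  have h1 := (hp y hy0).1
  have h2 : θ ^ n * c ≤ θ ^ n * p y := mul_le_mul_of_nonneg_left h1 (by positivity)
  linarith

/-- comparison -/
lemma growth_le {f g g' : ℝ → ℝ} (hf : ContinuousOn f (Ici 0)) (hg : ∀ x, HasDerivAt g (g' x) x)
    (h : ∀ ρ, 0 < ρ → ∀ κ, 0 < κ → ∀ r, 0 < r → ∃ z, ρ < z ∧ z < ρ + r ∧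
      f z - f ρ < (g' ρ + κ) * (z - ρ)) {x : ℝ} (hx : 0 ≤ x) : f x ≤ f 0 + (g x - g 0) := by
  rcases hx.eq_or_lt with h0 | hx0
  · rw [← h0]; simp
  have hgc : Continuous g := continuous_iff_continuousAt.2 fun x => (hg x).continuousAt
  have key : ∀ κ : ℝ, 0 < κ → f x ≤ f 0 + (g x - g 0) + κ * (x - 0) := by
    intro κ hκ
    have hstep : ∀ a, 0 < a → a < x → f x ≤ f a + (g x - g a) + κ * (x - a) := by
      intro a ha hax
      have := image_le_of_liminf_slope_right_lt_deriv_boundary' (f := f) (f' := g') (a := a) (b := x)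
        (hf.mono fun y hy => ha.le.trans hy.1)
        (fun y hy r hr => by
          rw [Filter.frequently_iff]
          intro W hW
          obtain ⟨u, hu, hsub⟩ := (mem_nhdsGT_iff_exists_Ioo_subset).1 hW
          have hu' : y < u := hu
          obtain ⟨z, hz1, hz2, hz3⟩ := h y (ha.trans_le hy.1) (r - g' y) (by linarith) (u - y)
            (by linarith)
          refine ⟨z, hsub ⟨hz1, by linarith⟩, ?_⟩
          rw [slope_def_field, div_lt_iff₀ (by linarith)]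
          have : g' y + (r - g' y) = r := by ring
          rwa [this] at hz3)
        (B := fun y => f a + (g y - g a) + κ * (y - a)) (B' := fun y => g' y + κ)
        (by simp) (by fun_prop)
        (fun y _ => by
          have h1 := ((hg y).sub_const (g a)).const_add (f a)
          have h2 : HasDerivAt (fun y : ℝ => κ * (y - a)) κ y := by
            have := ((hasDerivAt_id y).sub_const a).const_mul κ
            simpa using this
          exact (h1.add h2).hasDerivWithinAt)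
        (fun y _ _ => by linarith) (x := x) ⟨hax.le, le_rfl⟩
      exact this
    have h1 : Tendsto (fun a => f a + (g x - g a) + κ * (x - a)) (𝓝[>] 0)
        (𝓝 (f 0 + (g x - g 0) + κ * (x - 0))) := by
      have e1 : Tendsto f (𝓝[>] 0) (𝓝 (f 0)) :=
        (hf 0 (mem_Ici.2 le_rfl)).mono_left (nhdsWithin_mono _ Ioi_subset_Ici_self)
      have e2 : Tendsto (fun a => (g x - g a) + κ * (x - a)) (𝓝[>] 0)
          (𝓝 ((g x - g 0) + κ * (x - 0))) := by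
        have : Continuous fun a => (g x - g a) + κ * (x - a) := by fun_prop
        exact (this.tendsto 0).mono_left nhdsWithin_le_nhds
      have e3 := e1.add e2
      simpa only [add_assoc] using e3
    refine ge_of_tendsto h1 ?_
    have h2 : Ioo (0 : ℝ) x ∈ 𝓝[>] (0 : ℝ) := Ioo_mem_nhdsGT hx0
    filter_upwards [h2] with a ha
    exact hstep a ha.1 ha.2
  refine le_of_forall_pos_le_add fun η hη => ?_
  have h1 := key (η / x) (by positivity)
  have h2 : η / x * (x - 0) = η := by field_simp; ring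
  rw [h2] at h1
  exact h1

section

variable {h h4 : ℝ → ℝ} {c C : ℝ}

lemma eq_of_small {a b : ℝ} (h : ∀ δ : ℝ, 0 < δ → |a - b| ≤ δ) : a = b := by
  have : |a - b| ≤ 0 := le_of_forall_pos_le_add fun δ hδ => by
    have := h δ hδ
    linarith
  have := abs_nonpos_iff.1 this
  linarith

lemma wsum_le {N : ℕ} {w f g : Fin N → ℝ} (hw : ∀ j, 0 ≤ w j) (h : ∀ j, f j ≤ g j) :
    ∑ j, w j * f j ≤ ∑ j, w j * g j :=
  Finset.sum_le_sum fun j _ => mul_le_mul_of_nonneg_left (h j) (hw j)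

lemma wsum_const {N : ℕ} {w : Fin N → ℝ} (hw1 : ∑ j, w j = 1) (a : ℝ) : ∑ j, w j * a = a := by
  rw [← Finset.sum_mul, hw1, one_mul]

lemma at_zero (hF : ∀ ρ t δ : ℝ, 0 ≤ ρ → 0 < t → 0 < δ → Fam h h4 c C ρ t δ) :
    h 0 = 1 ∧ h4 0 = 1 ∧ ∀ t : ℝ, 0 < t → t ^ 2 * h (1 / t ^ 2) = h (t ^ 2) := by
  refine ⟨?_, ?_, fun t ht => ?_⟩
  · refine (eq_of_small fun δ hδ => ?_).symm
    obtain ⟨N, w, a, b, hw, hw1, -, -, h0, e1, -⟩ := hF 0 1 δ le_rfl one_pos hδ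
    have : ∑ j, w j * a j = 1 := by
      rw [← hw1]
      refine Finset.sum_congr rfl fun j _ => ?_
      rw [(h0 rfl j).1, mul_one]
    rwa [this] at e1
  · refine (eq_of_small fun δ hδ => ?_).symm
    obtain ⟨N, w, a, b, hw, hw1, -, -, h0, -, e1, -⟩ := hF 0 1 δ le_rfl one_pos hδ
    have : ∑ j, w j * a j ^ 2 = 1 := by
      rw [← hw1]
      refine Finset.sum_congr rfl fun j _ => ?_
      rw [(h0 rfl j).1, one_pow, mul_one]
    rwa [this] at e1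
  · refine eq_of_small fun δ hδ => ?_
    obtain ⟨N, w, a, b, hw, hw1, -, -, h0, -, -, -, -, e1, -⟩ := hF 0 t δ le_rfl ht hδ
    have k1 : ∑ j, w j * (t ^ 2 * h (a j / t ^ 2)) = t ^ 2 * h (1 / t ^ 2) := by
      rw [← wsum_const hw1 (t ^ 2 * h (1 / t ^ 2))]
      refine Finset.sum_congr rfl fun j _ => ?_
      rw [(h0 rfl j).1]
    have k2 : ∑ j, w j * h (b j) = h (t ^ 2) := by
      rw [← wsum_const hw1 (h (t ^ 2))]
      refine Finset.sum_congr rfl fun j _ => ?_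
      rw [(h0 rfl j).2]
    rwa [k1, k2] at e1

lemma scaled_bd (hF : ∀ ρ t δ : ℝ, 0 ≤ ρ → 0 < t → 0 < δ → Fam h h4 c C ρ t δ) {ρ t : ℝ}
    (hρ : 0 ≤ ρ) (ht : 0 < t) :
    ρ + c * t ^ 2 ≤ t ^ 2 * h (ρ / t ^ 2) ∧ t ^ 2 * h (ρ / t ^ 2) ≤ ρ + C * t ^ 2 := by
  constructor
  · refine le_of_forall_pos_le_add fun δ hδ => ?_
    obtain ⟨N, w, a, b, hw, hw1, -, hb, -, -, -, e1, -⟩ := hF ρ t δ hρ ht hδ
    have k1 := wsum_le hw fun j => (hb j).1
    rw [wsum_const hw1] at k1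
    have := (abs_le.1 e1).2
    linarith
  · refine le_of_forall_pos_le_add fun δ hδ => ?_
    obtain ⟨N, w, a, b, hw, hw1, -, hb, -, -, -, e1, -⟩ := hF ρ t δ hρ ht hδ
    have k1 := wsum_le hw fun j => (hb j).2
    rw [wsum_const hw1] at k1
    have := (abs_le.1 e1).1
    linarith

/-- the quotient -/
noncomputable def pq (h : ℝ → ℝ) (x : ℝ) : ℝ := (h x - 1) / x

lemma pq_bd (hF : ∀ ρ t δ : ℝ, 0 ≤ ρ → 0 < t → 0 < δ → Fam h h4 c C ρ t δ) {x : ℝ} (hx : 0 < x) :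
    c ≤ pq h x ∧ pq h x ≤ C := by
  have ht : 0 < √x := Real.sqrt_pos.2 hx
  have h1 := (at_zero hF).2.2 (√x) ht
  have h2 := scaled_bd hF zero_le_one ht
  rw [h1, Real.sq_sqrt hx.le] at h2
  unfold pq
  rw [le_div_iff₀ hx, div_le_iff₀ hx]
  constructor <;> linarith [h2.1, h2.2]

lemma scaled_eq (hF : ∀ ρ t δ : ℝ, 0 ≤ ρ → 0 < t → 0 < δ → Fam h h4 c C ρ t δ) {u t : ℝ}
    (hu : 0 < u) (ht : 0 < t) : t ^ 2 * h (u / t ^ 2) = u + t ^ 2 * pq h (t ^ 2 / u) := by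
  have hs : 0 < t / √u := div_pos ht (Real.sqrt_pos.2 hu)
  have h1 := (at_zero hF).2.2 (t / √u) hs
  have e1 : (t / √u) ^ 2 = t ^ 2 / u := by rw [div_pow, Real.sq_sqrt hu.le]
  have e2 : 1 / (t ^ 2 / u) = u / t ^ 2 := by field_simp
  rw [e1, e2] at h1
  have ht2 : 0 < t ^ 2 := by positivity
  have e3 : t ^ 2 * h (u / t ^ 2) = u * h (t ^ 2 / u) := by
    rw [← h1]
    field_simp
  rw [e3]
  unfold pq
  field_simp
  ring

lemma h_up (hc : 0 < c) (hcC : c ≤ C)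
    (hF : ∀ ρ t δ : ℝ, 0 ≤ ρ → 0 < t → 0 < δ → Fam h h4 c C ρ t δ) {ρ : ℝ} (hρ : 0 < ρ) {κ : ℝ}
    (hκ : 0 < κ) {r : ℝ} (hr : 0 < r) :
    ∃ z, ρ < z ∧ z < ρ + r ∧ h z - h ρ < (1 + κ) * (z - ρ) := by
  have hC : 0 < C := by linarith
  obtain ⟨y, hy0, hys, hy⟩ := sel_up hc (fun x hx => pq_bd hF hx) (θ := 1 + κ / 2) (by linarith)
    (s := r / (C * ρ)) (by positivity)
  obtain ⟨t, ht, ht2⟩ : ∃ t : ℝ, 0 < t ∧ t ^ 2 = ρ * y :=
    ⟨√(ρ * y), Real.sqrt_pos.2 (by positivity), Real.sq_sqrt (by positivity)⟩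
  have ht20 : 0 < t ^ 2 := by positivity
  have hpy := pq_bd hF hy0
  set δ : ℝ := κ * t ^ 2 * c / (4 * (4 + κ)) with hδ
  have hδ0 : 0 < δ := by positivity
  obtain ⟨N, w, a, b, hw, hw1, ha, hb, -, e1, -, e3, -, e5, -⟩ := hF ρ t δ hρ.le ht hδ0
  by_contra hcon
  push Not at hcon
  have hbj : ∀ j, ρ < b j ∧ b j < ρ + r := by
    intro j
    have h1 := hb j
    have h2 : 0 < c * t ^ 2 := by positivity
    have h3 : C * t ^ 2 < r := by
      rw [ht2]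
      rw [lt_div_iff₀ (by positivity)] at hys
      linarith
    constructor <;> linarith [h1.1, h1.2]
  have k1 : ∑ j, w j * (t ^ 2 * h (a j / t ^ 2)) ≤
      ∑ j, w j * (a j + t ^ 2 * ((1 + κ / 2) * pq h y)) := by
    refine wsum_le hw fun j => ?_
    have haj : 0 < a j := by linarith [(ha j).1]
    rw [scaled_eq hF haj ht]
    have h1 : t ^ 2 / a j ≤ y := by
      rw [div_le_iff₀ haj, ht2]
      have := (ha j).1
      nlinarith
    have h2 := hy (t ^ 2 / a j) (by positivity) h1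
    have := mul_le_mul_of_nonneg_left h2.le ht20.le
    linarith
  have k2 : ∑ j, w j * (a j + t ^ 2 * ((1 + κ / 2) * pq h y)) =
      ∑ j, w j * a j + t ^ 2 * ((1 + κ / 2) * pq h y) := by
    simp only [mul_add, Finset.sum_add_distrib]
    rw [← Finset.sum_mul, hw1, one_mul]
  have k3 : ∑ j, w j * (h ρ + (1 + κ) * (b j - ρ)) ≤ ∑ j, w j * h (b j) := by
    refine wsum_le hw fun j => ?_
    have := hcon (b j) (hbj j).1 (hbj j).2
    linarith
  have k4 : ∑ j, w j * (h ρ + (1 + κ) * (b j - ρ)) =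
      h ρ + (1 + κ) * (∑ j, w j * b j - ρ) := by
    have : ∀ j, w j * (h ρ + (1 + κ) * (b j - ρ)) =
        w j * (h ρ - (1 + κ) * ρ) + (1 + κ) * (w j * b j) := fun j => by ring
    simp only [this]
    rw [Finset.sum_add_distrib, wsum_const hw1, ← Finset.mul_sum]
    ring
  have k5 : t ^ 2 * h (ρ / t ^ 2) = ρ + t ^ 2 * pq h y := by
    rw [scaled_eq hF hρ ht]
    congr 3
    rw [ht2]
    field_simp
  rw [k5] at e3
  rw [abs_le] at e1 e3 e5
  rw [k2] at k1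
  rw [k4] at k3
  have k6 : (1 + κ) * (t ^ 2 * pq h y - δ) ≤ (1 + κ) * (∑ j, w j * b j - ρ) :=
    mul_le_mul_of_nonneg_left (by linarith [e3.1]) (by linarith)
  have k7 : κ / 2 * (t ^ 2 * pq h y) ≤ (3 + κ) * δ := by
    nlinarith [e1.1, e1.2, e5.1, e5.2]
  have k8 : κ / 2 * (t ^ 2 * c) ≤ κ / 2 * (t ^ 2 * pq h y) := by
    have : t ^ 2 * c ≤ t ^ 2 * pq h y := mul_le_mul_of_nonneg_left hpy.1 ht20.le
    exact mul_le_mul_of_nonneg_left this (by linarith)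
  have k9 : (4 + κ) * δ = κ * t ^ 2 * c / 4 := by
    rw [hδ]
    field_simp
  have k10 : 0 < κ * t ^ 2 * c := by positivity
  nlinarith

lemma h_low' (hc : 0 < c) (hcC : c ≤ C)
    (hF : ∀ ρ t δ : ℝ, 0 ≤ ρ → 0 < t → 0 < δ → Fam h h4 c C ρ t δ) {ρ : ℝ} (hρ : 0 < ρ) {κ : ℝ}
    (hκ : 0 < κ) (hk : κ < 5) {r : ℝ} (hr : 0 < r) :
    ∃ z, ρ < z ∧ z < ρ + r ∧ (1 - κ) * (z - ρ) < h z - h ρ := by
  have hC : 0 < C := by linarith
  obtain ⟨y, hy0, hys, hy⟩ := sel_low hc (fun x hx => pq_bd hF hx) (θ := 1 + κ / 2) (by linarith)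
    (s := r / (C * ρ)) (by positivity)
  obtain ⟨t, ht, ht2⟩ : ∃ t : ℝ, 0 < t ∧ t ^ 2 = ρ * y :=
    ⟨√(ρ * y), Real.sqrt_pos.2 (by positivity), Real.sq_sqrt (by positivity)⟩
  have ht20 : 0 < t ^ 2 := by positivity
  have hpy := pq_bd hF hy0
  set δ : ℝ := κ * t ^ 2 * c / (16 * (1 + κ)) with hδ
  have hδ0 : 0 < δ := by positivity
  obtain ⟨N, w, a, b, hw, hw1, ha, hb, -, e1, -, e3, -, e5, -⟩ := hF ρ t δ hρ.le ht hδ0
  by_contra hcon
  push Not at hcon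
  have hbj : ∀ j, ρ < b j ∧ b j < ρ + r := by
    intro j
    have h1 := hb j
    have h2 : 0 < c * t ^ 2 := by positivity
    have h3 : C * t ^ 2 < r := by
      rw [ht2]
      rw [lt_div_iff₀ (by positivity)] at hys
      linarith
    constructor <;> linarith [h1.1, h1.2]
  -- multiply by `1 + κ / 2`
  have k1 : ∑ j, w j * ((1 + κ / 2) * a j + t ^ 2 * pq h y) ≤
      ∑ j, w j * ((1 + κ / 2) * (t ^ 2 * h (a j / t ^ 2))) := by
    refine wsum_le hw fun j => ?_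
    have haj : 0 < a j := by linarith [(ha j).1]
    rw [scaled_eq hF haj ht]
    have h1 : t ^ 2 / a j ≤ y := by
      rw [div_le_iff₀ haj, ht2]
      have := (ha j).1
      nlinarith
    have h2 := hy (t ^ 2 / a j) (by positivity) h1
    have := mul_le_mul_of_nonneg_left h2.le ht20.le
    nlinarith
  have k2 : ∑ j, w j * ((1 + κ / 2) * a j + t ^ 2 * pq h y) =
      (1 + κ / 2) * ∑ j, w j * a j + t ^ 2 * pq h y := by
    have : ∀ j, w j * ((1 + κ / 2) * a j + t ^ 2 * pq h y) =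
        (1 + κ / 2) * (w j * a j) + w j * (t ^ 2 * pq h y) := fun j => by ring
    simp only [this]
    rw [Finset.sum_add_distrib, wsum_const hw1, ← Finset.mul_sum]
  have k2' : ∑ j, w j * ((1 + κ / 2) * (t ^ 2 * h (a j / t ^ 2))) =
      (1 + κ / 2) * ∑ j, w j * (t ^ 2 * h (a j / t ^ 2)) := by
    rw [Finset.mul_sum]
    refine Finset.sum_congr rfl fun j _ => ?_
    ring
  have k3 : ∑ j, w j * h (b j) ≤ ∑ j, w j * (h ρ + (1 - κ) * (b j - ρ)) := by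
    refine wsum_le hw fun j => ?_
    have := hcon (b j) (hbj j).1 (hbj j).2
    linarith
  have k4 : ∑ j, w j * (h ρ + (1 - κ) * (b j - ρ)) =
      h ρ + (1 - κ) * (∑ j, w j * b j - ρ) := by
    have : ∀ j, w j * (h ρ + (1 - κ) * (b j - ρ)) =
        w j * (h ρ - (1 - κ) * ρ) + (1 - κ) * (w j * b j) := fun j => by ring
    simp only [this]
    rw [Finset.sum_add_distrib, wsum_const hw1, ← Finset.mul_sum]
    ring
  have k5 : t ^ 2 * h (ρ / t ^ 2) = ρ + t ^ 2 * pq h y := by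
    rw [scaled_eq hF hρ ht]
    congr 3
    rw [ht2]
    field_simp
  rw [k5] at e3
  rw [abs_le] at e1 e3 e5
  rw [k2, k2'] at k1
  rw [k4] at k3
  set Sa := ∑ j, w j * a j with hSa
  set Sb := ∑ j, w j * b j with hSb
  set Sh := ∑ j, w j * (t ^ 2 * h (a j / t ^ 2)) with hSh
  set Sg := ∑ j, w j * h (b j) with hSg
  set P := t ^ 2 * pq h y with hP
  have hP0 : t ^ 2 * c ≤ P := mul_le_mul_of_nonneg_left hpy.1 ht20.le
  have hPc : 0 < t ^ 2 * c := by positivity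
  -- `(1 + κ/2) Sh ≥ (1 + κ/2) Sa + P`
  have m1 : (1 + κ / 2) * (h ρ - δ) + P ≤ (1 + κ / 2) * (Sg + δ) := by
    have a1 : (1 + κ / 2) * (h ρ - δ) ≤ (1 + κ / 2) * Sa :=
      mul_le_mul_of_nonneg_left (by linarith [e1.1]) (by linarith)
    have a2 : (1 + κ / 2) * Sh ≤ (1 + κ / 2) * (Sg + δ) :=
      mul_le_mul_of_nonneg_left (by linarith [e5.2]) (by linarith)
    linarith
  have m2 : (1 - κ) * (Sb - ρ) ≤ (1 - κ) * P + (1 + κ) * δ := by
    have a1 : |Sb - ρ - P| ≤ δ := by rw [abs_le]; constructor <;> linarith [e3.1, e3.2]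
    have a2 : (1 - κ) * (Sb - ρ - P) ≤ |1 - κ| * |Sb - ρ - P| := by
      rw [← abs_mul]; exact le_abs_self _
    have a3 : |1 - κ| ≤ 1 + κ := by rw [abs_le]; constructor <;> linarith
    have a4 : |1 - κ| * |Sb - ρ - P| ≤ (1 + κ) * δ :=
      mul_le_mul a3 a1 (abs_nonneg _) (by linarith)
    linarith
  have m3 : (1 + κ / 2) * Sg ≤ (1 + κ / 2) * (h ρ + ((1 - κ) * P + (1 + κ) * δ)) :=
    mul_le_mul_of_nonneg_left (by linarith) (by linarith)
  have m4 : P ≤ (1 + κ / 2) * (1 - κ) * P + (1 + κ / 2) * ((3 + κ) * δ) := by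
    nlinarith
  have m5 : (1 + κ / 2) * (1 - κ) * P ≤ (1 - κ / 2) * P := by
    have : 0 ≤ κ ^ 2 / 2 * P := by
      have : 0 ≤ P := by linarith
      positivity
    nlinarith
  have m6 : κ / 2 * (t ^ 2 * c) ≤ κ / 2 * P := mul_le_mul_of_nonneg_left hP0 (by linarith)
  have m7 : (1 + κ) * δ = κ * t ^ 2 * c / 16 := by
    rw [hδ]
    field_simp
  have m8 : (1 + κ / 2) * ((3 + κ) * δ) ≤ (3 + κ) * ((1 + κ) * δ) := by nlinarith
  have m9 : κ / 2 * (t ^ 2 * c) ≤ (3 + κ) * (κ * t ^ 2 * c / 16) := by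
    rw [← m7]
    linarith
  have m10 : 0 < κ * (t ^ 2 * c) := by positivity
  nlinarith

lemma h_low (hc : 0 < c) (hcC : c ≤ C)
    (hF : ∀ ρ t δ : ℝ, 0 ≤ ρ → 0 < t → 0 < δ → Fam h h4 c C ρ t δ) {ρ : ℝ} (hρ : 0 < ρ) {κ : ℝ}
    (hκ : 0 < κ) {r : ℝ} (hr : 0 < r) :
    ∃ z, ρ < z ∧ z < ρ + r ∧ (1 - κ) * (z - ρ) < h z - h ρ := by
  obtain ⟨z, h1, h2, h3⟩ := h_low' hc hcC hF hρ (κ := min κ 1) (lt_min hκ one_pos)
    (by linarith [min_le_right κ 1]) hr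
  refine ⟨z, h1, h2, lt_of_le_of_lt ?_ h3⟩
  exact mul_le_mul_of_nonneg_right (by linarith [min_le_left κ 1]) (by linarith)

lemma h_eq (hc : 0 < c) (hcC : c ≤ C) (hh : ContinuousOn h (Ici 0))
    (hF : ∀ ρ t δ : ℝ, 0 ≤ ρ → 0 < t → 0 < δ → Fam h h4 c C ρ t δ) {ρ : ℝ} (hρ : 0 ≤ ρ) :
    h ρ = 1 + ρ := by
  have h0 := (at_zero hF).1
  refine le_antisymm ?_ ?_
  · have := growth_le hh (g := fun x => x) (g' := fun _ => 1) (fun x => hasDerivAt_id x)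
      (fun ρ hρ κ hκ r hr => h_up hc hcC hF hρ hκ hr) hρ
    rw [h0] at this
    linarith
  · have := growth_le (f := fun x => - h x) hh.neg (g := fun x => - x) (g' := fun _ => -1)
      (fun x => (hasDerivAt_id x).neg)
      (fun ρ hρ κ hκ r hr => by
        obtain ⟨z, h1, h2, h3⟩ := h_low hc hcC hF hρ hκ hr
        exact ⟨z, h1, h2, by linarith⟩) hρ
    simp only [h0] at this
    linarith

/-- `t⁴ h4 (u / t²)` up to `O(t⁴)` -/
lemma h4_scaled (hc : 0 < c) (hcC : c ≤ C) (hh : ContinuousOn h (Ici 0))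
    (hF : ∀ ρ t δ : ℝ, 0 ≤ ρ → 0 < t → 0 < δ → Fam h h4 c C ρ t δ) {u t : ℝ} (hu : 0 ≤ u)
    (ht : 0 < t) :
    u ^ 2 + 2 * u * t ^ 2 ≤ t ^ 4 * h4 (u / t ^ 2) ∧
      t ^ 4 * h4 (u / t ^ 2) ≤ u ^ 2 + 2 * u * t ^ 2 + C ^ 2 * t ^ 4 := by
  have hC : 0 < C := by linarith
  have ht2 : 0 < t ^ 2 := by positivity
  have key : ∀ δ : ℝ, 0 < δ → u ^ 2 + 2 * u * t ^ 2 ≤ t ^ 4 * h4 (u / t ^ 2) + (2 * u + 1) * δ ∧
      t ^ 4 * h4 (u / t ^ 2) ≤ u ^ 2 + 2 * u * t ^ 2 + C ^ 2 * t ^ 4 + (2 * u + 1) * δ := by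
    intro δ hδ
    obtain ⟨N, w, a, b, hw, hw1, -, hb, -, -, -, e3, e4, -⟩ := hF u t δ hu ht hδ
    have k0 : t ^ 2 * h (u / t ^ 2) = t ^ 2 + u := by
      rw [h_eq hc hcC hh hF (by positivity)]
      field_simp
    rw [k0] at e3
    rw [abs_le] at e3 e4
    have k1 : ∑ j, w j * (u ^ 2 + 2 * u * (b j - u)) ≤ ∑ j, w j * b j ^ 2 := by
      refine wsum_le hw fun j => ?_
      nlinarith [sq_nonneg (b j - u)]
    have k2 : ∑ j, w j * b j ^ 2 ≤ ∑ j, w j * (u ^ 2 + C ^ 2 * t ^ 4 + 2 * u * (b j - u)) := by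
      refine wsum_le hw fun j => ?_
      have h1 := hb j
      have h2 : 0 ≤ b j - u := by nlinarith
      have h3 : b j - u ≤ C * t ^ 2 := by linarith
      have h4 : (b j - u) ^ 2 ≤ (C * t ^ 2) ^ 2 := pow_le_pow_left₀ h2 h3 2
      nlinarith
    have k3 : ∀ A : ℝ, ∑ j, w j * (A + 2 * u * (b j - u)) =
        A + 2 * u * (∑ j, w j * b j - u) := by
      intro A
      have : ∀ j, w j * (A + 2 * u * (b j - u)) =
          w j * (A - 2 * u * u) + 2 * u * (w j * b j) := fun j => by ring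
      simp only [this]
      rw [Finset.sum_add_distrib, wsum_const hw1, ← Finset.mul_sum]
      ring
    rw [k3] at k1 k2
    have k4 : 2 * u * (∑ j, w j * b j - u) ≤ 2 * u * (t ^ 2 + δ) :=
      mul_le_mul_of_nonneg_left (by linarith [e3.2]) (by linarith)
    have k5 : 2 * u * (t ^ 2 - δ) ≤ 2 * u * (∑ j, w j * b j - u) :=
      mul_le_mul_of_nonneg_left (by linarith [e3.1]) (by linarith)
    constructor <;> linarith [e4.1, e4.2]
  have hpos : 0 < 2 * u + 1 := by linarith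
  constructor
  · refine le_of_forall_pos_le_add fun η hη => ?_
    have := (key (η / (2 * u + 1)) (by positivity)).1
    rwa [mul_div_cancel₀ _ hpos.ne'] at this
  · refine le_of_forall_pos_le_add fun η hη => ?_
    have := (key (η / (2 * u + 1)) (by positivity)).2
    rwa [mul_div_cancel₀ _ hpos.ne'] at this

/-- the sum of the differences of `h4` -/
lemma h4_sum (hc : 0 < c) (hcC : c ≤ C) (hh : ContinuousOn h (Ici 0))
    (hF : ∀ ρ t δ : ℝ, 0 ≤ ρ → 0 < t → 0 < δ → Fam h h4 c C ρ t δ) {ρ t : ℝ} (hρ : 0 ≤ ρ)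
    (ht : 0 < t) :
    ∃ (N : ℕ) (w b : Fin N → ℝ), (∀ j, 0 ≤ w j) ∧ ∑ j, w j = 1 ∧
      (∀ j, ρ + c * t ^ 2 ≤ b j ∧ b j ≤ ρ + C * t ^ 2) ∧
      |∑ j, w j * (b j - ρ) - t ^ 2| ≤ t ^ 4 ∧
      |∑ j, w j * (h4 (b j) - h4 ρ) - 2 * (1 + ρ) * t ^ 2| ≤ (2 + 2 * t ^ 2 + C ^ 2) * t ^ 4 := by
  have hC : 0 < C := by linarith
  have ht2 : 0 < t ^ 2 := by positivity
  have ht4 : 0 < t ^ 4 := by positivity
  obtain ⟨N, w, a, b, hw, hw1, ha, hb, -, e1, e2, e3, -, -, e6⟩ := hF ρ t (t ^ 4) hρ ht ht4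
  refine ⟨N, w, b, hw, hw1, hb, ?_, ?_⟩
  · have k0 : t ^ 2 * h (ρ / t ^ 2) = t ^ 2 + ρ := by
      rw [h_eq hc hcC hh hF (by positivity)]
      field_simp
    rw [k0] at e3
    have k1 : ∑ j, w j * (b j - ρ) = ∑ j, w j * b j - ρ := by
      simp only [mul_sub, Finset.sum_sub_distrib]
      rw [wsum_const hw1]
    rw [k1]
    rw [abs_le] at e3 ⊢
    constructor <;> linarith [e3.1, e3.2]
  · have k1 : ∑ j, w j * (h4 (b j) - h4 ρ) = ∑ j, w j * h4 (b j) - h4 ρ := by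
      simp only [mul_sub, Finset.sum_sub_distrib]
      rw [wsum_const hw1]
    rw [k1]
    have haj : ∀ j, 0 ≤ a j := fun j => by linarith [(ha j).1]
    have k2 : ∑ j, w j * (a j ^ 2 + 2 * t ^ 2 * a j) ≤ ∑ j, w j * (t ^ 4 * h4 (a j / t ^ 2)) := by
      refine wsum_le hw fun j => ?_
      have := (h4_scaled hc hcC hh hF (haj j) ht).1
      linarith
    have k3 : ∑ j, w j * (t ^ 4 * h4 (a j / t ^ 2)) ≤
        ∑ j, w j * (a j ^ 2 + 2 * t ^ 2 * a j + C ^ 2 * t ^ 4) := by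
      refine wsum_le hw fun j => ?_
      have := (h4_scaled hc hcC hh hF (haj j) ht).2
      linarith
    have k4 : ∑ j, w j * (a j ^ 2 + 2 * t ^ 2 * a j) =
        ∑ j, w j * a j ^ 2 + 2 * t ^ 2 * ∑ j, w j * a j := by
      rw [Finset.mul_sum, ← Finset.sum_add_distrib]
      refine Finset.sum_congr rfl fun j _ => ?_
      ring
    have k5 : ∑ j, w j * (a j ^ 2 + 2 * t ^ 2 * a j + C ^ 2 * t ^ 4) =
        ∑ j, w j * a j ^ 2 + 2 * t ^ 2 * ∑ j, w j * a j + C ^ 2 * t ^ 4 := by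
      have : ∀ j, w j * (a j ^ 2 + 2 * t ^ 2 * a j + C ^ 2 * t ^ 4) =
        w j * (a j ^ 2 + 2 * t ^ 2 * a j) + w j * (C ^ 2 * t ^ 4) := fun j => by ring
      simp only [this]
      rw [Finset.sum_add_distrib, wsum_const hw1, k4]
    rw [k4] at k2
    rw [k5] at k3
    rw [h_eq hc hcC hh hF hρ] at e1
    rw [abs_le] at e1 e2 e6 ⊢
    have k6 : 2 * t ^ 2 * (1 + ρ - t ^ 4) ≤ 2 * t ^ 2 * ∑ j, w j * a j :=
      mul_le_mul_of_nonneg_left (by linarith [e1.1]) (by linarith)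
    have k7 : 2 * t ^ 2 * ∑ j, w j * a j ≤ 2 * t ^ 2 * (1 + ρ + t ^ 4) :=
      mul_le_mul_of_nonneg_left (by linarith [e1.2]) (by linarith)
    have k8 : 0 ≤ C ^ 2 * t ^ 4 := by positivity
    constructor <;> nlinarith [e2.1, e2.2, e6.1, e6.2]

/-- a small scale -/
lemma exists_small {A κ r : ℝ} (hC : 0 < C) (hA : 0 < A) (hκ : 0 < κ) (hr : 0 < r) :
    ∃ t : ℝ, 0 < t ∧ t ^ 2 ≤ 1 ∧ C * t ^ 2 < r ∧ A * t ^ 4 < κ * t ^ 2 := by
  obtain ⟨s, hs0, hs⟩ : ∃ s : ℝ, 0 < s ∧ s ≤ 1 ∧ C * s < r ∧ A * s < κ := by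
    refine ⟨min 1 (min (r / (2 * C)) (κ / (2 * A))), by positivity, min_le_left _ _, ?_, ?_⟩
    · have h1 : min 1 (min (r / (2 * C)) (κ / (2 * A))) ≤ r / (2 * C) :=
        (min_le_right _ _).trans (min_le_left _ _)
      have h2 := mul_le_mul_of_nonneg_left h1 hC.le
      have h3 : C * (r / (2 * C)) = r / 2 := by field_simp
      linarith
    · have h1 : min 1 (min (r / (2 * C)) (κ / (2 * A))) ≤ κ / (2 * A) :=
        (min_le_right _ _).trans (min_le_right _ _)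
      have h2 := mul_le_mul_of_nonneg_left h1 hA.le
      have h3 : A * (κ / (2 * A)) = κ / 2 := by field_simp
      linarith
  have e : √s ^ 2 = s := Real.sq_sqrt hs0.le
  have e4 : √s ^ 4 = s * s := by
    have : √s ^ 4 = √s ^ 2 * √s ^ 2 := by ring
    rw [this, e]
  refine ⟨√s, Real.sqrt_pos.2 hs0, ?_, ?_, ?_⟩
  · rw [e]; exact hs.1
  · rw [e]; exact hs.2.1
  · rw [e, e4]
    nlinarith [hs.2.2]

lemma h4_up (hc : 0 < c) (hcC : c ≤ C) (hh : ContinuousOn h (Ici 0))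
    (hF : ∀ ρ t δ : ℝ, 0 ≤ ρ → 0 < t → 0 < δ → Fam h h4 c C ρ t δ) {ρ : ℝ} (hρ : 0 < ρ) {κ : ℝ}
    (hκ : 0 < κ) {r : ℝ} (hr : 0 < r) :
    ∃ z, ρ < z ∧ z < ρ + r ∧ h4 z - h4 ρ < (2 * (1 + ρ) + κ) * (z - ρ) := by
  have hC : 0 < C := by linarith
  obtain ⟨t, ht, ht1, htr, htκ⟩ := exists_small (C := C) (A := 4 + C ^ 2 + 2 * (1 + ρ) + κ) hC
    (by positivity) hκ hr
  have ht2 : 0 < t ^ 2 := by positivity
  have ht4 : 0 < t ^ 4 := by positivity
  obtain ⟨N, w, b, hw, hw1, hb, e1, e2⟩ := h4_sum hc hcC hh hF hρ.le ht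
  by_contra hcon
  push Not at hcon
  have k1 : ∑ j, w j * ((2 * (1 + ρ) + κ) * (b j - ρ)) ≤ ∑ j, w j * (h4 (b j) - h4 ρ) := by
    refine wsum_le hw fun j => hcon (b j) ?_ ?_
    · have : 0 < c * t ^ 2 := by positivity
      linarith [(hb j).1]
    · linarith [(hb j).2]
  have k2 : ∑ j, w j * ((2 * (1 + ρ) + κ) * (b j - ρ)) =
      (2 * (1 + ρ) + κ) * ∑ j, w j * (b j - ρ) := by
    rw [Finset.mul_sum]
    refine Finset.sum_congr rfl fun j _ => ?_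
    ring
  rw [k2] at k1
  rw [abs_le] at e1 e2
  have k3 : (2 * (1 + ρ) + κ) * (t ^ 2 - t ^ 4) ≤ (2 * (1 + ρ) + κ) * ∑ j, w j * (b j - ρ) :=
    mul_le_mul_of_nonneg_left (by linarith [e1.1]) (by linarith)
  have k4 : (2 + 2 * t ^ 2 + C ^ 2) * t ^ 4 ≤ (4 + C ^ 2) * t ^ 4 :=
    mul_le_mul_of_nonneg_right (by linarith) ht4.le
  nlinarith [e2.2]

lemma h4_low (hc : 0 < c) (hcC : c ≤ C) (hh : ContinuousOn h (Ici 0))
    (hF : ∀ ρ t δ : ℝ, 0 ≤ ρ → 0 < t → 0 < δ → Fam h h4 c C ρ t δ) {ρ : ℝ} (hρ : 0 < ρ) {κ : ℝ}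
    (hκ : 0 < κ) {r : ℝ} (hr : 0 < r) :
    ∃ z, ρ < z ∧ z < ρ + r ∧ (2 * (1 + ρ) - κ) * (z - ρ) < h4 z - h4 ρ := by
  have hC : 0 < C := by linarith
  obtain ⟨t, ht, ht1, htr, htκ⟩ := exists_small (C := C) (A := 4 + C ^ 2 + 2 * (1 + ρ) + κ) hC
    (by positivity) hκ hr
  have ht2 : 0 < t ^ 2 := by positivity
  have ht4 : 0 < t ^ 4 := by positivity
  obtain ⟨N, w, b, hw, hw1, hb, e1, e2⟩ := h4_sum hc hcC hh hF hρ.le ht
  by_contra hcon
  push Not at hcon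
  have k1 : ∑ j, w j * (h4 (b j) - h4 ρ) ≤ ∑ j, w j * ((2 * (1 + ρ) - κ) * (b j - ρ)) := by
    refine wsum_le hw fun j => hcon (b j) ?_ ?_
    · have : 0 < c * t ^ 2 := by positivity
      linarith [(hb j).1]
    · linarith [(hb j).2]
  have k2 : ∑ j, w j * ((2 * (1 + ρ) - κ) * (b j - ρ)) =
      (2 * (1 + ρ) - κ) * ∑ j, w j * (b j - ρ) := by
    rw [Finset.mul_sum]
    refine Finset.sum_congr rfl fun j _ => ?_
    ring
  rw [k2] at k1
  have k3 : (2 * (1 + ρ) - κ) * ((∑ j, w j * (b j - ρ)) - t ^ 2) ≤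
      (2 * (1 + ρ) + κ) * t ^ 4 := by
    refine (le_abs_self _).trans ?_
    rw [abs_mul]
    refine mul_le_mul ?_ e1 (abs_nonneg _) (by linarith)
    rw [abs_le]
    constructor <;> linarith
  rw [abs_le] at e1 e2
  have k4 : (2 + 2 * t ^ 2 + C ^ 2) * t ^ 4 ≤ (4 + C ^ 2) * t ^ 4 :=
    mul_le_mul_of_nonneg_right (by linarith) ht4.le
  nlinarith [e2.1]

lemma h4_eq (hc : 0 < c) (hcC : c ≤ C) (hh : ContinuousOn h (Ici 0))
    (hh4 : ContinuousOn h4 (Ici 0))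
    (hF : ∀ ρ t δ : ℝ, 0 ≤ ρ → 0 < t → 0 < δ → Fam h h4 c C ρ t δ) {ρ : ℝ} (hρ : 0 ≤ ρ) :
    h4 ρ = (1 + ρ) ^ 2 := by
  have h0 := (at_zero hF).2.1
  have hd : ∀ x : ℝ, HasDerivAt (fun x : ℝ => (1 + x) ^ 2) (2 * (1 + x)) x := by
    intro x
    have h1 : HasDerivAt (fun x : ℝ => 1 + x) 1 x := (hasDerivAt_id x).const_add 1
    have h2 := h1.fun_pow 2
    simpa using h2
  refine le_antisymm ?_ ?_
  · have := growth_le hh4 (g := fun x => (1 + x) ^ 2) (g' := fun x => 2 * (1 + x)) hd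
      (fun ρ hρ κ hκ r hr => h4_up hc hcC hh hF hρ hκ hr) hρ
    rw [h0] at this
    linarith
  · have := growth_le (f := fun x => - h4 x) hh4.neg (g := fun x => - (1 + x) ^ 2)
      (g' := fun x => - (2 * (1 + x))) (fun x => (hd x).neg)
      (fun ρ hρ κ hκ r hr => by
        obtain ⟨z, h1, h2, h3⟩ := h4_low hc hcC hh hF hρ hκ hr
        exact ⟨z, h1, h2, by linarith⟩) hρ
    simp only [h0] at this
    linarith

end

theorem t_ODE : S_ODE := fun _ _ _ _ hc hcC hh hh4 hF _ hρ =>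
  ⟨h_eq hc hcC hh hF hρ, h4_eq hc hcC hh hh4 hF hρ⟩

end Pool.Agent.V5helper39.BM
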