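import Pool.Agent.V5helper39.BM.Kt

set_option autoImplicit false

/-! # Families of numbers from families of types -/

namespace Pool.Agent.V5helper39.BM

open Filter Topology Set

section

variable {E : Type} [NormedAddCommGroup E] [NormedSpace ℝ E]

lemma tendsto_on {H : ℝ → ℝ} (hH : ContinuousOn H (Ici 0)) {u : ℕ → ℝ} {a : ℝ} (ha : 0 ≤ a)
    (hu0 : ∀ n, 0 ≤ u n) (hu : Tendsto u atTop (𝓝 a)) :
    Tendsto (fun n => H (u n)) atTop (𝓝 (H a)) :=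
  (hH a ha).tendsto.comp (tendsto_nhdsWithin_iff.2 ⟨hu, Eventually.of_forall hu0⟩)

lemma sum_avg {N : ℕ} (w : Fin N → ℝ) (hw : ∀ i, 0 ≤ w i) (hw1 : ∑ i, w i = 1) (f g : Fin N → ℝ)
    {η : ℝ} (h : ∀ i, |f i - g i| ≤ η) : |∑ i, w i * f i - ∑ i, w i * g i| ≤ η := by
  rw [← Finset.sum_sub_distrib]
  refine (Finset.abs_sum_le_sum_abs _ _).trans ?_
  calc ∑ i, |w i * f i - w i * g i| ≤ ∑ i, w i * η := by
        refine Finset.sum_le_sum fun i _ => ?_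
        rw [← mul_sub, abs_mul, abs_of_nonneg (hw i)]
        exact mul_le_mul_of_nonneg_left (h i) (hw i)
    _ = η := by rw [← Finset.sum_mul, hw1, one_mul]

lemma fam_comm {N : ℕ} (w : Fin N → ℝ) (hw : ∀ i, 0 ≤ w i) (hw1 : ∑ i, w i = 1)
    (τ : Fin N → E → ℝ) (Y : Fin N → ℕ → E) (hY : ∀ j n, ‖Y j n‖ = 1)
    (hτ : ∀ j x, Tendsto (fun n => ‖x + Y j n‖) atTop (𝓝 (τ j x))) (v : E) {t : ℝ} (ht : 0 < t)
    (F : Fin N → Fin N → ℝ)
    (hF1 : ∀ j k, Tendsto (fun n => t * τ k (t⁻¹ • (v + Y j n))) atTop (𝓝 (F j k)))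
    (hF2 : ∀ j k, Tendsto (fun m => τ j (v + t • Y k m)) atTop (𝓝 (F j k)))
    {H : ℝ → ℝ} (hH : ContinuousOn H (Ici 0)) (p : ℕ) {δ : ℝ} (hδ : 0 ≤ δ)
    (hap : ∀ u : E, |H (‖u‖ ^ 2) - ∑ i, w i * τ i u ^ p| ≤ δ * (1 + ‖u‖) ^ 4) :
    |∑ j, w j * (t ^ p * H (τ j v ^ 2 / t ^ 2)) - ∑ j, w j * H (t ^ 2 * τ j (t⁻¹ • v) ^ 2)| ≤
      δ * (t ^ p * (1 + (‖v‖ + 1) / t) ^ 4 + (1 + ‖v‖ + t) ^ 4) := by
  have hA : ∀ j, |t ^ p * H (τ j v ^ 2 / t ^ 2) - ∑ k, w k * F j k ^ p| ≤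
      δ * (t ^ p * (1 + (‖v‖ + 1) / t) ^ 4) := by
    intro j
    have hu : ∀ n, ‖t⁻¹ • (v + Y j n)‖ = t⁻¹ * ‖v + Y j n‖ := by
      intro n
      rw [norm_smul, norm_inv, Real.norm_eq_abs, abs_of_pos ht]
    have h1 : Tendsto (fun n => ‖t⁻¹ • (v + Y j n)‖ ^ 2) atTop (𝓝 (τ j v ^ 2 / t ^ 2)) := by
      have := ((hτ j v).const_mul t⁻¹).pow 2
      have e : (t⁻¹ * τ j v) ^ 2 = τ j v ^ 2 / t ^ 2 := by field_simp
      rw [e] at this
      exact this.congr fun n => by rw [hu]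
    have h2 := tendsto_on hH (by positivity) (fun n => sq_nonneg _) h1
    have h3 : ∀ k, Tendsto (fun n => τ k (t⁻¹ • (v + Y j n))) atTop (𝓝 (t⁻¹ * F j k)) := by
      intro k
      refine ((hF1 j k).const_mul t⁻¹).congr fun n => ?_
      rw [← mul_assoc, inv_mul_cancel₀ ht.ne', one_mul]
    have h4 : Tendsto (fun n => ∑ k, w k * τ k (t⁻¹ • (v + Y j n)) ^ p) atTop
        (𝓝 (∑ k, w k * (t⁻¹ * F j k) ^ p)) :=
      tendsto_finsetSum _ fun k _ => ((h3 k).pow p).const_mul (w k)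
    have h5 : |H (τ j v ^ 2 / t ^ 2) - ∑ k, w k * (t⁻¹ * F j k) ^ p| ≤
        δ * (1 + (‖v‖ + 1) / t) ^ 4 := by
      refine le_of_tendsto' ((h2.sub h4).abs) fun n => ?_
      refine (hap _).trans ?_
      rw [hu]
      have h6 : ‖v + Y j n‖ ≤ ‖v‖ + 1 := by
        refine (norm_add_le _ _).trans ?_
        rw [hY]
      have h7 : t⁻¹ * ‖v + Y j n‖ ≤ (‖v‖ + 1) / t := by
        rw [inv_mul_eq_div]
        gcongr
      gcongr
    have h6 : t ^ p * H (τ j v ^ 2 / t ^ 2) - ∑ k, w k * F j k ^ p =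
        t ^ p * (H (τ j v ^ 2 / t ^ 2) - ∑ k, w k * (t⁻¹ * F j k) ^ p) := by
      rw [mul_sub, Finset.mul_sum]
      congr 1
      refine Finset.sum_congr rfl fun k _ => ?_
      rw [mul_pow, inv_pow]
      field_simp
    rw [h6, abs_mul, abs_of_nonneg (by positivity : 0 ≤ t ^ p)]
    calc t ^ p * |H (τ j v ^ 2 / t ^ 2) - ∑ k, w k * (t⁻¹ * F j k) ^ p| ≤
        t ^ p * (δ * (1 + (‖v‖ + 1) / t) ^ 4) := mul_le_mul_of_nonneg_left h5 (by positivity)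
      _ = _ := by ring
  have hB : ∀ k, |H (t ^ 2 * τ k (t⁻¹ • v) ^ 2) - ∑ j, w j * F j k ^ p| ≤
      δ * (1 + ‖v‖ + t) ^ 4 := by
    intro k
    have hu : ∀ m, ‖v + t • Y k m‖ = t * ‖t⁻¹ • v + Y k m‖ := by
      intro m
      have : v + t • Y k m = t • (t⁻¹ • v + Y k m) := by
        rw [smul_add, smul_smul, mul_inv_cancel₀ ht.ne', one_smul]
      rw [this, norm_smul, Real.norm_eq_abs, abs_of_pos ht]
    have h1 : Tendsto (fun m => ‖v + t • Y k m‖ ^ 2) atTop (𝓝 (t ^ 2 * τ k (t⁻¹ • v) ^ 2)) := by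
      have := ((hτ k (t⁻¹ • v)).const_mul t).pow 2
      rw [mul_pow] at this
      exact this.congr fun m => by rw [hu]
    have h2 := tendsto_on hH (by positivity) (fun n => sq_nonneg _) h1
    have h4 : Tendsto (fun m => ∑ j, w j * τ j (v + t • Y k m) ^ p) atTop
        (𝓝 (∑ j, w j * F j k ^ p)) :=
      tendsto_finsetSum _ fun j _ => ((hF2 j k).pow p).const_mul (w j)
    refine le_of_tendsto' ((h2.sub h4).abs) fun m => ?_
    refine (hap _).trans ?_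
    have h6 : ‖v + t • Y k m‖ ≤ ‖v‖ + t := by
      refine (norm_add_le _ _).trans ?_
      rw [norm_smul, hY, mul_one, Real.norm_eq_abs, abs_of_pos ht]
    have h7 : 1 + ‖v + t • Y k m‖ ≤ 1 + ‖v‖ + t := by linarith
    gcongr
  have h1 := sum_avg w hw hw1 _ _ hA
  have h2 := sum_avg w hw hw1 _ _ hB
  have h3 : ∑ j, w j * ∑ k, w k * F j k ^ p = ∑ k, w k * ∑ j, w j * F j k ^ p := by
    simp only [Finset.mul_sum]
    rw [Finset.sum_comm]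
    refine Finset.sum_congr rfl fun k _ => Finset.sum_congr rfl fun j _ => ?_
    ring
  rw [h3] at h1
  rw [abs_sub_comm] at h2
  have h4 := abs_sub_le (∑ j, w j * (t ^ p * H (τ j v ^ 2 / t ^ 2)))
    (∑ k, w k * ∑ j, w j * F j k ^ p) (∑ j, w j * H (t ^ 2 * τ j (t⁻¹ • v) ^ 2))
  have h5 : δ * (t ^ p * (1 + (‖v‖ + 1) / t) ^ 4 + (1 + ‖v‖ + t) ^ 4) =
    δ * (t ^ p * (1 + (‖v‖ + 1) / t) ^ 4) + δ * (1 + ‖v‖ + t) ^ 4 := by ring
  rw [h5]
  linarith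

end

theorem t_FAM : S_FAM := by
  intro E _ _ _ hst he c C hc hcC hB h h4 hh hh4 hfam ρ t δ hρ ht hδ
  obtain ⟨e, he⟩ := he
  obtain ⟨v, hv⟩ : ∃ v : E, v = √ρ • e := ⟨_, rfl⟩
  have hvn : ‖v‖ = √ρ := by
    rw [hv, norm_smul, he, mul_one, Real.norm_eq_abs, abs_of_nonneg (Real.sqrt_nonneg _)]
  have hv2 : ‖v‖ ^ 2 = ρ := by rw [hvn, Real.sq_sqrt hρ]
  have hvt : ‖t⁻¹ • v‖ = t⁻¹ * ‖v‖ := by
    rw [norm_smul, norm_inv, Real.norm_eq_abs, abs_of_pos ht]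
  have hvt2 : ‖t⁻¹ • v‖ ^ 2 = ρ / t ^ 2 := by
    rw [hvt, mul_pow, hv2]
    field_simp
  set M1 : ℝ := (1 + ‖v‖) ^ 4 with hM1
  set M2 : ℝ := (1 + ‖t⁻¹ • v‖) ^ 4 with hM2
  set M3 : ℝ := (1 + (‖v‖ + 1) / t) ^ 4 with hM3
  set M4 : ℝ := (1 + ‖v‖ + t) ^ 4 with hM4
  have p1 : 0 < M1 := by positivity
  have p2 : 0 < M2 := by positivity
  have p3 : 0 < M3 := by positivity
  have p4 : 0 < M4 := by positivity
  set M : ℝ := M1 + (t ^ 2 + t ^ 4) * M2 + (t ^ 2 + t ^ 4) * M3 + M4 with hM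
  have hM0 : 0 < M := by positivity
  have q1 : M1 ≤ M := by
    have : 0 ≤ (t ^ 2 + t ^ 4) * M2 + (t ^ 2 + t ^ 4) * M3 + M4 := by positivity
    linarith
  have q2 : t ^ 2 * M2 ≤ M := by
    have : 0 ≤ M1 + t ^ 4 * M2 + (t ^ 2 + t ^ 4) * M3 + M4 := by positivity
    rw [hM]
    linarith
  have q3 : t ^ 4 * M2 ≤ M := by
    have : 0 ≤ M1 + t ^ 2 * M2 + (t ^ 2 + t ^ 4) * M3 + M4 := by positivity
    rw [hM]
    linarith
  have q4 : t ^ 2 * M3 + M4 ≤ M := by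
    have : 0 ≤ M1 + (t ^ 2 + t ^ 4) * M2 + t ^ 4 * M3 := by positivity
    rw [hM]
    linarith
  have q5 : t ^ 4 * M3 + M4 ≤ M := by
    have : 0 ≤ M1 + (t ^ 2 + t ^ 4) * M2 + t ^ 2 * M3 := by positivity
    rw [hM]
    linarith
  set δ' : ℝ := δ / M with hδ'
  have hδ'0 : 0 < δ' := by positivity
  have hδM : δ' * M = δ := by
    rw [hδ']
    field_simp
  have hle : ∀ x : ℝ, x ≤ M → δ' * x ≤ δ := fun x hx => by
    rw [← hδM]
    exact mul_le_mul_of_nonneg_left hx hδ'0.le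
  obtain ⟨N, w, τ, hw, hw1, hτK, ha2, ha4⟩ := hfam δ' hδ'0
  choose Y hY hτ using fun j => t_KSEQ E (τ j) (hτK j)
  have hcom := fun j k => t_COM E hst (τ j) (τ k) (Y j) (Y k) (hY j) (hY k) (hτ j) (hτ k) v t ht
  choose F hF1 hF2 using hcom
  have hsc : ∀ j, (t * τ j (t⁻¹ • v)) ^ 2 = t ^ 2 * τ j (t⁻¹ • v) ^ 2 := fun j => by ring
  refine ⟨N, w, fun j => τ j v ^ 2, fun j => t ^ 2 * τ j (t⁻¹ • v) ^ 2, hw, hw1, fun j => ?_,
    fun j => ?_, fun h0 j => ?_, ?_, ?_, ?_, ?_, ?_, ?_⟩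
  · have := hB (τ j) (hτK j) v
    rwa [hv2] at this
  · have h1 := hB (τ j) (hτK j) (t⁻¹ • v)
    rw [hvt2] at h1
    have ht2 : 0 < t ^ 2 := by positivity
    have e1 : t ^ 2 * (ρ / t ^ 2 + c) = ρ + c * t ^ 2 := by field_simp
    have e2 : t ^ 2 * (ρ / t ^ 2 + C) = ρ + C * t ^ 2 := by field_simp
    constructor
    · rw [← e1]
      exact mul_le_mul_of_nonneg_left h1.1 ht2.le
    · rw [← e2]
      exact mul_le_mul_of_nonneg_left h1.2 ht2.le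
  · have hv0 : v = 0 := by rw [hv, h0, Real.sqrt_zero, zero_smul]
    simp only [hv0, smul_zero, KT_zero (hτK j)]
    constructor <;> ring
  · have := ha2 v
    rw [hv2, abs_sub_comm] at this
    exact this.trans (hle _ q1)
  · have := ha4 v
    rw [hv2, abs_sub_comm] at this
    refine le_trans (le_of_eq ?_) (this.trans (hle _ q1))
    congr 2
    refine Finset.sum_congr rfl fun j _ => ?_
    ring
  · have h1 := ha2 (t⁻¹ • v)
    rw [hvt2, abs_sub_comm] at h1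
    have e : ∑ j, w j * (t ^ 2 * τ j (t⁻¹ • v) ^ 2) - t ^ 2 * h (ρ / t ^ 2) =
        t ^ 2 * (∑ j, w j * τ j (t⁻¹ • v) ^ 2 - h (ρ / t ^ 2)) := by
      rw [mul_sub, Finset.mul_sum]
      congr 1
      refine Finset.sum_congr rfl fun j _ => ?_
      ring
    rw [e, abs_mul, abs_of_nonneg (by positivity : 0 ≤ t ^ 2)]
    refine (mul_le_mul_of_nonneg_left h1 (by positivity)).trans ?_
    have := hle _ q2
    linarith
  · have h1 := ha4 (t⁻¹ • v)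
    rw [hvt2, abs_sub_comm] at h1
    have e : ∑ j, w j * (t ^ 2 * τ j (t⁻¹ • v) ^ 2) ^ 2 - t ^ 4 * h4 (ρ / t ^ 2) =
        t ^ 4 * (∑ j, w j * τ j (t⁻¹ • v) ^ 4 - h4 (ρ / t ^ 2)) := by
      rw [mul_sub, Finset.mul_sum]
      congr 1
      refine Finset.sum_congr rfl fun j _ => ?_
      ring
    rw [e, abs_mul, abs_of_nonneg (by positivity : 0 ≤ t ^ 4)]
    refine (mul_le_mul_of_nonneg_left h1 (by positivity)).trans ?_
    have := hle _ q3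
    linarith
  · exact (fam_comm w hw hw1 τ Y hY hτ v ht F hF1 hF2 hh 2 hδ'0.le ha2).trans (hle _ q4)
  · exact (fam_comm w hw hw1 τ Y hY hτ v ht F hF1 hF2 hh4 4 hδ'0.le ha4).trans (hle _ q5)

end Pool.Agent.V5helper39.BM
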