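import Pool.Agent.V5helper39.BM.Kt

set_option autoImplicit false

/-! # From zero variance to a weakly null sequence -/

namespace Pool.Agent.V5helper39.BM

open Filter Topology Set

section

variable {E : Type} [NormedAddCommGroup E] [NormedSpace ℝ E]

/-- a type close to the orthogonal type at finitely many vectors -/
lemma exists_type (hfam : ∀ δ : ℝ, 0 < δ → ∃ (N : ℕ) (w : Fin N → ℝ) (τ : Fin N → E → ℝ),
      (∀ i, 0 ≤ w i) ∧ ∑ i, w i = 1 ∧ (∀ i, τ i ∈ KT E) ∧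
      (∀ v, |(1 + ‖v‖ ^ 2) - ∑ i, w i * τ i v ^ 2| ≤ δ * (1 + ‖v‖) ^ 4) ∧
      ∀ v, |(1 + ‖v‖ ^ 2) ^ 2 - ∑ i, w i * τ i v ^ 4| ≤ δ * (1 + ‖v‖) ^ 4)
    (s : Finset E) {ε : ℝ} (hε : 0 < ε) : ∃ τ ∈ KT E, ∀ v ∈ s, |τ v ^ 2 - (1 + ‖v‖ ^ 2)| ≤ ε := by
  set M : ℝ := ∑ v ∈ s, (1 + ‖v‖) ^ 4 * (1 + 2 * (1 + ‖v‖ ^ 2)) with hM
  have hM0 : 0 ≤ M := Finset.sum_nonneg fun v _ => by positivity
  obtain ⟨N, w, τ, hw, hw1, hτK, h2, h4⟩ := hfam (ε ^ 2 / (M + 1)) (by positivity)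
  set δ : ℝ := ε ^ 2 / (M + 1) with hδ
  have hδ0 : 0 < δ := by positivity
  set S : Fin N → ℝ := fun j => ∑ v ∈ s, (τ j v ^ 2 - (1 + ‖v‖ ^ 2)) ^ 2 with hS
  have hsum : ∑ j, w j * S j ≤ δ * M := by
    have e1 : ∑ j, w j * S j = ∑ v ∈ s, (∑ j, w j * τ j v ^ 4 -
        2 * (1 + ‖v‖ ^ 2) * ∑ j, w j * τ j v ^ 2 + (1 + ‖v‖ ^ 2) ^ 2 * ∑ j, w j) := by
      simp only [hS, Finset.mul_sum]
      rw [Finset.sum_comm]
      refine Finset.sum_congr rfl fun v _ => ?_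
      rw [← Finset.sum_sub_distrib, ← Finset.sum_add_distrib]
      refine Finset.sum_congr rfl fun j _ => ?_
      ring
    rw [e1, hM, Finset.mul_sum]
    refine Finset.sum_le_sum fun v _ => ?_
    rw [hw1, mul_one]
    have a1 := (abs_le.1 (h2 v))
    have a2 := (abs_le.1 (h4 v))
    have hp : 0 ≤ 1 + ‖v‖ ^ 2 := by positivity
    nlinarith [a1.1, a1.2, a2.1, a2.2]
  obtain ⟨j, hj⟩ : ∃ j, S j ≤ δ * M := by
    by_contra hcon
    push Not at hcon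
    have hN : (Finset.univ : Finset (Fin N)).Nonempty := by
      rw [Finset.univ_nonempty_iff]
      by_contra hE
      rw [not_nonempty_iff] at hE
      simp at hw1
    have h5 : ∑ j, w j * (δ * M) < ∑ j, w j * S j := by
      refine Finset.sum_lt_sum (fun j _ => mul_le_mul_of_nonneg_left (hcon j).le (hw j)) ?_
      by_contra hno
      push Not at hno
      have h6 : ∀ j, w j = 0 := by
        intro j
        by_contra hwj
        have hwj' : 0 < w j := lt_of_le_of_ne (hw j) (Ne.symm hwj)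
        have := hno j (Finset.mem_univ j)
        have := mul_lt_mul_of_pos_left (hcon j) hwj'
        linarith
      simp [h6] at hw1
    rw [← Finset.sum_mul, hw1, one_mul] at h5
    linarith
  refine ⟨τ j, hτK j, fun v hv => ?_⟩
  have h5 : (τ j v ^ 2 - (1 + ‖v‖ ^ 2)) ^ 2 ≤ S j :=
    Finset.single_le_sum (f := fun v => (τ j v ^ 2 - (1 + ‖v‖ ^ 2)) ^ 2)
      (fun v _ => sq_nonneg _) hv
  have h6 : δ * M ≤ ε ^ 2 := by
    rw [hδ, div_mul_eq_mul_div, div_le_iff₀ (by positivity)]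
    nlinarith [sq_nonneg ε]
  exact abs_le_of_sq_le_sq' (by linarith) hε.le |> abs_le.2

/-- a unit vector close to the orthogonal type -/
lemma exists_vec (hfam : ∀ δ : ℝ, 0 < δ → ∃ (N : ℕ) (w : Fin N → ℝ) (τ : Fin N → E → ℝ),
      (∀ i, 0 ≤ w i) ∧ ∑ i, w i = 1 ∧ (∀ i, τ i ∈ KT E) ∧
      (∀ v, |(1 + ‖v‖ ^ 2) - ∑ i, w i * τ i v ^ 2| ≤ δ * (1 + ‖v‖) ^ 4) ∧
      ∀ v, |(1 + ‖v‖ ^ 2) ^ 2 - ∑ i, w i * τ i v ^ 4| ≤ δ * (1 + ‖v‖) ^ 4)
    (s : Finset E) (p : Finset (StrongDual ℝ E)) {ε : ℝ} (hε : 0 < ε) : ∃ y : E, ‖y‖ = 1 ∧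
      (∀ v ∈ s, |‖v + y‖ ^ 2 - (1 + ‖v‖ ^ 2)| ≤ ε) ∧ ∀ φ ∈ p, |φ y| ≤ ε := by
  obtain ⟨τ, hτ, h1⟩ := exists_type hfam s (show 0 < ε / 4 by positivity)
  have hopen : IsOpen {σ : E → ℝ | ∀ v ∈ s, |σ v ^ 2 - (1 + ‖v‖ ^ 2)| < ε / 2} := by
    have : {σ : E → ℝ | ∀ v ∈ s, |σ v ^ 2 - (1 + ‖v‖ ^ 2)| < ε / 2} =
        ⋂ v ∈ s, {σ : E → ℝ | |σ v ^ 2 - (1 + ‖v‖ ^ 2)| < ε / 2} := by
      ext; simp
    rw [this]
    exact isOpen_biInter_finset fun i _ => isOpen_lt (by fun_prop) continuous_const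
  obtain ⟨σ, hσ, y, hy, hw, hlim⟩ := mem_closure_iff.1 hτ _ hopen (fun v hv => by
    have := h1 v hv
    linarith)
  have h2 : ∀ᶠ n in atTop, ∀ v ∈ s, |‖v + y n‖ ^ 2 - (1 + ‖v‖ ^ 2)| ≤ ε := by
    rw [Finset.eventually_all]
    intro v hv
    have h3 : Tendsto (fun n => |‖v + y n‖ ^ 2 - (1 + ‖v‖ ^ 2)|) atTop
        (𝓝 |σ v ^ 2 - (1 + ‖v‖ ^ 2)|) := (((hlim v).pow 2).sub_const _).abs
    have h4 : |σ v ^ 2 - (1 + ‖v‖ ^ 2)| < ε := by
      have := hσ v hv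
      linarith
    filter_upwards [h3.eventually (gt_mem_nhds h4)] with n hn
    exact hn.le
  have h3 : ∀ᶠ n in atTop, ∀ φ ∈ p, |φ (y n)| ≤ ε := by
    rw [Finset.eventually_all]
    intro φ _
    have h4 : Tendsto (fun n => |φ (y n)|) atTop (𝓝 0) := by
      have := (hw φ).abs
      rwa [abs_zero] at this
    filter_upwards [h4.eventually (gt_mem_nhds hε)] with n hn
    exact hn.le
  obtain ⟨n, hn1, hn2⟩ := (h2.and h3).exists
  exact ⟨y n, hy n, hn1, hn2⟩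

end

theorem t_FIN : S_FIN := by
  intro E _ _ _ H _ _ _ hΦ hfam
  obtain ⟨Φ⟩ := hΦ
  classical
  obtain ⟨D, hD⟩ := TopologicalSpace.exists_dense_seq E
  let G : ℕ → StrongDual ℝ E := fun k =>
    (InnerProductSpace.toDual ℝ H (Φ (D k))).comp (Φ : E →L[ℝ] H)
  have hG : ∀ k x, G k x = inner ℝ (Φ (D k)) (Φ x) := fun k x => rfl
  have hex : ∀ m : ℕ, ∃ y : E, ‖y‖ = 1 ∧
      (∀ i ≤ m, |‖D i + y‖ ^ 2 - (1 + ‖D i‖ ^ 2)| ≤ 1 / ((m : ℝ) + 1)) ∧
      ∀ i ≤ m, |G i y| ≤ 1 / ((m : ℝ) + 1) := by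
    intro m
    obtain ⟨y, hy, h1, h2⟩ := exists_vec hfam ((Finset.range (m + 1)).image D)
      ((Finset.range (m + 1)).image G) (show 0 < 1 / ((m : ℝ) + 1) by positivity)
    exact ⟨y, hy, fun i hi => h1 _ (Finset.mem_image_of_mem D (Finset.mem_range.2 (by omega))),
      fun i hi => h2 _ (Finset.mem_image_of_mem G (Finset.mem_range.2 (by omega)))⟩
  choose y hy hyD hyG using hex
  have hone : Tendsto (fun m : ℕ => 1 / ((m : ℝ) + 1)) atTop (𝓝 0) :=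
    tendsto_one_div_add_atTop_nhds_zero_nat
  -- weakly null
  have hw : ∀ φ : StrongDual ℝ E, Tendsto (fun n => φ (y n)) atTop (𝓝 0) := by
    intro φ
    set a : H := (InnerProductSpace.toDual ℝ H).symm (φ.comp (Φ.symm : H →L[ℝ] E)) with ha
    have h1 : ∀ x : E, φ x = inner ℝ a (Φ x) := by
      intro x
      rw [ha, InnerProductSpace.toDual_symm_apply]
      show φ x = φ (Φ.symm (Φ x))
      rw [Φ.symm_apply_apply]
    rw [Metric.tendsto_atTop]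
    intro ε hε
    set L : ℝ := ‖(Φ : E →L[ℝ] H)‖ + 1 with hL
    have hL0 : 0 < L := by positivity
    obtain ⟨_, ⟨i, rfl⟩, hi⟩ := Metric.mem_closure_iff.1 (hD (Φ.symm a)) (ε / (2 * L * L))
      (by positivity)
    rw [dist_eq_norm] at hi
    have h2 : ‖a - Φ (D i)‖ ≤ L * (ε / (2 * L * L)) := by
      have e1 : a - Φ (D i) = Φ (Φ.symm a - D i) := by rw [map_sub, Φ.apply_symm_apply]
      rw [e1]
      have e2 := (Φ : E →L[ℝ] H).le_opNorm (Φ.symm a - D i)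
      have e3 : (Φ : E →L[ℝ] H) (Φ.symm a - D i) = Φ (Φ.symm a - D i) := rfl
      rw [e3] at e2
      refine e2.trans ?_
      gcongr
      rw [hL]
      linarith
    obtain ⟨N, hN⟩ := exists_nat_one_div_lt (show (0 : ℝ) < ε / 2 by positivity)
    refine ⟨max N i, fun m hm => ?_⟩
    rw [Real.dist_eq, sub_zero, h1]
    have h3 : inner ℝ a (Φ (y m)) = inner ℝ (a - Φ (D i)) (Φ (y m)) + G i (y m) := by
      rw [hG, inner_sub_left]
      ring
    rw [h3]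
    have h4 := hyG m i ((le_max_right _ _).trans hm)
    have h5 : 1 / ((m : ℝ) + 1) ≤ 1 / ((N : ℝ) + 1) := by
      apply one_div_le_one_div_of_le (by positivity)
      have : (N : ℝ) ≤ m := by exact_mod_cast (le_max_left _ _).trans hm
      linarith
    have h6 : |inner ℝ (a - Φ (D i)) (Φ (y m))| ≤ ε / 2 := by
      refine (abs_real_inner_le_norm _ _).trans ?_
      have e2 := (Φ : E →L[ℝ] H).le_opNorm (y m)
      rw [hy, mul_one] at e2
      have e3 : ‖Φ (y m)‖ ≤ L := by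
        refine le_trans e2 ?_
        rw [hL]
        linarith
      calc ‖a - Φ (D i)‖ * ‖Φ (y m)‖ ≤ L * (ε / (2 * L * L)) * L := by gcongr
        _ = ε / 2 := by field_simp
    refine (abs_add_le _ _).trans_lt ?_
    linarith
  -- the limits
  have h1 : ∀ v, Tendsto (fun n => ‖v + y n‖ ^ 2) atTop (𝓝 (1 + ‖v‖ ^ 2)) := by
    intro v
    rw [Metric.tendsto_atTop]
    intro ε hε
    set B : ℝ := 2 * ‖v‖ + 3 with hB
    have hB0 : 0 < B := by positivity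
    obtain ⟨_, ⟨i, rfl⟩, hi⟩ := Metric.mem_closure_iff.1 (hD v) (min 1 (ε / (3 * B)))
      (by positivity)
    rw [dist_eq_norm] at hi
    have hi1 : ‖v - D i‖ ≤ 1 := hi.le.trans (min_le_left _ _)
    have hi2 : ‖v - D i‖ ≤ ε / (3 * B) := hi.le.trans (min_le_right _ _)
    have hDi : ‖D i‖ ≤ ‖v‖ + 1 := by
      have : D i = v - (v - D i) := by abel
      rw [this]
      refine (norm_sub_le _ _).trans ?_
      linarith
    obtain ⟨N, hN⟩ := exists_nat_one_div_lt (show (0 : ℝ) < ε / 3 by positivity)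
    refine ⟨max N i, fun m hm => ?_⟩
    rw [Real.dist_eq]
    have h4 := hyD m i ((le_max_right _ _).trans hm)
    have h5 : 1 / ((m : ℝ) + 1) ≤ 1 / ((N : ℝ) + 1) := by
      apply one_div_le_one_div_of_le (by positivity)
      have : (N : ℝ) ≤ m := by exact_mod_cast (le_max_left _ _).trans hm
      linarith
    have hsq : ∀ p q r : ℝ, 0 ≤ p → 0 ≤ q → |p - q| ≤ r → p + q ≤ B → |p ^ 2 - q ^ 2| ≤ r * B := by
      intro p q r hp hq h hpq
      have : p ^ 2 - q ^ 2 = (p - q) * (p + q) := by ring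
      rw [this, abs_mul, abs_of_nonneg (by positivity : 0 ≤ p + q)]
      exact mul_le_mul h hpq (by positivity) ((abs_nonneg _).trans h)
    have hm0 : ‖D i‖ ≥ 0 := norm_nonneg _
    have k1 : |‖v + y m‖ ^ 2 - ‖D i + y m‖ ^ 2| ≤ ε / (3 * B) * B := by
      have e1 := abs_norm_sub_norm_le (v + y m) (D i + y m)
      rw [add_sub_add_right_eq_sub] at e1
      refine hsq _ _ _ (norm_nonneg _) (norm_nonneg _) (e1.trans hi2) ?_
      have e2 := norm_add_le v (y m)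
      have e3 := norm_add_le (D i) (y m)
      rw [hy] at e2 e3
      rw [hB]
      linarith
    have k2 : |‖D i‖ ^ 2 - ‖v‖ ^ 2| ≤ ε / (3 * B) * B := by
      have e1 := abs_norm_sub_norm_le (D i) v
      rw [norm_sub_rev] at e1
      refine hsq _ _ _ (norm_nonneg _) (norm_nonneg _) (e1.trans hi2) ?_
      rw [hB]
      linarith
    have k3 : ε / (3 * B) * B = ε / 3 := by field_simp
    rw [k3] at k1 k2
    rw [abs_lt]
    rw [abs_le] at k1 k2 h4
    constructor <;> linarith [k1.1, k1.2, k2.1, k2.2, h4.1, h4.2]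
  refine ⟨y, hy, hw, fun v t => ?_⟩
  by_cases ht : t = 0
  · rw [ht]
    simp
  · have h2 := (h1 (t⁻¹ • v)).const_mul (t ^ 2)
    have e1 : t ^ 2 * (1 + ‖t⁻¹ • v‖ ^ 2) = ‖v‖ ^ 2 + t ^ 2 := by
      rw [norm_smul, norm_inv, Real.norm_eq_abs, mul_pow, inv_pow, sq_abs]
      field_simp
      ring
    rw [e1] at h2
    refine h2.congr fun n => ?_
    have e2 : v + t • y n = t • (t⁻¹ • v + y n) := by
      rw [smul_add, smul_smul, mul_inv_cancel₀ ht, one_smul]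
    rw [e2, norm_smul, mul_pow, Real.norm_eq_abs, sq_abs]

end Pool.Agent.V5helper39.BM
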