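import Pool.Agent.V5helper39.BM.Fix

set_option autoImplicit false

/-! # Separability of the squares and fourth powers of the types -/

namespace Pool.Agent.V5helper39.BM

open Filter Topology Set

section

variable {E : Type} [NormedAddCommGroup E] [NormedSpace ℝ E]

/-- rescaled types -/
lemma KT_scale {τ : E → ℝ} (hτ : τ ∈ KT E) {R : ℝ} (hR : 1 ≤ R) :
    (fun u => R⁻¹ * τ (R • u)) ∈ Typ E := by
  have hR0 : 0 < R := by linarith
  refine KT_sub (S := {τ : E → ℝ | (fun u => R⁻¹ * τ (R • u)) ∈ Typ E}) ?_ ?_ hτ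
  · refine isClosed_closure.preimage (f := fun (τ : E → ℝ) (u : E) => R⁻¹ * τ (R • u)) ?_
    fun_prop
  · rintro τ ⟨y, hy, -, h⟩
    refine mem_closure_of_tendsto (f := fun (n : ℕ) (u : E) => ‖u + R⁻¹ • y n‖) (b := atTop) ?_
      (Eventually.of_forall fun n => ⟨R⁻¹ • y n, ?_, rfl⟩)
    · refine tendsto_pi_nhds.2 fun u => ?_
      refine ((h (R • u)).const_mul R⁻¹).congr fun n => ?_
      have : u + R⁻¹ • y n = R⁻¹ • (R • u + y n) := by
        rw [smul_add, smul_smul, inv_mul_cancel₀ hR0.ne', one_smul]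
      rw [this, norm_smul, norm_inv, Real.norm_eq_abs, abs_of_pos hR0]
    · rw [norm_smul, hy, mul_one, norm_inv, Real.norm_eq_abs, abs_of_pos hR0]
      exact inv_le_one_of_one_le₀ hR

lemma pow_diff {a b m r : ℝ} (ha : 0 ≤ a) (hb : 0 ≤ b) (ham : a ≤ m) (hbm : b ≤ m) (h : |a - b| ≤ r) :
    |a ^ 2 - b ^ 2| ≤ r * (2 * m) ∧ |a ^ 4 - b ^ 4| ≤ r * (4 * m ^ 3) := by
  have hm : 0 ≤ m := ha.trans ham
  have hr : 0 ≤ r := (abs_nonneg _).trans h
  have h1 : |a ^ 2 - b ^ 2| ≤ r * (2 * m) := by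
    have : a ^ 2 - b ^ 2 = (a - b) * (a + b) := by ring
    rw [this, abs_mul, abs_of_nonneg (by positivity : 0 ≤ a + b)]
    exact mul_le_mul h (by linarith) (by positivity) hr
  refine ⟨h1, ?_⟩
  have : a ^ 4 - b ^ 4 = (a ^ 2 - b ^ 2) * (a ^ 2 + b ^ 2) := by ring
  rw [this, abs_mul, abs_of_nonneg (by positivity : 0 ≤ a ^ 2 + b ^ 2)]
  have h2 : a ^ 2 + b ^ 2 ≤ 2 * m ^ 2 := by
    have e1 : a ^ 2 ≤ m ^ 2 := by gcongr
    have e2 : b ^ 2 ≤ m ^ 2 := by gcongr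
    linarith
  calc |a ^ 2 - b ^ 2| * (a ^ 2 + b ^ 2) ≤ r * (2 * m) * (2 * m ^ 2) :=
        mul_le_mul h1 h2 (by positivity) (by positivity)
    _ = r * (4 * m ^ 3) := by ring

lemma clamp {a b m r : ℝ} (ha : 0 ≤ a) (ham : a ≤ m) (h : |a - b| ≤ r) :
    |a - max 0 (min b m)| ≤ r := by
  rw [abs_le] at h ⊢
  rcases le_total b m with h1 | h1
  · rw [min_eq_left h1]
    rcases le_total 0 b with h2 | h2
    · rw [max_eq_right h2]; exact h
    · rw [max_eq_left h2]; constructor <;> linarith [h.1, h.2]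
  · rw [min_eq_right h1, max_eq_right (ha.trans ham)]
    constructor <;> linarith [h.1, h.2]

end

theorem t_KSEP : S_KSEP := by
  intro E _ _ hS δ hδ
  set R : ℝ := max 1 (4 / δ) with hR
  have hR1 : 1 ≤ R := le_max_left _ _
  have hR2 : 4 / δ ≤ R := le_max_right _ _
  have hR0 : 0 < R := by linarith
  obtain ⟨c, hc⟩ := hS (δ / (4 * R)) (by positivity)
  set b : ℕ → E → ℝ := fun n v => max 0 (min (R * c n (R⁻¹ • v)) (1 + ‖v‖)) with hb
  refine ⟨fun n z => if ‖z.1‖ ≤ R then q24 (b n) z else q24 (fun v => ‖v‖) z, ?_⟩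
  rintro _ ⟨τ, hτ, rfl⟩
  obtain ⟨n, hn⟩ := hc _ (KT_scale hτ hR1)
  refine ⟨n, fun z => ?_⟩
  obtain ⟨v, l⟩ := z
  have hv := norm_nonneg v
  have t0 := KT_nonneg hτ v
  have t1 := KT_le hτ v
  have hone : (1 : ℝ) ≤ 1 + ‖v‖ := by linarith
  have m13 : 2 * (1 + ‖v‖) ≤ 4 * (1 + ‖v‖) ^ 3 := by
    have : (1 + ‖v‖) ^ 1 ≤ (1 + ‖v‖) ^ 3 := pow_le_pow_right₀ hone (by norm_num)
    rw [pow_one] at this
    nlinarith
  by_cases hvR : ‖v‖ ≤ R
  · simp only [hvR, if_true]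
    have h1 : |τ v - b n v| ≤ δ / 4 := by
      refine clamp t0 t1 ?_
      have h2 := hn (R⁻¹ • v) (by
        rw [norm_smul, norm_inv, Real.norm_eq_abs, abs_of_pos hR0, inv_mul_le_iff₀ hR0, mul_one]
        exact hvR)
      simp only [smul_smul, mul_inv_cancel₀ hR0.ne', one_smul] at h2
      have h3 : τ v - R * c n (R⁻¹ • v) = R * (R⁻¹ * τ v - c n (R⁻¹ • v)) := by
        field_simp
      rw [h3, abs_mul, abs_of_pos hR0]
      calc R * |R⁻¹ * τ v - c n (R⁻¹ • v)| ≤ R * (δ / (4 * R)) :=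
            mul_le_mul_of_nonneg_left h2 hR0.le
        _ = δ / 4 := by field_simp
    have hb0 : 0 ≤ b n v := le_max_left _ _
    have hb1 : b n v ≤ 1 + ‖v‖ := max_le (by linarith) (min_le_right _ _)
    obtain ⟨k1, k2⟩ := pow_diff t0 hb0 t1 hb1 h1
    have hom : om4 E (v, l) = (1 + ‖v‖) ^ 4 := rfl
    have m34 : (1 + ‖v‖) ^ 3 ≤ (1 + ‖v‖) ^ 4 := pow_le_pow_right₀ hone (by norm_num)
    rw [hom]
    cases l
    · rw [q24_false, q24_false]
      nlinarith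
    · rw [q24_true, q24_true]
      nlinarith
  · simp only [hvR, if_false]
    push Not at hvR
    have h1 : |τ v - ‖v‖| ≤ 1 := KT_range hτ v
    obtain ⟨k1, k2⟩ := pow_diff (b := ‖v‖) t0 hv t1 (by linarith) h1
    have h3 : 4 ≤ δ * (1 + ‖v‖) := by
      have h4 : 4 / δ ≤ 1 + ‖v‖ := by linarith
      rw [div_le_iff₀ hδ] at h4
      linarith
    have h5 : 4 * (1 + ‖v‖) ^ 3 ≤ δ * (1 + ‖v‖) ^ 4 := by
      calc 4 * (1 + ‖v‖) ^ 3 ≤ δ * (1 + ‖v‖) * (1 + ‖v‖) ^ 3 :=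
            mul_le_mul_of_nonneg_right h3 (by positivity)
        _ = δ * (1 + ‖v‖) ^ 4 := by ring
    have hom : om4 E (v, l) = (1 + ‖v‖) ^ 4 := rfl
    rw [hom]
    cases l
    · rw [q24_false, q24_false]
      linarith
    · rw [q24_true, q24_true]
      linarith

end Pool.Agent.V5helper39.BM
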