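import Pool.Agent.V5helper39.BM.Fix
import Pool.Agent.V5helper39.BM.Apx
import Pool.Agent.V5helper39.BM.Ksep
import Pool.Agent.V5helper39.BM.Fami
import Pool.Agent.V5helper39.BM.Ode
import Pool.Agent.V5helper39.BM.Fin
import Pool.Agent.V5helper21.BM.STA
import Pool.Agent.N314.OP.Wsc

set_option autoImplicit false

/-! # Assembly: orthogonal sequences in stable Hilbertian transitive spaces -/

namespace Pool.Agent.V5helper39.BM

open Filter Topology Set TopologicalSpace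
open Pool.Agent.V5helper21.BM

section

variable {E : Type} [NormedAddCommGroup E] [NormedSpace ℝ E]

/-- subsequences with a type -/
lemma exists_typ_sub [SeparableSpace E] {y : ℕ → E} (hy : ∀ n, ‖y n‖ = 1) :
    ∃ (ψ : ℕ → ℕ) (τ : E → ℝ), StrictMono ψ ∧
      ∀ x, Tendsto (fun n => ‖x + y (ψ n)‖) atTop (𝓝 (τ x)) := by
  obtain ⟨D, hD⟩ := exists_dense_seq E
  have hcpt : IsCompact (Set.pi Set.univ fun k : ℕ => Set.Icc (0 : ℝ) (‖D k‖ + 1)) :=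
    isCompact_univ_pi fun k => isCompact_Icc
  obtain ⟨l, -, ψ, hψ, hl⟩ := hcpt.tendsto_subseq (x := fun n k => ‖D k + y n‖) (fun n k _ =>
    ⟨norm_nonneg _, by have := norm_add_le (D k) (y n); rwa [hy] at this⟩)
  have hl' : ∀ k, Tendsto (fun n => ‖D k + y (ψ n)‖) atTop (𝓝 (l k)) := tendsto_pi_nhds.1 hl
  have hex : ∀ x : E, ∃ t : ℝ, Tendsto (fun n => ‖x + y (ψ n)‖) atTop (𝓝 t) := by
    intro x
    refine cauchySeq_tendsto_of_complete (Metric.cauchySeq_iff'.2 fun ε hε => ?_)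
    obtain ⟨_, ⟨k, rfl⟩, hk⟩ := Metric.mem_closure_iff.1 (hD x) (ε / 3) (by positivity)
    rw [dist_eq_norm] at hk
    obtain ⟨N, hN⟩ := Metric.cauchySeq_iff'.1 (hl' k).cauchySeq (ε / 3) (by positivity)
    refine ⟨N, fun n hn => ?_⟩
    have h1 := hN n hn
    rw [Real.dist_eq] at h1 ⊢
    have h2 : ∀ m, |‖x + y (ψ m)‖ - ‖D k + y (ψ m)‖| ≤ ‖x - D k‖ := fun m => by
      have := abs_norm_sub_norm_le (x + y (ψ m)) (D k + y (ψ m))
      rwa [add_sub_add_right_eq_sub] at this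
    have h3 := abs_le.1 (h2 n)
    have h4 := abs_le.1 (h2 N)
    rw [abs_lt] at h1 ⊢
    constructor <;> linarith [h3.1, h3.2, h4.1, h4.2, h1.1, h1.2]
  choose τ hτ using hex
  exact ⟨ψ, τ, hψ, hτ⟩

lemma WT_nonempty_of_wsc [SeparableSpace E] (hinf : ¬ FiniteDimensional ℝ E)
    (hW : Pool.Agent.N314.OP.WSC E) : (WT E).Nonempty := by
  obtain ⟨y, hy0, hy1⟩ := Pool.Agent.N314.OP.exists_null hinf hW
  obtain ⟨ψ, τ, hψ, hτ⟩ := exists_typ_sub hy1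
  exact ⟨τ, fun n => y (ψ n), fun n => hy1 _, fun φ => (hy0 φ).comp hψ.tendsto_atTop, hτ⟩

end

/-- orthogonal sequences -/
theorem stable_orthogonal (E : Type) [NormedAddCommGroup E] [NormedSpace ℝ E]
    [SeparableSpace E] (H : Type) [NormedAddCommGroup H] [InnerProductSpace ℝ H]
    [CompleteSpace H] (Φ : E ≃L[ℝ] H) (hinf : ¬ FiniteDimensional ℝ E) (hT : Tr E)
    (hst : Stable E) :
    ∃ y : ℕ → E, (∀ n, ‖y n‖ = 1) ∧
      (∀ φ : StrongDual ℝ E, Tendsto (fun n => φ (y n)) atTop (𝓝 0)) ∧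
      ∀ v (t : ℝ), Tendsto (fun n => ‖v + t • y n‖ ^ 2) atTop (𝓝 (‖v‖ ^ 2 + t ^ 2)) := by
  have hW := Pool.Agent.N314.OP.wsc_of_uw (Pool.Agent.N314.OP.uw_of_reflexive
    (Pool.Agent.N314.OP.reflexive_of_hilbertian Φ)) Pool.Agent.N314.OP.sep_of_separable
  have hne := WT_nonempty_of_wsc hinf hW
  obtain ⟨h, h4, hh, hh4, hfam⟩ := t_FIX t_APX E hT hne (t_KSEP E (t_STA E hst))
  obtain ⟨c, C, hc, hcC, hB⟩ := t_KBD E H ⟨Φ⟩ hT
  have he : ∃ e : E, ‖e‖ = 1 := by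
    obtain ⟨τ, y, hy, -⟩ := hne
    exact ⟨y 0, hy 0⟩
  have hode := t_ODE h h4 c C hc hcC hh hh4
    (t_FAM E hst he c C hc hcC hB h h4 hh hh4 hfam)
  refine t_FIN E H ⟨Φ⟩ fun δ hδ => ?_
  obtain ⟨N, w, τ, hw, hw1, hτ, h2, h4'⟩ := hfam δ hδ
  refine ⟨N, w, τ, hw, hw1, hτ, fun v => ?_, fun v => ?_⟩
  · have := h2 v
    rwa [(hode (‖v‖ ^ 2) (sq_nonneg _)).1] at this
  · have := h4' v
    rwa [(hode (‖v‖ ^ 2) (sq_nonneg _)).2] at this

end Pool.Agent.V5helper39.BM
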