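import Mathlib

set_option autoImplicit false

/-! # Homogeneous associative operations on the half line -/

namespace Pool.Agent.V5helper39.BM

open Filter Topology Set

section

variable {F : ℝ → ℝ}

/-- the hypotheses -/
structure BH (F : ℝ → ℝ) : Prop where
  lip : ∀ a b, 0 ≤ a → 0 ≤ b → |F a - F b| ≤ |a - b|
  zero : F 0 = 1
  mono : ∀ a b, 0 ≤ a → a ≤ b → F a ≤ F b
  ge : ∀ r, 0 ≤ r → r ≤ F r
  com : ∀ r t, 0 ≤ r → 0 < t → t * F (F r / t) = F (t * F (r / t))
  one : 1 < F 1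

/-- the operation -/
noncomputable def NN (F : ℝ → ℝ) (r s : ℝ) : ℝ := if s = 0 then r else s * F (r / s)

lemma NN_zero (r : ℝ) : NN F r 0 = r := by simp [NN]

lemma NN_pos (r : ℝ) {s : ℝ} (hs : s ≠ 0) : NN F r s = s * F (r / s) := by simp [NN, hs]

lemma NN_one (r : ℝ) : NN F r 1 = F r := by simp [NN]

lemma BH.zero_NN (h : BH F) (s : ℝ) : NN F 0 s = s := by
  by_cases hs : s = 0
  · rw [hs, NN_zero]
  · rw [NN_pos _ hs, zero_div, h.zero, mul_one]

lemma BH.F_one_le (h : BH F) {r : ℝ} (hr : 0 ≤ r) : 1 ≤ F r := by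
  rw [← h.zero]
  exact h.mono 0 r le_rfl hr

lemma BH.NN_nonneg (h : BH F) {r s : ℝ} (hr : 0 ≤ r) (hs : 0 ≤ s) : 0 ≤ NN F r s := by
  by_cases h0 : s = 0
  · rw [h0, NN_zero]; exact hr
  · rw [NN_pos _ h0]
    exact mul_nonneg hs (zero_le_one.trans (h.F_one_le (div_nonneg hr hs)))

lemma BH.hom (h : BH F) {l r s : ℝ} (hl : 0 ≤ l) : NN F (l * r) (l * s) = l * NN F r s := by
  rcases hl.eq_or_lt with h0 | h0
  · rw [← h0, zero_mul, zero_mul, zero_mul, h.zero_NN]
  · by_cases hs : s = 0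
    · rw [hs, mul_zero, NN_zero, NN_zero]
    · rw [NN_pos _ hs, NN_pos _ (mul_ne_zero h0.ne' hs), mul_div_mul_left _ _ h0.ne']
      ring

lemma BH.sym (h : BH F) {r s : ℝ} (hr : 0 ≤ r) (hs : 0 ≤ s) : NN F r s = NN F s r := by
  rcases hs.eq_or_lt with h0 | h0
  · rw [← h0, NN_zero, h.zero_NN]
  rcases hr.eq_or_lt with h1 | h1
  · rw [← h1, NN_zero, h.zero_NN]
  have h2 := h.com 0 (r / s) le_rfl (by positivity)
  rw [h.zero, zero_div, h.zero, mul_one] at h2
  rw [NN_pos _ h0.ne', NN_pos _ h1.ne', ← h2, one_div_div]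
  field_simp

lemma BH.swap (h : BH F) {r s t : ℝ} (hr : 0 ≤ r) (hs : 0 ≤ s) (ht : 0 ≤ t) :
    NN F (NN F r s) t = NN F (NN F r t) s := by
  rcases hs.eq_or_lt with h0 | h0
  · rw [← h0, NN_zero, NN_zero]
  rcases ht.eq_or_lt with h1 | h1
  · rw [← h1, NN_zero, NN_zero]
  have h2 := h.com (r / s) (t / s) (by positivity) (by positivity)
  rw [NN_pos _ h0.ne', NN_pos _ h1.ne', NN_pos _ h0.ne', NN_pos _ h1.ne']
  have e1 : F (r / s) / (t / s) = s * F (r / s) / t := by field_simp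
  have e2 : r / s / (t / s) = r / t := by field_simp
  rw [e1, e2] at h2
  have e3 : t / s * F (r / t) = t * F (r / t) / s := by ring
  rw [e3] at h2
  rw [← h2]
  field_simp

lemma BH.assoc (h : BH F) {r s t : ℝ} (hr : 0 ≤ r) (hs : 0 ≤ s) (ht : 0 ≤ t) :
    NN F (NN F r s) t = NN F r (NN F s t) := by
  rw [h.sym hr hs, h.swap hs hr ht, h.sym (h.NN_nonneg hs ht) hr]

/-- the norms of the sums of `n` independent unit vectors -/
noncomputable def lam (F : ℝ → ℝ) : ℕ → ℝ
  | 0 => 0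
  | n + 1 => NN F (lam F n) 1

lemma lam_zero : lam F 0 = 0 := rfl
lemma lam_succ (n : ℕ) : lam F (n + 1) = NN F (lam F n) 1 := rfl

lemma BH.lam_nonneg (h : BH F) (n : ℕ) : 0 ≤ lam F n := by
  induction n with
  | zero => exact le_rfl
  | succ n ih => rw [lam_succ]; exact h.NN_nonneg ih zero_le_one

lemma BH.lam_one (h : BH F) : lam F 1 = 1 := by
  rw [lam_succ, lam_zero, h.zero_NN]

lemma BH.lam_two (h : BH F) : lam F 2 = F 1 := by
  rw [lam_succ, h.lam_one, NN_one]

lemma BH.lam_add (h : BH F) (m n : ℕ) : NN F (lam F m) (lam F n) = lam F (m + n) := by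
  induction n with
  | zero => rw [lam_zero, NN_zero, add_zero]
  | succ n ih =>
    rw [lam_succ, ← h.assoc (h.lam_nonneg m) (h.lam_nonneg n) zero_le_one, ih, ← add_assoc,
      lam_succ]

lemma BH.lam_mul (h : BH F) (m n : ℕ) : lam F (m * n) = lam F m * lam F n := by
  induction n with
  | zero => rw [mul_zero, lam_zero, mul_zero]
  | succ n ih =>
    rw [mul_add, mul_one, ← h.lam_add, ih, lam_succ, ← h.hom (h.lam_nonneg m), mul_one]

lemma BH.lam_pow (h : BH F) (m k : ℕ) : lam F (m ^ k) = lam F m ^ k := by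
  induction k with
  | zero => rw [pow_zero, pow_zero, h.lam_one]
  | succ k ih => rw [pow_succ, h.lam_mul, ih, pow_succ]

lemma BH.lam_mono (h : BH F) : Monotone (lam F) := by
  refine monotone_nat_of_le_succ fun n => ?_
  rw [lam_succ, NN_one]
  exact h.ge _ (h.lam_nonneg n)

lemma BH.one_le_lam (h : BH F) {n : ℕ} (hn : 1 ≤ n) : 1 ≤ lam F n := by
  rw [← h.lam_one]
  exact h.lam_mono hn

/-- the exponent -/
noncomputable def alp (F : ℝ → ℝ) : ℝ := Real.log (F 1) / Real.log 2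

lemma BH.alp_pos (h : BH F) : 0 < alp F :=
  div_pos (Real.log_pos h.one) (Real.log_pos (by norm_num))

lemma BH.alp_le (h : BH F) : alp F ≤ 1 := by
  unfold alp
  rw [div_le_one (Real.log_pos (by norm_num))]
  have h1 := h.lip 1 0 zero_le_one le_rfl
  rw [h.zero, sub_zero, abs_one] at h1
  have h2 := (abs_le.1 h1).2
  exact Real.log_le_log (by linarith [h.one]) (by linarith)

lemma BH.lam_eq (h : BH F) {n : ℕ} (hn : 1 ≤ n) : lam F n = (n : ℝ) ^ alp F := by
  have hn0 : (0 : ℝ) < n := by exact_mod_cast hn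
  have hl0 : 0 < lam F n := lt_of_lt_of_le one_pos (h.one_le_lam hn)
  set L2 := Real.log (F 1) with hL2
  have hL2p : 0 < L2 := Real.log_pos h.one
  have hlog2 : 0 < Real.log 2 := Real.log_pos (by norm_num)
  have hα : alp F * Real.log 2 = L2 := by
    unfold alp
    rw [div_mul_cancel₀ _ hlog2.ne']
  set x := Real.log (lam F n) - alp F * Real.log n with hx
  have key : ∀ k : ℕ, |(k : ℝ) * x| ≤ L2 := by
    intro k
    have hnk : n ^ k ≠ 0 := by positivity
    set j := Nat.log 2 (n ^ k) with hj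
    have h1 : 2 ^ j ≤ n ^ k := Nat.pow_log_le_self 2 hnk
    have h2 : n ^ k < 2 ^ (j + 1) := Nat.lt_pow_succ_log_self (by norm_num) _
    have h3 := h.lam_mono h1
    have h4 := h.lam_mono h2.le
    rw [h.lam_pow, h.lam_pow, h.lam_two] at h3 h4
    have hF1 : 0 < F 1 := by linarith [h.one]
    have h5 := Real.log_le_log (by positivity) h3
    have h6 := Real.log_le_log (by positivity) h4
    rw [Real.log_pow, Real.log_pow] at h5 h6
    have h7 : ((2 : ℝ) ^ j) ≤ (n : ℝ) ^ k := by exact_mod_cast h1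
    have h8 : (n : ℝ) ^ k ≤ (2 : ℝ) ^ (j + 1) := by exact_mod_cast h2.le
    have h9 := Real.log_le_log (by positivity) h7
    have h10 := Real.log_le_log (by positivity) h8
    rw [Real.log_pow, Real.log_pow] at h9 h10
    push_cast at h5 h6 h9 h10
    have hαp := h.alp_pos
    have h11 := mul_le_mul_of_nonneg_left h9 hαp.le
    have h12 := mul_le_mul_of_nonneg_left h10 hαp.le
    rw [abs_le, hx]
    constructor <;> nlinarith
  have hx0 : x = 0 := by
    by_contra hne
    have hpos : 0 < |x| := abs_pos.2 hne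
    obtain ⟨k, hk⟩ := exists_nat_gt (L2 / |x|)
    rw [div_lt_iff₀ hpos] at hk
    have := key k
    rw [abs_mul, Nat.abs_cast] at this
    linarith
  have h1 : Real.log (lam F n) = Real.log ((n : ℝ) ^ alp F) := by
    rw [Real.log_rpow hn0]
    linarith
  exact Real.log_injOn_pos (Set.mem_Ioi.2 hl0) (Set.mem_Ioi.2 (by positivity)) h1

lemma BH.lam_eq' (h : BH F) (n : ℕ) : lam F n = (n : ℝ) ^ alp F := by
  rcases Nat.eq_zero_or_pos n with h0 | h0
  · rw [h0, lam_zero, Nat.cast_zero, Real.zero_rpow h.alp_pos.ne']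
  · exact h.lam_eq h0

lemma BH.rat (h : BH F) (a c : ℕ) (hc : 1 ≤ c) :
    F (((a : ℝ) / c) ^ alp F) = ((a : ℝ) / c + 1) ^ alp F := by
  have hc0 : (0 : ℝ) < c := by exact_mod_cast hc
  have h1 := h.lam_add a c
  rw [h.lam_eq', h.lam_eq', h.lam_eq'] at h1
  have h2 : (0 : ℝ) < (c : ℝ) ^ alp F := by positivity
  rw [NN_pos _ h2.ne', ← Real.div_rpow (by positivity) hc0.le] at h1
  have h3 : ((a : ℝ) / c + 1) ^ alp F = ((a + c : ℕ) : ℝ) ^ alp F / (c : ℝ) ^ alp F := by
    rw [← Real.div_rpow (by positivity) hc0.le]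
    congr 1
    push_cast
    field_simp
  rw [h3, ← h1]
  field_simp

lemma BH.real (h : BH F) (x : ℝ) : F (|x| ^ alp F) = (|x| + 1) ^ alp F := by
  have hα := h.alp_pos
  have hF : Continuous fun x => F |x| := by
    refine (LipschitzWith.of_dist_le_mul (K := 1) fun a b => ?_).continuous
    rw [Real.dist_eq, Real.dist_eq, NNReal.coe_one, one_mul]
    exact (h.lip _ _ (abs_nonneg _) (abs_nonneg _)).trans (abs_abs_sub_abs_le_abs_sub a b)
  have hc1 : Continuous fun x : ℝ => |x| ^ alp F :=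
    continuous_abs.rpow_const fun x => Or.inr hα.le
  have hg : Continuous fun x : ℝ => F (|x| ^ alp F) := by
    have h1 := hF.comp hc1
    refine h1.congr fun x => ?_
    simp only [Function.comp]
    rw [abs_of_nonneg (by positivity : (0 : ℝ) ≤ |x| ^ alp F)]
  have hh : Continuous fun x : ℝ => (|x| + 1) ^ alp F :=
    (continuous_abs.add_const 1).rpow_const fun x => Or.inr hα.le
  have key := Rat.denseRange_cast.equalizer hg hh (by
    funext q
    simp only [Function.comp]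
    have h1 : |(q : ℝ)| = (q.num.natAbs : ℝ) / q.den := by
      rw [Rat.cast_def, abs_div, Nat.abs_cast, Nat.cast_natAbs, Int.cast_abs]
    rw [h1]
    exact h.rat _ _ q.pos)
  exact congrFun key x

theorem boh (h : BH F) : ∃ p : ℝ, 1 ≤ p ∧ ∀ r, 0 ≤ r → F r = (1 + r ^ p) ^ (1 / p) := by
  have hα := h.alp_pos
  refine ⟨1 / alp F, ?_, fun r hr => ?_⟩
  · rw [le_div_iff₀ hα, one_mul]
    exact h.alp_le
  · have h1 := h.real (r ^ (1 / alp F))
    rw [abs_of_nonneg (by positivity), ← Real.rpow_mul hr, one_div_mul_cancel hα.ne',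
      Real.rpow_one] at h1
    rw [h1, one_div_one_div, add_comm]

end

end Pool.Agent.V5helper39.BM
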