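import Pool.Agent.V5helper39.BM.Taylor

set_option autoImplicit false

namespace Pool.Agent.V5helper39.BM

open Filter Topology Asymptotics Set

section

variable {E : Type} [NormedAddCommGroup E] [NormedSpace ℝ E] {f : E → E →L[ℝ] ℝ}
  {A : E → E →L[ℝ] E →L[ℝ] ℝ} {c C : ℝ}

/-- the expansion at a nonzero vector -/
lemma ue_scaled (hU : UE E f A) (ε : ℝ) (hε : 0 < ε) : ∃ δ : ℝ, 0 < δ ∧ ∀ z v : E, z ≠ 0 →
    ‖v‖ ≤ δ * ‖z‖ → |‖z + v‖ ^ 2 - ‖z‖ ^ 2 - 2 * ‖z‖ * f (‖z‖⁻¹ • z) v -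
      A (‖z‖⁻¹ • z) v v| ≤ ε * ‖v‖ ^ 2 := by
  obtain ⟨δ, hδ, hd⟩ := hU ε hε
  refine ⟨δ, hδ, ?_⟩
  intro z v hz hv
  have hn : 0 < ‖z‖ := norm_pos_iff.2 hz
  set u := ‖z‖⁻¹ • z with hu
  have hun : ‖u‖ = 1 := by
    rw [hu, norm_smul, norm_inv, norm_norm, inv_mul_cancel₀ hn.ne']
  have h1 := hd u hun (‖z‖⁻¹ • v) (by
    rw [norm_smul, norm_inv, norm_norm, inv_mul_le_iff₀ hn]
    linarith)
  have e1 : ‖z + v‖ = ‖z‖ * ‖u + ‖z‖⁻¹ • v‖ := by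
    rw [← norm_norm z, ← norm_smul, hu, smul_add, smul_smul, smul_smul, norm_norm,
      mul_inv_cancel₀ hn.ne', one_smul, one_smul]
  have e2 : ‖z + v‖ ^ 2 - ‖z‖ ^ 2 - 2 * ‖z‖ * f u v - A u v v =
      ‖z‖ ^ 2 * (‖u + ‖z‖⁻¹ • v‖ ^ 2 - 1 - 2 * f u (‖z‖⁻¹ • v) -
        A u (‖z‖⁻¹ • v) (‖z‖⁻¹ • v)) := by
    rw [e1]
    simp only [map_smul, ContinuousLinearMap.smul_apply, smul_eq_mul]
    field_simp
  rw [e2, abs_mul, abs_of_nonneg (sq_nonneg ‖z‖)]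
  calc ‖z‖ ^ 2 * |‖u + ‖z‖⁻¹ • v‖ ^ 2 - 1 - 2 * f u (‖z‖⁻¹ • v) -
        A u (‖z‖⁻¹ • v) (‖z‖⁻¹ • v)| ≤ ‖z‖ ^ 2 * (ε * ‖‖z‖⁻¹ • v‖ ^ 2) := by gcongr
    _ = ε * ‖v‖ ^ 2 := by
      rw [norm_smul, norm_inv, norm_norm]
      field_simp

/-- hypotheses on the sequence -/
structure Sq (f : E → E →L[ℝ] ℝ) (A : E → E →L[ℝ] E →L[ℝ] ℝ) (y : ℕ → E) (R : ℝ) : Prop where
  bd : ∀ n, ‖y n‖ ≤ R
  null : ∀ φ : StrongDual ℝ E, Tendsto (fun n => φ (y n)) atTop (𝓝 0)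
  one : ∀ x, ‖x‖ = 1 → Tendsto (fun n => A x (y n) (y n)) atTop (𝓝 1)

/-- one step -/
lemma step (hU : UE E f A) {y : ℕ → E} {R : ℝ} (hR : 0 < R) (hy : Sq f A y R) (r ε : ℝ)
    (hr : 0 < r) (hε : 0 < ε) : ∃ s₀ : ℝ, 0 < s₀ ∧ ∀ s : ℝ, 0 < s → s ≤ s₀ → ∀ X : Finset E,
      (∀ x ∈ X, r ≤ ‖x‖) → ∃ n, ∀ x ∈ X, |‖x + s • y n‖ ^ 2 - ‖x‖ ^ 2 - s ^ 2| ≤ ε * s ^ 2 := by
  obtain ⟨δ, hδ, hd⟩ := ue_scaled hU (ε / (3 * R ^ 2)) (by positivity)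
  refine ⟨δ * r / R, by positivity, ?_⟩
  intro s hs hs0 X hX
  have hev : ∀ᶠ n in atTop, ∀ x ∈ X, |2 * ‖x‖ * f (‖x‖⁻¹ • x) (s • y n)| ≤ ε / 3 * s ^ 2 ∧
      |A (‖x‖⁻¹ • x) (y n) (y n) - 1| ≤ ε / 3 := by
    rw [Filter.eventually_all_finset]
    intro x hx
    have hn : 0 < ‖x‖ := hr.trans_le (hX x hx)
    have h1 : Tendsto (fun n => 2 * ‖x‖ * f (‖x‖⁻¹ • x) (s • y n)) atTop (𝓝 0) := by
      have := ((hy.null (f (‖x‖⁻¹ • x))).const_mul s).const_mul (2 * ‖x‖)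
      simp only [mul_zero] at this
      refine this.congr fun n => ?_
      rw [map_smul, smul_eq_mul]
    have h2 := hy.one (‖x‖⁻¹ • x) (by
      rw [norm_smul, norm_inv, norm_norm, inv_mul_cancel₀ hn.ne'])
    have h3 := h1.abs
    rw [abs_zero] at h3
    have h4 := (h2.sub_const 1).abs
    rw [sub_self, abs_zero] at h4
    filter_upwards [h3.eventually (ge_mem_nhds (show (0 : ℝ) < ε / 3 * s ^ 2 by positivity)),
      h4.eventually (ge_mem_nhds (show (0 : ℝ) < ε / 3 by positivity))] with n a1 a2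
    exact ⟨a1, a2⟩
  obtain ⟨n, hn⟩ := hev.exists
  refine ⟨n, fun x hx => ?_⟩
  obtain ⟨a1, a2⟩ := hn x hx
  have hxr := hX x hx
  have hx0 : x ≠ 0 := norm_pos_iff.1 (hr.trans_le hxr)
  have hv : ‖s • y n‖ ≤ s * R := by
    rw [norm_smul, Real.norm_of_nonneg hs.le]
    exact mul_le_mul_of_nonneg_left (hy.bd n) hs.le
  have h1 := hd x (s • y n) hx0 (by
    refine hv.trans ?_
    have h2 : s * R ≤ δ * r / R * R := by gcongr
    rw [div_mul_cancel₀ _ hR.ne'] at h2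
    exact h2.trans (by gcongr))
  have h2 : ε / (3 * R ^ 2) * ‖s • y n‖ ^ 2 ≤ ε / 3 * s ^ 2 := by
    calc ε / (3 * R ^ 2) * ‖s • y n‖ ^ 2 ≤ ε / (3 * R ^ 2) * (s * R) ^ 2 := by gcongr
      _ = ε / 3 * s ^ 2 := by field_simp
  have h3 : A (‖x‖⁻¹ • x) (s • y n) (s • y n) = s ^ 2 * A (‖x‖⁻¹ • x) (y n) (y n) := by
    simp only [map_smul, ContinuousLinearMap.smul_apply, smul_eq_mul]
    ring
  rw [h3] at h1
  have h4 : ‖x + s • y n‖ ^ 2 - ‖x‖ ^ 2 - s ^ 2 =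
      (‖x + s • y n‖ ^ 2 - ‖x‖ ^ 2 - 2 * ‖x‖ * f (‖x‖⁻¹ • x) (s • y n) -
        s ^ 2 * A (‖x‖⁻¹ • x) (y n) (y n)) + 2 * ‖x‖ * f (‖x‖⁻¹ • x) (s • y n) +
      s ^ 2 * (A (‖x‖⁻¹ • x) (y n) (y n) - 1) := by ring
  rw [h4]
  refine (abs_add_three _ _ _).trans ?_
  rw [abs_mul (s ^ 2), abs_of_nonneg (sq_nonneg s)]
  have h5 : s ^ 2 * |A (‖x‖⁻¹ • x) (y n) (y n) - 1| ≤ s ^ 2 * (ε / 3) := by gcongr
  linarith [h1.trans h2]

/-- the sum of `k` steps -/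
lemma walk (hU : UE E f A) {y : ℕ → E} {R : ℝ} (hR : 0 < R) (hy : Sq f A y R) (X : Finset E)
    (r ε : ℝ) (hr : 0 < r) (hε : 0 < ε) (hε1 : ε ≤ 1) (hX : ∀ x ∈ X, r ≤ ‖x‖) :
    ∃ w : E, ∀ x ∈ X, |‖x + w‖ ^ 2 - ‖x‖ ^ 2 - 1| ≤ ε := by
  classical
  obtain ⟨s₀, hs₀, h⟩ := step hU hR hy r ε hr hε
  obtain ⟨k, hk⟩ := exists_nat_gt (1 / s₀ ^ 2)
  have hk0 : (0 : ℝ) < k := lt_trans (by positivity) hk
  set s : ℝ := √(1 / k) with hs
  have hs2 : s ^ 2 = 1 / k := Real.sq_sqrt (by positivity)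
  have hspos : 0 < s := Real.sqrt_pos.2 (by positivity)
  have hss : s ≤ s₀ := by
    apply Real.sqrt_le_iff.2
    refine ⟨hs₀.le, ?_⟩
    rw [div_lt_iff₀ (by positivity)] at hk
    rw [div_le_iff₀ hk0]
    linarith
  have key : ∀ i : ℕ, ∃ w : E, ∀ x ∈ X, |‖x + w‖ ^ 2 - ‖x‖ ^ 2 - i * s ^ 2| ≤ ε * (i * s ^ 2) := by
    intro i
    induction i with
    | zero => exact ⟨0, fun x _ => by simp⟩
    | succ i ih =>
      obtain ⟨w, hw⟩ := ih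
      obtain ⟨n, hn⟩ := h s hspos hss (X.image fun x => x + w) (by
        intro z hz
        obtain ⟨x, hx, rfl⟩ := Finset.mem_image.1 hz
        have h1 := (abs_le.1 (hw x hx)).1
        have h2 : 0 ≤ (i : ℝ) * s ^ 2 := by positivity
        have h3 : ‖x‖ ^ 2 ≤ ‖x + w‖ ^ 2 := by nlinarith
        have h4 : ‖x‖ ≤ ‖x + w‖ := by
          rwa [sq_le_sq₀ (norm_nonneg _) (norm_nonneg _)] at h3
        exact (hX x hx).trans h4)
      refine ⟨w + s • y n, fun x hx => ?_⟩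
      have h1 := hn (x + w) (Finset.mem_image_of_mem _ hx)
      have h2 := hw x hx
      rw [add_assoc] at h1
      have h3 : ‖x + (w + s • y n)‖ ^ 2 - ‖x‖ ^ 2 - ((i + 1 : ℕ) : ℝ) * s ^ 2 =
          (‖x + (w + s • y n)‖ ^ 2 - ‖x + w‖ ^ 2 - s ^ 2) +
          (‖x + w‖ ^ 2 - ‖x‖ ^ 2 - i * s ^ 2) := by push_cast; ring
      rw [h3]
      refine (abs_add_le _ _).trans ?_
      push_cast
      linarith
  obtain ⟨w, hw⟩ := key k
  refine ⟨w, fun x hx => ?_⟩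
  have h1 := hw x hx
  rw [hs2, mul_one_div_cancel hk0.ne', mul_one] at h1
  exact h1

/-- the same for all finite sets -/
lemma walk' (hU : UE E f A) {y : ℕ → E} {R : ℝ} (hR : 0 < R) (hy : Sq f A y R)
    (he : ∃ e : E, ‖e‖ = 1) (X : Finset E) (ε : ℝ) (hε : 0 < ε) :
    ∃ w : E, ∀ x ∈ X, |‖x + w‖ ^ 2 - ‖x‖ ^ 2 - 1| ≤ ε := by
  classical
  obtain ⟨e, he⟩ := he
  set η : ℝ := min (ε / 16) (1 / 2) with hη
  have hη0 : 0 < η := by positivity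
  have hη1 : η ≤ ε / 16 := min_le_left _ _
  have hη2 : η ≤ 1 / 2 := min_le_right _ _
  -- a lower bound of the norms
  obtain ⟨r, hr, hrX⟩ : ∃ r : ℝ, 0 < r ∧ ∀ x ∈ (X.filter (· ≠ 0)) ∪ {η • e}, r ≤ ‖x‖ := by
    set Y := (X.filter (· ≠ 0)) ∪ {η • e} with hY
    have hne : Y.Nonempty := ⟨η • e, by simp [hY]⟩
    obtain ⟨x₀, hx₀, hmin⟩ := Finset.exists_min_image Y (fun x => ‖x‖) hne
    refine ⟨‖x₀‖, ?_, hmin⟩
    rw [hY, Finset.mem_union] at hx₀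
    rcases hx₀ with h | h
    · exact norm_pos_iff.2 (Finset.mem_filter.1 h).2
    · rw [Finset.mem_singleton] at h
      rw [h, norm_smul, he, mul_one, Real.norm_of_nonneg hη0.le]
      exact hη0
  obtain ⟨w, hw⟩ := walk hU hR hy _ r (min (ε / 2) 1) hr (by positivity) (min_le_right _ _) hrX
  have hηe : ‖η • e‖ = η := by rw [norm_smul, he, mul_one, Real.norm_of_nonneg hη0.le]
  refine ⟨w, fun x hx => ?_⟩
  by_cases h0 : x = 0
  · have h1 := hw (η • e) (by simp)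
    rw [hηe] at h1
    rw [h0, zero_add, norm_zero]
    have h2 : |‖η • e + w‖ - ‖w‖| ≤ η := by
      have := abs_norm_sub_norm_le (η • e + w) w
      rwa [add_sub_cancel_right, hηe] at this
    have h3 := abs_le.1 h2
    have h4 := abs_le.1 h1
    have hm1 : min (ε / 2) 1 ≤ 1 := min_le_right _ _
    have hm2 : min (ε / 2) 1 ≤ ε / 2 := min_le_left _ _
    have hn1 := norm_nonneg (η • e + w)
    have hn2 := norm_nonneg w
    have h5 : ‖η • e + w‖ ≤ 2 := by nlinarith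
    have h6 : ‖w‖ ≤ 3 := by linarith
    have h7 : |‖w‖ ^ 2 - ‖η • e + w‖ ^ 2| ≤ 5 * η := by
      have e1 : ‖w‖ ^ 2 - ‖η • e + w‖ ^ 2 = -((‖η • e + w‖ - ‖w‖) * (‖η • e + w‖ + ‖w‖)) := by
        ring
      rw [e1, abs_neg, abs_mul, abs_of_nonneg (by positivity : 0 ≤ ‖η • e + w‖ + ‖w‖)]
      calc |‖η • e + w‖ - ‖w‖| * (‖η • e + w‖ + ‖w‖) ≤ η * 5 := by
            gcongr
            linarith
        _ = 5 * η := by ring
    have h8 := abs_le.1 h7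
    have h9 : η ^ 2 ≤ η := by nlinarith
    rw [abs_le]
    constructor <;> nlinarith
  · have h1 := hw x (by simp [hx, h0])
    exact h1.trans ((min_le_left _ _).trans (by linarith))

/-- unit vectors with almost Euclidean Hessian -/
lemma exists_hess (hU : UE E f A) {y : ℕ → E} {R : ℝ} (hR : 0 < R) (hy : Sq f A y R)
    (he : ∃ e : E, ‖e‖ = 1) (X : Finset E) (ε : ℝ) (hε : 0 < ε) :
    ∃ u : E, ‖u‖ = 1 ∧ ∀ x ∈ X, |‖x‖ ^ 2 - A u x x| ≤ ε := by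
  classical
  -- bound of the norms
  obtain ⟨K, hK0, hK⟩ : ∃ K : ℝ, 0 < K ∧ ∀ x ∈ X, ‖x‖ ≤ K := by
    refine ⟨∑ x ∈ X, ‖x‖ + 1, by positivity, fun x hx => ?_⟩
    have := Finset.single_le_sum (f := fun x : E => ‖x‖) (fun x _ => norm_nonneg x) hx
    linarith
  obtain ⟨δ, hδ, hd⟩ := hU (ε / (2 * K ^ 2)) (by positivity)
  set t : ℝ := δ / K with ht
  have ht0 : 0 < t := by positivity
  have htx : ∀ x ∈ X, ‖t • x‖ ≤ δ := by
    intro x hx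
    rw [norm_smul, Real.norm_of_nonneg ht0.le]
    calc t * ‖x‖ ≤ t * K := by gcongr; exact hK x hx
      _ = δ := by rw [ht]; field_simp
  -- accuracy
  set ρ : ℝ := min (1 / 2) (ε * t ^ 2 / (4 * (δ + 2))) with hρ
  have hρ0 : 0 < ρ := by positivity
  have hρ1 : ρ ≤ 1 / 2 := min_le_left _ _
  have hρ2 : ρ * (4 * (δ + 2)) ≤ ε * t ^ 2 := by
    have := min_le_right (1 / 2 : ℝ) (ε * t ^ 2 / (4 * (δ + 2)))
    rw [← hρ, le_div_iff₀ (by positivity)] at this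
    exact this
  obtain ⟨w, hw⟩ := walk' hU hR hy he
    ((X.image fun x => t • x) ∪ (X.image fun x => -(t • x)) ∪ {0}) ρ hρ0
  have hw0 : |‖w‖ ^ 2 - 1| ≤ ρ := by
    have := hw 0 (by simp)
    simpa using this
  have hw0' := abs_le.1 hw0
  have hwn : |‖w‖ - 1| ≤ ρ := by
    have h1 : (‖w‖ - 1) * (‖w‖ + 1) = ‖w‖ ^ 2 - 1 := by ring
    have h2 : |‖w‖ - 1| * (‖w‖ + 1) ≤ ρ := by
      rw [← abs_of_nonneg (by positivity : 0 ≤ ‖w‖ + 1), ← abs_mul, h1]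
      exact hw0
    have h3 : |‖w‖ - 1| * 1 ≤ |‖w‖ - 1| * (‖w‖ + 1) := by
      gcongr
      linarith [norm_nonneg w]
    linarith
  have hwpos : 0 < ‖w‖ := by
    have := (abs_le.1 hwn).1
    linarith
  set u : E := ‖w‖⁻¹ • w with hu
  have hun : ‖u‖ = 1 := by
    rw [hu, norm_smul, norm_inv, norm_norm, inv_mul_cancel₀ hwpos.ne']
  have huw : ‖u - w‖ ≤ ρ := by
    have e1 : u - w = (‖w‖⁻¹ - 1) • w := by rw [hu, sub_smul, one_smul]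
    rw [e1, norm_smul, Real.norm_eq_abs]
    have e4 : |‖w‖⁻¹ - 1| * ‖w‖ = |1 - ‖w‖| := by
      rw [← abs_of_pos hwpos, ← abs_mul, abs_of_pos hwpos, sub_mul, inv_mul_cancel₀ hwpos.ne',
        one_mul]
    rw [e4, abs_sub_comm]
    exact hwn
  refine ⟨u, hun, fun x hx => ?_⟩
  have hplus : ∀ v : E, ‖v‖ ≤ δ → |‖v + w‖ ^ 2 - ‖v‖ ^ 2 - 1| ≤ ρ →
      |‖u + v‖ ^ 2 - ‖v‖ ^ 2 - 1| ≤ (2 * δ + 4) * ρ := by
    intro v hv h
    have h1 : |‖u + v‖ - ‖v + w‖| ≤ ρ := by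
      have h2 := abs_norm_sub_norm_le (u + v) (v + w)
      have e1 : u + v - (v + w) = u - w := by abel
      rw [e1] at h2
      exact h2.trans huw
    have h2 : ‖u + v‖ ≤ 1 + δ := (norm_add_le _ _).trans (by rw [hun]; linarith)
    have h3 : ‖v + w‖ ≤ 1 + δ + ρ := by
      have := (abs_le.1 h1).1
      linarith
    have h4 : |‖u + v‖ ^ 2 - ‖v + w‖ ^ 2| ≤ ρ * (2 + 2 * δ + ρ) := by
      have e1 : ‖u + v‖ ^ 2 - ‖v + w‖ ^ 2 = (‖u + v‖ - ‖v + w‖) * (‖u + v‖ + ‖v + w‖) := by ring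
      rw [e1, abs_mul, abs_of_nonneg (by positivity : 0 ≤ ‖u + v‖ + ‖v + w‖)]
      exact mul_le_mul h1 (by linarith) (by positivity) hρ0.le
    have e2 : ‖u + v‖ ^ 2 - ‖v‖ ^ 2 - 1 = (‖u + v‖ ^ 2 - ‖v + w‖ ^ 2) +
        (‖v + w‖ ^ 2 - ‖v‖ ^ 2 - 1) := by ring
    rw [e2]
    refine (abs_add_le _ _).trans ?_
    nlinarith
  have h1 := hplus (t • x) (htx x hx) (hw _ (Finset.mem_union_left _ (Finset.mem_union_left _
    (Finset.mem_image_of_mem (fun x => t • x) hx))))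
  have h2 := hplus (-(t • x)) (by rw [norm_neg]; exact htx x hx)
    (hw _ (Finset.mem_union_left _ (Finset.mem_union_right _
      (Finset.mem_image_of_mem (fun x => -(t • x)) hx))))
  rw [norm_neg] at h2
  have h3 := hd u hun (t • x) (htx x hx)
  have h4 := hd u hun (-(t • x)) (by rw [norm_neg]; exact htx x hx)
  rw [norm_neg] at h4
  have e1 : A u (-(t • x)) (-(t • x)) = A u (t • x) (t • x) := by
    simp only [map_neg, ContinuousLinearMap.neg_apply, neg_neg]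
  have e2 : A u (t • x) (t • x) = t ^ 2 * A u x x := by
    simp only [map_smul, ContinuousLinearMap.smul_apply, smul_eq_mul]
    ring
  have e3 : ‖t • x‖ ^ 2 = t ^ 2 * ‖x‖ ^ 2 := by
    rw [norm_smul, mul_pow, Real.norm_of_nonneg ht0.le]
  have e4 : f u (-(t • x)) = -f u (t • x) := map_neg _ _
  rw [e1, e2, e3, e4] at h4
  rw [e2, e3] at h3
  rw [e3] at h1 h2
  have hxK : ‖x‖ ^ 2 ≤ K ^ 2 := by
    have := hK x hx
    gcongr
  have h5 : ε / (2 * K ^ 2) * (t ^ 2 * ‖x‖ ^ 2) ≤ ε / 2 * t ^ 2 := by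
    calc ε / (2 * K ^ 2) * (t ^ 2 * ‖x‖ ^ 2) ≤ ε / (2 * K ^ 2) * (t ^ 2 * K ^ 2) := by gcongr
      _ = ε / 2 * t ^ 2 := by field_simp
  have g1 := abs_le.1 h1
  have g2 := abs_le.1 h2
  have g3 := abs_le.1 (h3.trans h5)
  have g4 := abs_le.1 (h4.trans h5)
  have ht2 : 0 < t ^ 2 := by positivity
  have hfin : t ^ 2 * |‖x‖ ^ 2 - A u x x| ≤ t ^ 2 * ε := by
    rw [← abs_of_pos ht2, ← abs_mul, abs_of_pos ht2, abs_le]
    have hd4 : (2 * δ + 4) * ρ ≤ ε / 2 * t ^ 2 := by linarith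
    have hd5 : t ^ 2 * (‖x‖ ^ 2 - A u x x) = t ^ 2 * ‖x‖ ^ 2 - t ^ 2 * A u x x := by ring
    rw [hd5]
    constructor <;> linarith
  exact le_of_mul_le_mul_left hfin ht2

theorem t_CLT : S_CLT := by
  intro E _ _ f A c C hA hU hy
  obtain ⟨y, ⟨R, hR⟩, h0, h1⟩ := hy
  by_cases he : ∃ e : E, ‖e‖ = 1
  · have hy' : Sq f A y (|R| + 1) :=
      ⟨fun n => (hR n).trans (by linarith [le_abs_self R]), h0, h1⟩
    intro x z
    have key : ∀ ε : ℝ, 0 < ε →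
        |‖x + z‖ ^ 2 + ‖x - z‖ ^ 2 - 2 * ‖x‖ ^ 2 - 2 * ‖z‖ ^ 2| ≤ 6 * ε := by
      intro ε hε
      classical
      obtain ⟨u, hu, h⟩ := exists_hess hU (by positivity) hy' he {x + z, x - z, x, z} ε hε
      have a1 := abs_le.1 (h (x + z) (by simp))
      have a2 := abs_le.1 (h (x - z) (by simp))
      have a3 := abs_le.1 (h x (by simp))
      have a4 := abs_le.1 (h z (by simp))
      have e1 : A u (x + z) (x + z) + A u (x - z) (x - z) = 2 * A u x x + 2 * A u z z := by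
        simp only [map_add, map_sub, ContinuousLinearMap.add_apply,
          ContinuousLinearMap.sub_apply]
        ring
      rw [abs_le]
      constructor <;> linarith
    have h6 : |‖x + z‖ ^ 2 + ‖x - z‖ ^ 2 - 2 * ‖x‖ ^ 2 - 2 * ‖z‖ ^ 2| ≤ 0 := by
      refine le_of_forall_pos_le_add fun ε hε => ?_
      have := key (ε / 6) (by positivity)
      linarith
    have h7 := abs_nonpos_iff.1 h6
    nlinarith
  · have hz : ∀ v : E, v = 0 := by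
      intro v
      by_contra hv
      apply he
      refine ⟨‖v‖⁻¹ • v, ?_⟩
      rw [norm_smul, norm_inv, norm_norm, inv_mul_cancel₀ (norm_ne_zero_iff.2 hv)]
    intro x z
    rw [hz x, hz z]
    simp

end

end Pool.Agent.V5helper39.BM
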