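import Pool.Agent.V5helper39.BM.Taylor
import Pool.Agent.N314.OP.Wsc

set_option autoImplicit false

/-! # Compact differences of Hessians -/

namespace Pool.Agent.V5helper39.BM

open Filter Topology Asymptotics Set TopologicalSpace

/-- separability for the norm -/
def CSep {Z : Type} [NormedAddCommGroup Z] (S : Set Z) : Prop :=
  ∃ t : Set Z, t.Countable ∧ ∀ z ∈ S, ∀ ε : ℝ, 0 < ε → ∃ b ∈ t, ‖z - b‖ < ε

lemma csep_iff {Z : Type} [NormedAddCommGroup Z] (S : Set Z) : IsSeparable S ↔ CSep S := by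
  constructor
  · rintro ⟨t, ht, h⟩
    refine ⟨t, ht, fun z hz ε hε => ?_⟩
    obtain ⟨b, hb, hd⟩ := Metric.mem_closure_iff.1 (h hz) ε hε
    exact ⟨b, hb, by rwa [dist_eq_norm] at hd⟩
  · rintro ⟨t, ht, h⟩
    refine ⟨t, ht, fun z hz => Metric.mem_closure_iff.2 fun ε hε => ?_⟩
    obtain ⟨b, hb, hd⟩ := h z hz ε hε
    exact ⟨b, hb, by rwa [dist_eq_norm]⟩

lemma csep_range {Z1 Z2 : Type} [NormedAddCommGroup Z1] [NormedSpace ℝ Z1] [FiniteDimensional ℝ Z1]
    [NormedAddCommGroup Z2] [NormedSpace ℝ Z2] (L : Z1 →ₗ[ℝ] Z2) : CSep (range L) := by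
  rw [← csep_iff]
  have : ProperSpace Z1 := FiniteDimensional.proper ℝ _
  exact isSeparable_range L.continuous_of_finiteDimensional

lemma sep_range {E : Type} [NormedAddCommGroup E] [NormedSpace ℝ E]
    {F : Type} [NormedAddCommGroup F] [NormedSpace ℝ F] [FiniteDimensional ℝ F] (Q : E →L[ℝ] F) :
    CSep (range fun B : F →L[ℝ] F →L[ℝ] ℝ => B.bilinearComp Q Q) := by
  let L : (F →L[ℝ] F →L[ℝ] ℝ) →ₗ[ℝ] (E →L[ℝ] E →L[ℝ] ℝ) :=
    { toFun := fun B => B.bilinearComp Q Q
      map_add' := fun B B' => by ext; rfl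
      map_smul' := fun r B => by ext; rfl }
  exact csep_range (Z1 := F →L[ℝ] F →L[ℝ] ℝ) (Z2 := E →L[ℝ] E →L[ℝ] ℝ) L

lemma csep_iUnion {Z : Type} [NormedAddCommGroup Z] (S : ℕ → Set Z) (h : ∀ n, CSep (S n)) :
    CSep (⋃ n, S n) := by
  rw [← csep_iff]
  exact IsSeparable.iUnion fun n => (csep_iff _).2 (h n)

lemma csep_closure {Z : Type} [NormedAddCommGroup Z] {S R : Set Z} (h : CSep S)
    (hR : ∀ z ∈ R, ∀ ε : ℝ, 0 < ε → ∃ b ∈ S, ‖z - b‖ < ε) : CSep R := by
  obtain ⟨t, ht, h⟩ := h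
  refine ⟨t, ht, fun z hz ε hε => ?_⟩
  obtain ⟨b, hb, h1⟩ := hR z hz (ε / 2) (by positivity)
  obtain ⟨b', hb', h2⟩ := h b hb (ε / 2) (by positivity)
  refine ⟨b', hb', ?_⟩
  have : z - b' = (z - b) + (b - b') := by abel
  rw [this]
  exact (norm_add_le _ _).trans_lt (by linarith)

lemma csep_translate {Z : Type} [NormedAddCommGroup Z] {S R : Set Z} (h : CSep S) (a : Z)
    (hR : ∀ z ∈ R, z - a ∈ S) : CSep R := by
  obtain ⟨t, ht, h⟩ := h
  refine ⟨(fun b => a + b) '' t, ht.image _, fun z hz ε hε => ?_⟩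
  obtain ⟨b, hb, h1⟩ := h (z - a) (hR z hz) ε hε
  refine ⟨a + b, ⟨b, hb, rfl⟩, ?_⟩
  have : z - (a + b) = z - a - b := by abel
  rwa [this]

section

variable {E : Type} [NormedAddCommGroup E] [NormedSpace ℝ E] {f : E → E →L[ℝ] ℝ}
  {A : E → E →L[ℝ] E →L[ℝ] ℝ} {c C : ℝ}

/-- a norm separable Hessian field is uniformly norm continuous (Baire) -/
theorem UC_of_sep [CompleteSpace E] (hA : HF E f A c C) (hT : Tr E)
    (hS : CSep {B : E →L[ℝ] E →L[ℝ] ℝ | ∃ x, ‖x‖ = 1 ∧ B = A x}) : UC E A := by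
  intro ε hε
  by_cases hne : ∃ e : E, ‖e‖ = 1
  swap
  · exact ⟨1, one_pos, fun x y hx _ _ => absurd ⟨x, hx⟩ hne⟩
  obtain ⟨e, he⟩ := hne
  obtain ⟨t, htc, ht⟩ := hS
  have : Nonempty (Metric.sphere (0 : E) 1) := ⟨⟨e, by rw [mem_sphere_zero_iff_norm, he]⟩⟩
  have : CompleteSpace (Metric.sphere (0 : E) 1) :=
    (Metric.isClosed_sphere (x := (0 : E)) (ε := 1)).completeSpace_coe
  have : Countable t := htc.to_subtype
  let F : t → Set (Metric.sphere (0 : E) 1) := fun B => {x | ‖A x.1 - B.1‖ ≤ ε / 4}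
  have hF : ∀ B, IsClosed (F B) := by
    intro B
    have h1 : F B = ⋂ (v : E) (w : E), {x : Metric.sphere (0 : E) 1 |
        ‖A x.1 v w - B.1 v w‖ ≤ ε / 4 * ‖v‖ * ‖w‖} := by
      ext x
      simp only [mem_iInter, mem_setOf_eq, F]
      constructor
      · intro h v w
        have h2 := (A x.1 - B.1).le_opNorm₂ v w
        have h3 : (A x.1 - B.1) v w = A x.1 v w - B.1 v w := rfl
        rw [h3] at h2
        refine h2.trans ?_
        gcongr
      · intro h
        refine ContinuousLinearMap.opNorm_le_bound₂ _ (by positivity) fun v w => ?_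
        exact h v w
    rw [h1]
    refine isClosed_iInter fun v => isClosed_iInter fun w => ?_
    have h2 : Continuous fun x : Metric.sphere (0 : E) 1 => A x.1 v w := by
      have h3 := (hA.cont v w).comp_continuous (f := fun x : Metric.sphere (0 : E) 1 => x.1)
        continuous_subtype_val (fun x => by
          have := x.2
          rw [mem_sphere_zero_iff_norm] at this
          exact this)
      exact h3
    exact isClosed_le (h2.sub continuous_const).norm continuous_const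
  have hU : ⋃ B, F B = univ := by
    refine eq_univ_of_forall fun x => ?_
    have hx : ‖x.1‖ = 1 := by
      have := x.2
      rwa [mem_sphere_zero_iff_norm] at this
    obtain ⟨B, hB, hd⟩ := ht (A x.1) ⟨x.1, hx, rfl⟩ (ε / 4) (by positivity)
    exact mem_iUnion.2 ⟨⟨B, hB⟩, hd.le⟩
  obtain ⟨B, x₁, hx₁⟩ := nonempty_interior_of_iUnion_of_closed hF hU
  obtain ⟨r, hr, hball⟩ := Metric.isOpen_iff.1 isOpen_interior x₁ hx₁
  have hx1 : ‖x₁.1‖ = 1 := by
    have := x₁.2
    rwa [mem_sphere_zero_iff_norm] at this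
  have hnear : ∀ y : E, ‖y‖ = 1 → ‖y - x₁.1‖ < r → ‖A y - B.1‖ ≤ ε / 4 := by
    intro y hy hyr
    have h1 : (⟨y, by rw [mem_sphere_zero_iff_norm, hy]⟩ : Metric.sphere (0 : E) 1) ∈
        Metric.ball x₁ r := by
      rw [Metric.mem_ball, Subtype.dist_eq, dist_eq_norm]
      exact hyr
    have h2 := interior_subset (hball h1)
    exact h2
  have h1B := hnear x₁.1 hx1 (by rw [sub_self, norm_zero]; exact hr)
  refine ⟨r / 2, by positivity, fun x y hx hy hxy w => ?_⟩
  obtain ⟨T, hTx⟩ := hT x₁.1 x hx1 hx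
  have hy' : ‖T.symm y‖ = 1 := by rw [T.symm.norm_map, hy]
  have h2B := hnear (T.symm y) hy' (by
    have : T.symm y - x₁.1 = - T.symm (x - y) := by
      rw [map_sub, ← hTx, T.symm_apply_apply]; abel
    rw [this, norm_neg, T.symm.norm_map]
    linarith)
  have e1 : A x w w = A x₁.1 (T.symm w) (T.symm w) := by
    have := hA.equi x₁.1 hx1 T (T.symm w) (T.symm w)
    rwa [hTx, T.apply_symm_apply] at this
  have e2 : A y w w = A (T.symm y) (T.symm w) (T.symm w) := by
    have := hA.equi (T.symm y) hy' T (T.symm w) (T.symm w)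
    rwa [T.apply_symm_apply, T.apply_symm_apply] at this
  rw [e1, e2]
  set u := T.symm w with hu
  have hun : ‖u‖ = ‖w‖ := T.symm.norm_map w
  have h3 : ‖A x₁.1 - A (T.symm y)‖ ≤ ε := by
    have : A x₁.1 - A (T.symm y) = (A x₁.1 - B.1) - (A (T.symm y) - B.1) := by abel
    rw [this]
    refine (norm_sub_le (A x₁.1 - B.1) (A (T.symm y) - B.1)).trans ?_
    linarith
  have h4 := (A x₁.1 - A (T.symm y)).le_opNorm₂ u u
  have h5 : (A x₁.1 - A (T.symm y)) u u = A x₁.1 u u - A (T.symm y) u u := rfl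
  rw [h5, Real.norm_eq_abs] at h4
  refine h4.trans ?_
  rw [hun]
  calc ‖A x₁.1 - A (T.symm y)‖ * ‖w‖ * ‖w‖ ≤ ε * ‖w‖ * ‖w‖ := by gcongr
    _ = ε * ‖w‖ ^ 2 := by ring

end

section

variable {X : Type} [NormedAddCommGroup X] [NormedSpace ℝ X]
variable {F : Type} [NormedAddCommGroup F] [NormedSpace ℝ F]

/-- operators which are small pointwise on functionals are small on totally bounded sets -/
lemma small_on_compact (K : Set (StrongDual ℝ X)) (hK : IsCompact K) (q : ℕ → X →L[ℝ] X) {M : ℝ}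
    (hM : ∀ n, ‖q n‖ ≤ M) (hq : ∀ φ : StrongDual ℝ X, Tendsto (fun n => φ.comp (q n)) atTop (𝓝 0))
    {ε : ℝ} (hε : 0 < ε) : ∀ᶠ n in atTop, ∀ φ ∈ K, ‖φ.comp (q n)‖ ≤ ε := by
  have hM0 : 0 ≤ M := (norm_nonneg _).trans (hM 0)
  obtain ⟨t, ht, hcov⟩ := Metric.totallyBounded_iff.1 hK.totallyBounded (ε / (2 * (M + 1)))
    (by positivity)
  have h1 : ∀ᶠ n in atTop, ∀ ψ ∈ t, ‖ψ.comp (q n)‖ ≤ ε / 2 := by
    rw [ht.eventually_all]
    intro ψ _
    have h2 := (hq ψ).norm
    rw [norm_zero] at h2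
    filter_upwards [h2.eventually (gt_mem_nhds (show (0 : ℝ) < ε / 2 by positivity))] with n hn
    exact hn.le
  filter_upwards [h1] with n hn φ hφ
  obtain ⟨ψ, hψ, hd⟩ := mem_iUnion₂.1 (hcov hφ)
  rw [Metric.mem_ball, dist_eq_norm] at hd
  have h3 : φ.comp (q n) = (φ - ψ).comp (q n) + ψ.comp (q n) := by
    ext x
    simp
  rw [h3]
  calc ‖(φ - ψ).comp (q n) + ψ.comp (q n)‖ ≤ ‖(φ - ψ).comp (q n)‖ + ‖ψ.comp (q n)‖ := norm_add_le _ _
    _ ≤ ‖φ - ψ‖ * ‖q n‖ + ε / 2 := add_le_add (ContinuousLinearMap.opNorm_comp_le _ _) (hn ψ hψ)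
    _ ≤ ε / (2 * (M + 1)) * M + ε / 2 := by
        gcongr
        exact hM n
    _ ≤ ε / (2 * (M + 1)) * (M + 1) + ε / 2 := by
        gcongr
        linarith
    _ = ε := by field_simp; ring

/-- weakly null sequences and compact operators -/
lemma compact_null' {K : X →L[ℝ] F} (hK : IsCompactOperator K) {y : ℕ → X}
    (h1 : ∀ n, ‖y n‖ ≤ 1) (h0 : Pool.Agent.N314.OP.WN y) : Tendsto (fun n => K (y n)) atTop (𝓝 0) := by
  have hc := hK.isCompact_closure_image_closedBall (𝕜₁ := ℝ) (𝕜₂ := ℝ) (f := (K : X →ₗ[ℝ] F)) 1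
  refine tendsto_of_subseq_tendsto fun ns hns => ?_
  obtain ⟨z, -, φ, hφ, hz⟩ := hc.tendsto_subseq (x := fun n => K (y (ns n))) (fun n =>
    subset_closure ⟨y (ns n), by rw [mem_closedBall_zero_iff]; exact h1 _, rfl⟩)
  refine ⟨φ, ?_⟩
  have hz0 : z = 0 := by
    obtain ⟨f, -, hf⟩ := exists_dual_vector'' ℝ z
    have e1 : Tendsto (fun n => f (K (y (ns (φ n))))) atTop (𝓝 (f z)) :=
      (f.continuous.tendsto z).comp hz
    have e2 : Tendsto (fun n => f (K (y (ns (φ n))))) atTop (𝓝 0) :=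
      ((h0 (f.comp K)).comp hns).comp hφ.tendsto_atTop
    have e3 := tendsto_nhds_unique e1 e2
    rw [hf] at e3
    simpa using e3
  rw [hz0] at hz
  exact hz

end

section

variable {E : Type} [NormedAddCommGroup E] [NormedSpace ℝ E]
variable {H : Type} [NormedAddCommGroup H] [InnerProductSpace ℝ H] [CompleteSpace H]

/-- finite rank approximations of the identity of a separable Hilbertian space -/
lemma exists_proj [SeparableSpace E] (Φ : E ≃L[ℝ] H) : ∃ (U : ℕ → Submodule ℝ H)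
    (_ : ∀ n, FiniteDimensional ℝ (U n)), ∀ h : H,
      Tendsto (fun n => (U n).starProjection h) atTop (𝓝 h) := by
  have : SeparableSpace H := Φ.surjective.denseRange.separableSpace Φ.continuous
  let U : ℕ → Submodule ℝ H := fun n => Submodule.span ℝ (denseSeq H '' (Finset.range n : Set ℕ))
  have hfin : ∀ n, FiniteDimensional ℝ (U n) := fun n =>
    FiniteDimensional.span_of_finite ℝ ((Finset.finite_toSet _).image _)
  refine ⟨U, hfin, fun h => ?_⟩
  refine Submodule.starProjection_tendsto_self U ?_ h ?_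
  · intro m n hmn
    refine Submodule.span_mono (image_mono ?_)
    intro k hk
    simp only [Finset.coe_range, mem_Iio] at hk ⊢
    omega
  · intro x _
    have h1 : x ∈ closure (range (denseSeq H)) := (denseRange_denseSeq H) x
    have h2 : range (denseSeq H) ⊆ ((⨆ t, U t : Submodule ℝ H) : Set H) := by
      rintro _ ⟨k, rfl⟩
      have : denseSeq H k ∈ U (k + 1) := by
        refine Submodule.subset_span ⟨k, ?_, rfl⟩
        simp
      exact (le_iSup U (k + 1)) this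
    exact closure_mono h2 h1

/-- compact symmetric forms on a separable Hilbertian space form a norm separable set -/
theorem sep_compact [SeparableSpace E] (Φ : E ≃L[ℝ] H) :
    CSep {D : E →L[ℝ] E →L[ℝ] ℝ | IsCompactOperator D ∧ ∀ v w, D v w = D w v} := by
  obtain ⟨U, hU, hlim⟩ := exists_proj Φ
  -- the projections on `E`
  let J : ∀ n, U n →L[ℝ] E := fun n => (Φ.symm : H →L[ℝ] E).comp (U n).subtypeL
  let Q : ∀ n, E →L[ℝ] U n := fun n => (U n).orthogonalProjectionOnto.comp (Φ : E →L[ℝ] H)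
  let P : ℕ → E →L[ℝ] E := fun n => (J n).comp (Q n)
  have hP : ∀ n x, P n x = Φ.symm ((U n).starProjection (Φ x)) := fun n x => rfl
  -- separability of the finite-dimensional pieces
  have hsep : CSep (⋃ n, range fun B : (U n) →L[ℝ] (U n) →L[ℝ] ℝ =>
      B.bilinearComp (Q n) (Q n)) := by
    refine csep_iUnion _ fun n => ?_
    have := hU n
    exact sep_range (Q n)
  refine csep_closure hsep ?_
  rintro D ⟨hD, hs⟩ ε hε
  set M : ℝ := ‖(Φ.symm : H →L[ℝ] E)‖ * ‖(Φ : E →L[ℝ] H)‖ with hM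
  have hM0 : 0 ≤ M := by positivity
  have hPM : ∀ n, ‖P n‖ ≤ M := by
    intro n
    refine ContinuousLinearMap.opNorm_le_bound _ hM0 fun x => ?_
    rw [hP]
    calc ‖Φ.symm ((U n).starProjection (Φ x))‖ ≤ ‖(Φ.symm : H →L[ℝ] E)‖ * ‖(U n).starProjection (Φ x)‖ :=
          (Φ.symm : H →L[ℝ] E).le_opNorm _
      _ ≤ ‖(Φ.symm : H →L[ℝ] E)‖ * (‖(Φ : E →L[ℝ] H)‖ * ‖x‖) := by
          gcongr
          exact ((U n).norm_starProjection_apply_le _).trans ((Φ : E →L[ℝ] H).le_opNorm x)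
      _ = M * ‖x‖ := by rw [hM]; ring
  have hq : ∀ φ : StrongDual ℝ E, Tendsto (fun n => φ.comp (P n - 1)) atTop (𝓝 0) := by
    intro φ
    set a : H := (InnerProductSpace.toDual ℝ H).symm (φ.comp (Φ.symm : H →L[ℝ] E)) with ha
    have h1 : ∀ v : H, inner ℝ a v = φ (Φ.symm v) := by
      intro v
      rw [ha, InnerProductSpace.toDual_symm_apply]
      rfl
    have h2 : ∀ n, ‖φ.comp (P n - 1)‖ ≤ ‖(U n).starProjection a - a‖ * ‖(Φ : E →L[ℝ] H)‖ := by
      intro n
      refine ContinuousLinearMap.opNorm_le_bound _ (by positivity) fun x => ?_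
      have h3 : φ.comp (P n - 1) x = inner ℝ ((U n).starProjection a - a) (Φ x) := by
        have e1 : φ.comp (P n - 1) x = φ (P n x) - φ x := by
          simp
        have e2 : φ x = inner ℝ a (Φ x) := by rw [h1, Φ.symm_apply_apply]
        have e3 : φ (P n x) = inner ℝ ((U n).starProjection a) (Φ x) := by
          rw [hP, ← h1, Submodule.inner_starProjection_left_eq_right]
        rw [e1, e2, e3, inner_sub_left]
      rw [h3]
      calc ‖inner ℝ ((U n).starProjection a - a) (Φ x)‖ ≤ ‖(U n).starProjection a - a‖ * ‖Φ x‖ :=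
            norm_inner_le_norm _ _
        _ ≤ ‖(U n).starProjection a - a‖ * (‖(Φ : E →L[ℝ] H)‖ * ‖x‖) := by
            gcongr
            exact (Φ : E →L[ℝ] H).le_opNorm x
        _ = _ := by ring
    have h4 : Tendsto (fun n => ‖(U n).starProjection a - a‖ * ‖(Φ : E →L[ℝ] H)‖) atTop (𝓝 0) := by
      have h5 := (((hlim a).sub_const a).norm).mul_const ‖(Φ : E →L[ℝ] H)‖
      rwa [sub_self, norm_zero, zero_mul] at h5
    exact squeeze_zero_norm h2 h4
  have hqM : ∀ n, ‖P n - 1‖ ≤ M + 1 := by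
    intro n
    refine (norm_sub_le _ _).trans (add_le_add (hPM n) ?_)
    exact ContinuousLinearMap.norm_id_le
  have hK := hD.isCompact_closure_image_closedBall (𝕜₁ := ℝ) (𝕜₂ := ℝ)
    (f := (D : E →ₗ[ℝ] StrongDual ℝ E)) 1
  obtain ⟨n, hn⟩ := (small_on_compact _ hK (fun n => P n - 1) hqM hq
    (show 0 < ε / (2 * (M + 2)) by positivity)).exists
  have hkey : ∀ u v : E, |D u ((P n - 1) v)| ≤ ε / (2 * (M + 2)) * ‖u‖ * ‖v‖ := by
    intro u v
    by_cases hu : u = 0
    · simp [hu]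
    have hu' : 0 < ‖u‖ := norm_pos_iff.2 hu
    have h1 := hn (D (‖u‖⁻¹ • u)) (subset_closure ⟨‖u‖⁻¹ • u, by
      rw [mem_closedBall_zero_iff, norm_smul, norm_inv, norm_norm, inv_mul_cancel₀ hu'.ne'], rfl⟩)
    have h2 := ((D (‖u‖⁻¹ • u)).comp (P n - 1)).le_opNorm v
    have h3 : ((D (‖u‖⁻¹ • u)).comp (P n - 1)) v = ‖u‖⁻¹ * D u ((P n - 1) v) := by
      rw [ContinuousLinearMap.comp_apply, map_smul]
      rfl
    rw [h3, Real.norm_eq_abs, abs_mul, abs_of_pos (inv_pos.2 hu')] at h2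
    have h4 : ‖u‖⁻¹ * |D u ((P n - 1) v)| ≤ ε / (2 * (M + 2)) * ‖v‖ :=
      h2.trans (mul_le_mul_of_nonneg_right h1 (norm_nonneg _))
    rw [inv_mul_le_iff₀ hu'] at h4
    linarith [h4]
  refine ⟨(D.bilinearComp (P n) (P n)), ?_, ?_⟩
  · refine mem_iUnion.2 ⟨n, D.bilinearComp (J n) (J n), ?_⟩
    ext u v
    rfl
  · have h1 : ‖D - D.bilinearComp (P n) (P n)‖ ≤ ε / 2 := by
      refine ContinuousLinearMap.opNorm_le_bound₂ _ (by positivity) fun u v => ?_
      have h2 : (D - D.bilinearComp (P n) (P n)) u v =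
          - (D u ((P n - 1) v)) - D (P n v) ((P n - 1) u) := by
        have e1 : (P n - 1) v = P n v - v := rfl
        have e2 : (P n - 1) u = P n u - u := rfl
        have e3 : (D - D.bilinearComp (P n) (P n)) u v = D u v - D (P n u) (P n v) := rfl
        rw [e1, e2, e3, map_sub, map_sub, hs (P n v) (P n u), hs (P n v) u]
        ring
      rw [h2, Real.norm_eq_abs]
      have h3 := hkey u v
      have h4 := hkey (P n v) u
      have h5 : ‖P n v‖ ≤ M * ‖v‖ := ((P n).le_opNorm v).trans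
        (mul_le_mul_of_nonneg_right (hPM n) (norm_nonneg _))
      calc |-(D u ((P n - 1) v)) - D (P n v) ((P n - 1) u)|
          ≤ |D u ((P n - 1) v)| + |D (P n v) ((P n - 1) u)| := by
            refine (abs_sub _ _).trans ?_
            rw [abs_neg]
        _ ≤ ε / (2 * (M + 2)) * ‖u‖ * ‖v‖ + ε / (2 * (M + 2)) * ‖P n v‖ * ‖u‖ := add_le_add h3 h4
        _ ≤ ε / (2 * (M + 2)) * ‖u‖ * ‖v‖ + ε / (2 * (M + 2)) * (M * ‖v‖) * ‖u‖ := by gcongr
        _ = ε / (2 * (M + 2)) * (M + 1) * ‖u‖ * ‖v‖ := by ring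
        _ ≤ ε / (2 * (M + 2)) * (M + 2) * ‖u‖ * ‖v‖ := by gcongr; linarith
        _ = ε / 2 * ‖u‖ * ‖v‖ := by field_simp
    linarith

end

theorem t_CPT : S_CPT := by
  intro E _ _ _ _ H _ _ f A c C hΦ hinf hA hT hK
  obtain ⟨Φ⟩ := hΦ
  have : CompleteSpace H := by
    have h1 := Φ.symm.isUniformEmbedding
    exact (completeSpace_congr (e := Φ.symm.toEquiv) h1).2 inferInstance
  -- separability of the Hessians
  by_cases hne : ∃ e : E, ‖e‖ = 1
  swap
  · exfalso
    refine hinf ?_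
    have : Subsingleton E := by
      refine ⟨fun a b => ?_⟩
      by_contra hab
      have h0 : ‖a - b‖ ≠ 0 := norm_ne_zero_iff.2 (sub_ne_zero.2 hab)
      exact hne ⟨‖a - b‖⁻¹ • (a - b), by
        rw [norm_smul, norm_inv, norm_norm, inv_mul_cancel₀ h0]⟩
    infer_instance
  obtain ⟨e, he⟩ := hne
  have hsep : CSep {B : E →L[ℝ] E →L[ℝ] ℝ | ∃ x, ‖x‖ = 1 ∧ B = A x} := by
    refine csep_translate (sep_compact Φ) (A e) ?_
    rintro B ⟨x, hx, rfl⟩
    refine ⟨hK x e hx he, fun v w => ?_⟩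
    show A x v w - A e v w = A x w v - A e w v
    rw [hA.symm x hx, hA.symm e he]
  refine ⟨UE_of_UC hA (UC_of_sep hA hT hsep), ?_⟩
  obtain ⟨y, hy0, hy1⟩ := Pool.Agent.N314.OP.exists_null hinf (Pool.Agent.N314.OP.wsc_of_uw
    (Pool.Agent.N314.OP.uw_of_reflexive (Pool.Agent.N314.OP.reflexive_of_hilbertian Φ))
    Pool.Agent.N314.OP.sep_of_separable)
  have hpos : ∀ n, c ≤ A e (y n) (y n) := by
    intro n
    have := hA.low e he (y n)
    rwa [hy1, one_pow, mul_one] at this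
  set a : ℕ → ℝ := fun n => (Real.sqrt (A e (y n) (y n)))⁻¹ with ha
  have ha2 : ∀ n, a n ^ 2 * A e (y n) (y n) = 1 := by
    intro n
    have h1 : 0 < A e (y n) (y n) := hA.cpos.trans_le (hpos n)
    rw [ha]
    simp only []
    rw [inv_pow, Real.sq_sqrt h1.le, inv_mul_cancel₀ h1.ne']
  have ha0 : ∀ n, 0 < a n := by
    intro n
    have h1 : 0 < A e (y n) (y n) := hA.cpos.trans_le (hpos n)
    exact inv_pos.2 (Real.sqrt_pos.2 h1)
  have hab : ∀ n, a n ≤ (Real.sqrt c)⁻¹ := by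
    intro n
    exact inv_anti₀ (Real.sqrt_pos.2 hA.cpos) (Real.sqrt_le_sqrt (hpos n))
  refine ⟨fun n => a n • y n, ⟨(Real.sqrt c)⁻¹, fun n => ?_⟩, fun φ => ?_, fun x hx => ?_⟩
  · rw [norm_smul, hy1, mul_one, Real.norm_eq_abs, abs_of_pos (ha0 n)]
    exact hab n
  · have h1 : Tendsto (fun n => (Real.sqrt c)⁻¹ * ‖φ (y n)‖) atTop (𝓝 0) := by
      have := ((hy0 φ).norm).const_mul (Real.sqrt c)⁻¹
      simpa using this
    refine squeeze_zero_norm (fun n => ?_) h1
    rw [map_smul, norm_smul, Real.norm_eq_abs, abs_of_pos (ha0 n)]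
    gcongr
    exact hab n
  · have h1 : Tendsto (fun n => (A x - A e) (y n)) atTop (𝓝 0) :=
      compact_null' (hK x e hx he) (fun n => (hy1 n).le) hy0
    have h2 : Tendsto (fun n => a n ^ 2 * (A x - A e) (y n) (y n)) atTop (𝓝 0) := by
      have h3 : Tendsto (fun n => (Real.sqrt c)⁻¹ ^ 2 * ‖(A x - A e) (y n)‖) atTop (𝓝 0) := by
        have := (h1.norm).const_mul ((Real.sqrt c)⁻¹ ^ 2)
        simpa using this
      refine squeeze_zero_norm (fun n => ?_) h3
      have h4 : ‖(A x - A e) (y n) (y n)‖ ≤ ‖(A x - A e) (y n)‖ := by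
        have := ((A x - A e) (y n)).le_opNorm (y n)
        rwa [hy1, mul_one] at this
      rw [norm_mul, Real.norm_eq_abs, abs_of_nonneg (sq_nonneg (a n))]
      have := (ha0 n).le
      gcongr
      exact hab n
    have h5 : (fun n => A x (a n • y n) (a n • y n)) =
        fun n => 1 + a n ^ 2 * (A x - A e) (y n) (y n) := by
      funext n
      have h6 : (A x - A e) (y n) (y n) = A x (y n) (y n) - A e (y n) (y n) := rfl
      have h7 := ha2 n
      have h8 : A x (a n • y n) (a n • y n) = a n * (a n * A x (y n) (y n)) := by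
        rw [map_smul (A x (a n • y n)), map_smul (A x)]
        rfl
      show A x (a n • y n) (a n • y n) = _
      rw [h6, h8]
      linear_combination h7
    rw [h5]
    have := h2.const_add 1
    rwa [add_zero] at this

end Pool.Agent.V5helper39.BM
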