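import Pool.Agent.V5helper39.BM.Milman

set_option autoImplicit false

namespace Pool.Agent.V5helper39.BM

open Set Filter Topology

/-- closed sup-ball with the weight `ω` -/
def wBall {Z : Type*} (ω : Z → ℝ) (c : Z → ℝ) (δ : ℝ) : Set (Z → ℝ) :=
  {q | ∀ z, |q z - c z| ≤ δ * ω z}

lemma wBall_closed {Z : Type*} (ω : Z → ℝ) (c : Z → ℝ) (δ : ℝ) : IsClosed (wBall ω c δ) := by
  have : wBall ω c δ = ⋂ z, {q : Z → ℝ | |q z - c z| ≤ δ * ω z} := by
    ext q; simp [wBall]
  rw [this]
  refine isClosed_iInter fun z => ?_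
  exact isClosed_le (by fun_prop) continuous_const

lemma wBall_convex {Z : Type*} (ω : Z → ℝ) (c : Z → ℝ) (δ : ℝ) : Convex ℝ (wBall ω c δ) := by
  intro q hq q' hq' a b ha hb hab z
  have h1 : (a • q + b • q') z - c z = a * (q z - c z) + b * (q' z - c z) := by
    simp only [Pi.add_apply, Pi.smul_apply, smul_eq_mul]
    linear_combination (c z) * hab
  rw [h1]
  refine (abs_add_le _ _).trans ?_
  rw [abs_mul, abs_mul, abs_of_nonneg ha, abs_of_nonneg hb]
  have h2 := mul_le_mul_of_nonneg_left (hq z) ha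
  have h3 := mul_le_mul_of_nonneg_left (hq' z) hb
  have h4 : a * (δ * ω z) + b * (δ * ω z) = δ * ω z := by linear_combination (δ * ω z) * hab
  linarith

/-- countable covers by small weighted sup-balls -/
def WSep {Z : Type*} (ω : Z → ℝ) (L : Set (Z → ℝ)) : Prop :=
  ∀ δ : ℝ, 0 < δ → ∃ c : ℕ → Z → ℝ, ∀ q ∈ L, ∃ n, q ∈ wBall ω (c n) δ

lemma WSep.mono {Z : Type*} {ω : Z → ℝ} {L L' : Set (Z → ℝ)} (h : WSep ω L) (hs : L' ⊆ L) :
    WSep ω L' := by
  intro δ hδ
  obtain ⟨c, hc⟩ := h δ hδ
  exact ⟨c, fun q hq => hc q (hs hq)⟩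

theorem dent {Z : Type*} (ω : Z → ℝ) (hω : ∀ z, 0 ≤ ω z) (L : Set (Z → ℝ)) (hL : IsCompact L)
    (hLc : Convex ℝ L) (hne : L.Nonempty) (C0 : ℝ) (hb : ∀ q ∈ L, ∀ z, |q z| ≤ C0 * ω z)
    (hsep : WSep ω L) (ε : ℝ) (hε : 0 < ε) :
    ∃ C : Set (Z → ℝ), C ⊆ L ∧ Convex ℝ C ∧ IsClosed C ∧ C ≠ L ∧
      ∀ q ∈ L \ C, ∀ q' ∈ L \ C, ∀ z, |q z - q' z| ≤ ε * ω z := by
  set X : Set (Z → ℝ) := L.extremePoints ℝ with hX
  have hXne : X.Nonempty := hL.extremePoints_nonempty hne
  set P : Set (Z → ℝ) := closure X with hP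
  have hPL : P ⊆ L := closure_minimal extremePoints_subset hL.isClosed
  have hPc : IsCompact P := hL.of_isClosed_subset isClosed_closure hPL
  have hKM : closure (convexHull ℝ X) = L := closure_convexHull_extremePoints hL hLc
  obtain ⟨c, hc⟩ := hsep (ε / 8) (by positivity)
  haveI : CompactSpace P := isCompact_iff_compactSpace.1 hPc
  haveI : Nonempty P := (hXne.mono subset_closure).to_subtype
  obtain ⟨n, hn⟩ := nonempty_interior_of_iUnion_of_closed
    (f := fun n : ℕ => {p : P | (p : Z → ℝ) ∈ wBall ω (c n) (ε / 8)})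
    (fun n => (wBall_closed ω (c n) (ε / 8)).preimage continuous_subtype_val)
    (by
      ext p
      simp only [mem_iUnion, mem_setOf_eq, mem_univ, iff_true]
      exact hc _ (hPL p.2))
  obtain ⟨p₀, hp₀⟩ := hn
  obtain ⟨O, hO, hOe⟩ := isOpen_induced_iff.1
    (isOpen_interior (s := {p : P | (p : Z → ℝ) ∈ wBall ω (c n) (ε / 8)}))
  have hOball : ∀ q ∈ P, q ∈ O → q ∈ wBall ω (c n) (ε / 8) := by
    intro q hq hqO
    have h1 : (⟨q, hq⟩ : P) ∈ Subtype.val ⁻¹' O := hqO
    rw [hOe] at h1
    have h2 := interior_subset h1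
    exact h2
  have hp₀O : (p₀ : Z → ℝ) ∈ O := by
    have h1 : p₀ ∈ (Subtype.val ⁻¹' O : Set P) := by rw [hOe]; exact hp₀
    exact h1
  obtain ⟨e, heO, heX⟩ := mem_closure_iff.1 p₀.2 O hO hp₀O
  set A : Set (Z → ℝ) := P \ O with hA
  set B : Set (Z → ℝ) := P ∩ O with hB
  have hAc : IsCompact A := hPc.diff hO
  have hBball : closure (convexHull ℝ B) ⊆ wBall ω (c n) (ε / 8) :=
    closure_minimal (convexHull_min (fun q hq => hOball q hq.1 hq.2)
      (wBall_convex ω (c n) (ε / 8))) (wBall_closed ω (c n) (ε / 8))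
  have hXAB : X ⊆ A ∪ B := by
    intro q hq
    by_cases h : q ∈ O
    · exact Or.inr ⟨subset_closure hq, h⟩
    · exact Or.inl ⟨subset_closure hq, h⟩
  have hball2 : ∀ q q' : Z → ℝ, ∀ η : ℝ, 2 * η ≤ ε → q ∈ wBall ω (c n) η → q' ∈ wBall ω (c n) η →
      ∀ z, |q z - q' z| ≤ ε * ω z := by
    intro q q' η hη hq hq' z
    have h1 : q z - q' z = (q z - c n z) - (q' z - c n z) := by ring
    rw [h1]
    refine (abs_sub _ _).trans ?_
    have h2 := hq z
    have h3 := hq' z
    have h4 := mul_le_mul_of_nonneg_right hη (hω z)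
    linarith
  by_cases hAne : A.Nonempty
  · have hBne : B.Nonempty := ⟨e, subset_closure heX, heO⟩
    set K1 : Set (Z → ℝ) := closure (convexHull ℝ A) with hK1
    set K2 : Set (Z → ℝ) := closure (convexHull ℝ B) with hK2
    have hK1L : K1 ⊆ L := closure_minimal (convexHull_min (diff_subset.trans hPL) hLc) hL.isClosed
    have hK2L : K2 ⊆ L := closure_minimal (convexHull_min (inter_subset_left.trans hPL) hLc)
      hL.isClosed
    have hK1c : IsCompact K1 := hL.of_isClosed_subset isClosed_closure hK1L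
    have hK2c : IsCompact K2 := hL.of_isClosed_subset isClosed_closure hK2L
    have hK1v : Convex ℝ K1 := (convex_convexHull ℝ A).closure
    have hK2v : Convex ℝ K2 := (convex_convexHull ℝ B).closure
    have hK1ne : K1.Nonempty := hAne.convexHull.closure
    have hK2ne : K2.Nonempty := hBne.convexHull.closure
    have hLJ : L ⊆ convexJoin ℝ K1 K2 := by
      rw [← hKM]
      refine closure_minimal (convexHull_min ?_ (hK1v.convexJoin hK2v))
        (compact_join hK1c hK2c).isClosed
      intro q hq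
      rcases hXAB hq with h | h
      · exact subset_convexJoin_left hK2ne (subset_closure (subset_convexHull ℝ A h))
      · exact subset_convexJoin_right hK1ne (subset_closure (subset_convexHull ℝ B h))
    -- the parameter
    obtain ⟨r, hr0, hr1, hr⟩ : ∃ r : ℝ, 0 < r ∧ r < 1 ∧ 4 * r * |C0| ≤ ε / 2 := by
      refine ⟨min (1 / 2) (ε / (8 * (|C0| + 1))), by positivity,
        (min_le_left _ _).trans_lt (by norm_num), ?_⟩
      have h1 : min (1 / 2) (ε / (8 * (|C0| + 1))) ≤ ε / (8 * (|C0| + 1)) := min_le_right _ _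
      have h2 : 0 ≤ |C0| := abs_nonneg _
      calc 4 * min (1 / 2) (ε / (8 * (|C0| + 1))) * |C0|
          ≤ 4 * (ε / (8 * (|C0| + 1))) * |C0| := by gcongr
        _ = ε / 2 * (|C0| / (|C0| + 1)) := by field_simp; ring
        _ ≤ ε / 2 * 1 := by
            gcongr
            rw [div_le_one (by positivity)]
            linarith
        _ = ε / 2 := mul_one _
    set D : Set (Z → ℝ) := (fun p : (Z → ℝ) × (Z → ℝ) => r • p.1 + (1 - r) • p.2) '' (K1 ×ˢ K2)
      with hD
    have hDc : IsCompact D := (hK1c.prod hK2c).image (by fun_prop)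
    have hDv : Convex ℝ D := by
      rintro _ ⟨⟨x, y⟩, ⟨hx, hy⟩, rfl⟩ _ ⟨⟨x', y'⟩, ⟨hx', hy'⟩, rfl⟩ a b ha hb hab
      refine ⟨⟨a • x + b • x', a • y + b • y'⟩, ⟨hK1v hx hx' ha hb hab, hK2v hy hy' ha hb hab⟩, ?_⟩
      simp only
      module
    have hDL : D ⊆ L := by
      rintro _ ⟨⟨x, y⟩, ⟨hx, hy⟩, rfl⟩
      exact hLc (hK1L hx) (hK2L hy) hr0.le (by linarith) (by ring)
    have hDne : D.Nonempty := ((hK1ne.prod hK2ne).image _)
    refine ⟨convexJoin ℝ K1 D, ?_, hK1v.convexJoin hDv, (compact_join hK1c hDc).isClosed, ?_, ?_⟩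
    · exact (convexJoin_mono hK1L hDL).trans (by
        have := hLc.convexHull_eq
        exact (convexJoin_subset_convexHull L L).trans (by rw [union_self, this]))
    · intro hcon
      have heL : e ∈ convexJoin ℝ K1 D := by rw [hcon]; exact extremePoints_subset heX
      have heK1 : e ∈ K1 := by
        obtain ⟨x, hx, d, hd, hxd⟩ := mem_convexJoin.1 heL
        have hes := (mem_extremePoints_iff_forall_segment.1 heX).2 _ (hK1L hx) _ (hDL hd) hxd
        rcases hes with h | h
        · rwa [← h]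
        · obtain ⟨⟨x', y'⟩, ⟨hx', hy'⟩, hxy⟩ := hd
          have h2 := (mem_extremePoints.1 heX).2 _ (hK1L hx') _ (hK2L hy')
            ⟨r, 1 - r, hr0, by linarith, by ring, by rw [← h, ← hxy]⟩
          rw [← h2.1]
          exact hx'
      have h1 : e ∈ K1.extremePoints ℝ :=
        inter_extremePoints_subset_extremePoints_of_subset hK1L ⟨heK1, heX⟩
      exact (milman hAc hK1c h1).2 heO
    · have key : ∀ q ∈ L \ convexJoin ℝ K1 D, q ∈ wBall ω (c n) (3 * ε / 8) := by
        rintro q ⟨hqL, hqn⟩ z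
        obtain ⟨x, hx, y, hy, hxy⟩ := mem_convexJoin.1 (hLJ hqL)
        rw [segment_eq_image] at hxy
        obtain ⟨s, hs, hq⟩ := hxy
        simp only at hq
        -- `q = (1 - s) x + s y`, and `1 - s < r`
        have hsr : 1 - s < r := by
          by_contra hcon
          push Not at hcon
          apply hqn
          refine mem_convexJoin.2 ⟨x, hx, r • x + (1 - r) • y, ⟨(x, y), ⟨hx, hy⟩, rfl⟩, ?_⟩
          rw [segment_eq_image]
          refine ⟨s / (1 - r), ⟨div_nonneg hs.1 (by linarith), ?_⟩, ?_⟩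
          · rw [div_le_one (by linarith)]
            linarith
          · simp only
            rw [← hq]
            have h1 : (1 - r) ≠ 0 := by linarith
            ext w
            simp only [Pi.add_apply, Pi.smul_apply, smul_eq_mul]
            field_simp
            ring
        have h1 : q z - c n z = (1 - s) * (x z - y z) + (y z - c n z) := by
          rw [← hq]
          simp only [Pi.add_apply, Pi.smul_apply, smul_eq_mul]
          ring
        have h2 : |x z - y z| ≤ 2 * |C0| * ω z := by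
          have h3 := hb x (hK1L hx) z
          have h4 := hb y (hK2L hy) z
          have h5 : C0 * ω z ≤ |C0| * ω z := mul_le_mul_of_nonneg_right (le_abs_self _) (hω z)
          have h6 := abs_sub (x z) (y z)
          linarith
        have h3 : |y z - c n z| ≤ ε / 8 * ω z := hBball hy z
        rw [h1]
        refine (abs_add_le _ _).trans ?_
        rw [abs_mul, abs_of_nonneg (by linarith [hs.2] : (0 : ℝ) ≤ 1 - s)]
        have h4 : (1 - s) * |x z - y z| ≤ r * (2 * |C0| * ω z) :=
          mul_le_mul hsr.le h2 (abs_nonneg _) hr0.le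
        have h5 : r * (2 * |C0| * ω z) = (4 * r * |C0|) / 2 * ω z := by ring
        have h6 : (4 * r * |C0|) / 2 * ω z ≤ (ε / 2) / 2 * ω z :=
          mul_le_mul_of_nonneg_right (by linarith) (hω z)
        have h7 : (ε / 2) / 2 * ω z + ε / 8 * ω z = 3 * ε / 8 * ω z := by ring
        linarith
      intro q hq q' hq'
      exact hball2 q q' (3 * ε / 8) (by linarith) (key q hq) (key q' hq')
  · rw [not_nonempty_iff_eq_empty] at hAne
    refine ⟨∅, empty_subset _, convex_empty, isClosed_empty, fun h => ?_, ?_⟩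
    · rw [← h] at hne
      exact not_nonempty_empty hne
    · have hLB : L ⊆ closure (convexHull ℝ B) := by
        rw [← hKM]
        apply closure_mono
        apply convexHull_mono
        intro q hq
        rcases hXAB hq with h | h
        · rw [hAne] at h
          exact absurd h (notMem_empty _)
        · exact h
      intro q hq q' hq'
      exact hball2 q q' (ε / 8) (by linarith) (hBball (hLB hq.1)) (hBball (hLB hq'.1))

end Pool.Agent.V5helper39.BM
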