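import Pool.Agent.V5helper39.BM.Kt
import Pool.Agent.V5helper21.BM.FPH

set_option autoImplicit false

/-! # The invariant mean over the types of weakly null sequences -/

namespace Pool.Agent.V5helper39.BM

open Filter Topology Set

/-- action on pairs (vector, label) -/
@[reducible] def actB (E : Type) [NormedAddCommGroup E] [NormedSpace ℝ E] :
    MulAction (E ≃ₗᵢ[ℝ] E) (E × Bool) where
  smul g p := (g p.1, p.2)
  one_smul _ := rfl
  mul_smul _ _ _ := rfl

section

variable {E : Type} [NormedAddCommGroup E] [NormedSpace ℝ E]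

lemma q24_false (τ : E → ℝ) (v : E) : q24 τ (v, false) = τ v ^ 2 := by simp [q24]
lemma q24_true (τ : E → ℝ) (v : E) : q24 τ (v, true) = τ v ^ 4 := by simp [q24]

lemma q24_continuous : Continuous (q24 : (E → ℝ) → E × Bool → ℝ) := by
  refine continuous_pi fun z => ?_
  obtain ⟨v, b⟩ := z
  cases b
  · simp only [q24_false]; fun_prop
  · simp only [q24_true]; fun_prop

/-- moduli of continuity are inherited by the closed convex hull -/
lemma mod_hull {Z : Type} (D : Z → Z → ℝ) (Q : Set (Z → ℝ))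
    (h : ∀ q ∈ Q, ∀ z z', |q z - q z'| ≤ D z z') :
    ∀ q ∈ closure (convexHull ℝ Q), ∀ z z', |q z - q z'| ≤ D z z' := by
  have hc : IsClosed {q : Z → ℝ | ∀ z z', |q z - q z'| ≤ D z z'} := by
    have : {q : Z → ℝ | ∀ z z', |q z - q z'| ≤ D z z'} =
        ⋂ (z : Z) (z' : Z), {q : Z → ℝ | |q z - q z'| ≤ D z z'} := by
      ext; simp
    rw [this]
    exact isClosed_iInter fun z => isClosed_iInter fun z' =>
      isClosed_le (by fun_prop) continuous_const
  have hv : Convex ℝ {q : Z → ℝ | ∀ z z', |q z - q z'| ≤ D z z'} := by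
    intro q hq q' hq' a b ha hb hab z z'
    have h1 : (a • q + b • q') z - (a • q + b • q') z' = a * (q z - q z') + b * (q' z - q' z') := by
      simp only [Pi.add_apply, Pi.smul_apply, smul_eq_mul]
      ring
    rw [h1]
    refine (abs_add_le _ _).trans ?_
    rw [abs_mul, abs_mul, abs_of_nonneg ha, abs_of_nonneg hb]
    have h2 := mul_le_mul_of_nonneg_left (hq z z') ha
    have h3 := mul_le_mul_of_nonneg_left (hq' z z') hb
    have h4 : a * D z z' + b * D z z' = D z z' := by rw [← add_mul, hab, one_mul]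
    linarith
  intro q hq
  exact closure_minimal (convexHull_min h hv) hc hq

/-- the modulus for squares and fourth powers -/
noncomputable def md (z z' : E × Bool) : ℝ :=
  if z.2 = z'.2 then
    (if z.2 then ‖z.1 - z'.1‖ * (2 + ‖z.1‖ + ‖z'.1‖) * ((1 + ‖z.1‖) ^ 2 + (1 + ‖z'.1‖) ^ 2)
      else ‖z.1 - z'.1‖ * (2 + ‖z.1‖ + ‖z'.1‖))
  else (1 + ‖z.1‖) ^ 4 + (1 + ‖z'.1‖) ^ 4

lemma md_false (v v' : E) : md (v, false) (v', false) = ‖v - v'‖ * (2 + ‖v‖ + ‖v'‖) := by
  simp [md]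
lemma md_true (v v' : E) : md (v, true) (v', true) =
    ‖v - v'‖ * (2 + ‖v‖ + ‖v'‖) * ((1 + ‖v‖) ^ 2 + (1 + ‖v'‖) ^ 2) := by
  simp [md]

lemma q24_bd {τ : E → ℝ} (hτ : τ ∈ KT E) (z : E × Bool) : |q24 τ z| ≤ 1 * om4 E z := by
  obtain ⟨v, b⟩ := z
  have h1 := KT_nonneg hτ v
  have h2 := KT_le hτ v
  have h3 := norm_nonneg v
  rw [one_mul]
  unfold om4
  cases b
  · rw [q24_false, abs_of_nonneg (by positivity)]
    calc τ v ^ 2 ≤ (1 + ‖v‖) ^ 2 := by gcongr
      _ ≤ (1 + ‖v‖) ^ 4 := pow_le_pow_right₀ (by linarith) (by norm_num)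
  · rw [q24_true, abs_of_nonneg (by positivity)]
    gcongr

lemma q24_md {τ : E → ℝ} (hτ : τ ∈ KT E) (z z' : E × Bool) : |q24 τ z - q24 τ z'| ≤ md z z' := by
  obtain ⟨v, b⟩ := z
  obtain ⟨v', b'⟩ := z'
  have h1 := KT_nonneg hτ v
  have h2 := KT_le hτ v
  have h1' := KT_nonneg hτ v'
  have h2' := KT_le hτ v'
  have h3 := KT_lip hτ v v'
  have hsq : |τ v ^ 2 - τ v' ^ 2| ≤ ‖v - v'‖ * (2 + ‖v‖ + ‖v'‖) := by
    have e : τ v ^ 2 - τ v' ^ 2 = (τ v - τ v') * (τ v + τ v') := by ring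
    rw [e, abs_mul, abs_of_nonneg (by positivity : 0 ≤ τ v + τ v')]
    have e2 : τ v + τ v' ≤ 2 + ‖v‖ + ‖v'‖ := by linarith
    exact mul_le_mul h3 e2 (by positivity) (norm_nonneg _)
  cases b <;> cases b'
  · rw [q24_false, q24_false, md_false]
    exact hsq
  · have e1 := q24_bd hτ (v, false)
    have e2 := q24_bd hτ (v', true)
    have e3 : md (v, false) (v', true) = (1 + ‖v‖) ^ 4 + (1 + ‖v'‖) ^ 4 := by simp [md]
    rw [e3]
    refine (abs_sub _ _).trans ?_
    unfold om4 at e1 e2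
    linarith
  · have e1 := q24_bd hτ (v, true)
    have e2 := q24_bd hτ (v', false)
    have e3 : md (v, true) (v', false) = (1 + ‖v‖) ^ 4 + (1 + ‖v'‖) ^ 4 := by simp [md]
    rw [e3]
    refine (abs_sub _ _).trans ?_
    unfold om4 at e1 e2
    linarith
  · rw [q24_true, q24_true, md_true]
    have e : τ v ^ 4 - τ v' ^ 4 = (τ v ^ 2 - τ v' ^ 2) * (τ v ^ 2 + τ v' ^ 2) := by ring
    rw [e, abs_mul, abs_of_nonneg (by positivity : 0 ≤ τ v ^ 2 + τ v' ^ 2)]
    have e2 : τ v ^ 2 + τ v' ^ 2 ≤ (1 + ‖v‖) ^ 2 + (1 + ‖v'‖) ^ 2 := by gcongr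
    exact mul_le_mul hsq e2 (by positivity) (by positivity)

end

theorem t_FIX (hApx : S_APX) : S_FIX := by
  intro E _ _ hT hW hsep
  letI := actB E
  set Q : Set (E × Bool → ℝ) := q24 '' KT E with hQ
  have hQc : IsCompact Q := KT_compact.image q24_continuous
  have hQb : ∀ q ∈ Q, ∀ z, |q z| ≤ 1 * om4 E z := by
    rintro _ ⟨τ, hτ, rfl⟩ z
    exact q24_bd hτ z
  have hω : ∀ z : E × Bool, 0 ≤ om4 E z := fun z => by unfold om4; positivity
  set K : Set (E × Bool → ℝ) := closure (convexHull ℝ Q) with hK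
  have hKw : K ⊆ wBall (om4 E) (fun _ => 0) 1 := by
    refine closure_minimal (convexHull_min ?_ (wBall_convex _ _ _)) (wBall_closed _ _ _)
    intro q hq z
    rw [sub_zero]
    exact hQb q hq z
  have hKb : ∀ q ∈ K, ∀ z, |q z| ≤ 1 * om4 E z := by
    intro q hq z
    have := hKw hq z
    rwa [sub_zero] at this
  have hKc : IsCompact K := V5helper21.BM.compact_of_bd (om4 E) K isClosed_closure 1 hKb
  have hKv : Convex ℝ K := (convex_convexHull ℝ Q).closure
  have hKQ : Q ⊆ K := (subset_convexHull ℝ Q).trans subset_closure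
  have hne : K.Nonempty := by
    obtain ⟨τ, hτ⟩ := hW
    exact ⟨q24 τ, hKQ ⟨τ, subset_closure hτ, rfl⟩⟩
  have hKs : WSep (om4 E) K := haydon (om4 E) hω Q hQc 1 hQb hsep
  have hinv : ∀ g : E ≃ₗᵢ[ℝ] E, ∀ q ∈ K, tr g q ∈ K := by
    intro g q hq
    have hcl : IsClosed {q : E × Bool → ℝ | tr g q ∈ K} := isClosed_closure.preimage (tr_continuous g)
    have hcv : Convex ℝ {q : E × Bool → ℝ | tr g q ∈ K} := by
      intro q hq q' hq' a b ha hb hab
      have h1 : tr g (a • q + b • q') = a • tr g q + b • tr g q' := rfl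
      show tr g (a • q + b • q') ∈ K
      rw [h1]
      exact hKv hq hq' ha hb hab
    refine closure_minimal (convexHull_min ?_ hcv) hcl hq
    rintro _ ⟨τ, hτ, rfl⟩
    refine hKQ ⟨fun v => τ (g v), KT_comp hτ g, ?_⟩
    funext z
    rfl
  obtain ⟨q, hq, hfix⟩ := fixed_point (G := E ≃ₗᵢ[ℝ] E) (om4 E) hω (fun g z => by
    show (1 + ‖g z.1‖) ^ 4 = (1 + ‖z.1‖) ^ 4
    rw [g.norm_map]) K hKc hKv hne hinv 1 hKb hKs
  obtain ⟨e, he⟩ : ∃ e : E, ‖e‖ = 1 := by
    obtain ⟨τ, y, hy, -⟩ := hW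
    exact ⟨y 0, hy 0⟩
  have hrad : ∀ (v : E) (b : Bool), q (v, b) = q (‖v‖ • e, b) := by
    intro v b
    by_cases hv : v = 0
    · rw [hv, norm_zero, zero_smul]
    · have hn : 0 < ‖v‖ := norm_pos_iff.2 hv
      obtain ⟨T, hT'⟩ := hT e (‖v‖⁻¹ • v) he
        (by rw [norm_smul, norm_inv, norm_norm, inv_mul_cancel₀ hn.ne'])
      have h1 : T (‖v‖ • e) = v := by
        rw [map_smul, hT', smul_smul, mul_inv_cancel₀ hn.ne', one_smul]
      have h2 := congrFun (hfix T) (‖v‖ • e, b)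
      have h3 : tr T q (‖v‖ • e, b) = q (T (‖v‖ • e), b) := rfl
      rw [h3, h1] at h2
      exact h2
  have hmd := mod_hull md Q (by
    rintro _ ⟨τ, hτ, rfl⟩ z z'
    exact q24_md hτ z z') q hq
  have hcf : Continuous fun v : E => q (v, false) := by
    refine continuous_iff_continuousAt.2 fun v => ?_
    refine tendsto_iff_norm_sub_tendsto_zero.2 (squeeze_zero (fun _ => norm_nonneg _)
      (fun v' => (Real.norm_eq_abs _).le.trans (hmd (v', false) (v, false))) ?_)
    have h1 : Continuous fun v' : E => ‖v' - v‖ * (2 + ‖v'‖ + ‖v‖) := by fun_prop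
    have h2 := h1.tendsto v
    simp only [sub_self, norm_zero, zero_mul] at h2
    exact h2.congr fun v' => (md_false v' v).symm
  have hct : Continuous fun v : E => q (v, true) := by
    refine continuous_iff_continuousAt.2 fun v => ?_
    refine tendsto_iff_norm_sub_tendsto_zero.2 (squeeze_zero (fun _ => norm_nonneg _)
      (fun v' => (Real.norm_eq_abs _).le.trans (hmd (v', true) (v, true))) ?_)
    have h1 : Continuous fun v' : E => ‖v' - v‖ * (2 + ‖v'‖ + ‖v‖) *
      ((1 + ‖v'‖) ^ 2 + (1 + ‖v‖) ^ 2) := by fun_prop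
    have h2 := h1.tendsto v
    simp only [sub_self, norm_zero, zero_mul] at h2
    exact h2.congr fun v' => (md_true v' v).symm
  have hsq : Continuous fun ρ : ℝ => √ρ • e := by fun_prop
  refine ⟨fun ρ => q (√ρ • e, false), fun ρ => q (√ρ • e, true),
    (hcf.comp hsq).continuousOn, (hct.comp hsq).continuousOn, fun δ hδ => ?_⟩
  obtain ⟨N, w, p, hw, hw1, hp, hap⟩ := hApx (E × Bool) (om4 E) hω Q hQc 1 hQb hsep q hq δ hδ
  choose τ hτ hτp using hp
  refine ⟨N, w, τ, hw, hw1, hτ, fun v => ?_, fun v => ?_⟩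
  · have h1 := hap (v, false)
    rw [hrad] at h1
    simp only [Real.sqrt_sq (norm_nonneg v)]
    refine (le_of_eq ?_).trans h1
    congr 2
    refine Finset.sum_congr rfl fun i _ => ?_
    rw [← hτp i, q24_false]
  · have h1 := hap (v, true)
    rw [hrad] at h1
    simp only [Real.sqrt_sq (norm_nonneg v)]
    refine (le_of_eq ?_).trans h1
    congr 2
    refine Finset.sum_congr rfl fun i _ => ?_
    rw [← hτp i, q24_true]

end Pool.Agent.V5helper39.BM
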