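import Pool.Agent.V5helper39.BM.Dent

set_option autoImplicit false

namespace Pool.Agent.V5helper39.BM

open Set Filter Topology

/-- A continuous linear map leaving a compact convex set of functions invariant has a fixed
point in it. -/
lemma affine_fixed {Z : Type*} (T : (Z → ℝ) →L[ℝ] (Z → ℝ)) (K : Set (Z → ℝ)) (hK : IsCompact K)
    (hKc : Convex ℝ K) (hne : K.Nonempty) (hinv : ∀ q ∈ K, T q ∈ K) (D : Z → ℝ)
    (hb : ∀ q ∈ K, ∀ z, |q z| ≤ D z) : ∃ q ∈ K, T q = q := by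
  obtain ⟨x, hx⟩ := hne
  have hit : ∀ k : ℕ, (T ^ k) x ∈ K := by
    intro k
    induction k with
    | zero => simpa using hx
    | succ k ih =>
      rw [pow_succ']
      exact hinv _ ih
  set a : ℕ → Z → ℝ := fun n => ∑ k ∈ Finset.range (n + 1), ((n : ℝ) + 1)⁻¹ • (T ^ k) x with ha
  have haK : ∀ n, a n ∈ K := by
    intro n
    refine hKc.sum_mem (fun _ _ => by positivity) ?_ (fun k _ => hit k)
    rw [Finset.sum_const, Finset.card_range]
    simp
    field_simp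
  obtain ⟨y, hyK, hy⟩ := hK.ultrafilter_le_nhds (Ultrafilter.map a (hyperfilter ℕ)) (by
    rw [le_principal_iff]
    exact Filter.mem_of_superset (f := (hyperfilter ℕ : Filter ℕ)) univ_mem (fun n _ => haK n))
  have hy' : Tendsto a (hyperfilter ℕ : Ultrafilter ℕ) (𝓝 y) := hy
  refine ⟨y, hyK, ?_⟩
  have h1 : Tendsto (fun n => T (a n)) (hyperfilter ℕ : Ultrafilter ℕ) (𝓝 (T y)) :=
    (T.continuous.tendsto y).comp hy'
  have h2 : Tendsto (fun n => T (a n) - a n) (hyperfilter ℕ : Ultrafilter ℕ) (𝓝 (T y - y)) :=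
    h1.sub hy'
  have h3 : ∀ n, T (a n) - a n = ((n : ℝ) + 1)⁻¹ • ((T ^ (n + 1)) x - x) := by
    intro n
    have e1 : T (a n) = ∑ k ∈ Finset.range (n + 1), ((n : ℝ) + 1)⁻¹ • (T ^ (k + 1)) x := by
      rw [ha]
      simp only [map_sum, map_smul]
      refine Finset.sum_congr rfl fun k _ => ?_
      rw [pow_succ']
      rfl
    rw [e1]
    rw [ha]
    simp only
    rw [← Finset.sum_sub_distrib]
    have e2 : ∀ k ∈ Finset.range (n + 1), ((n : ℝ) + 1)⁻¹ • (T ^ (k + 1)) x -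
        ((n : ℝ) + 1)⁻¹ • (T ^ k) x =
        (fun k => ((n : ℝ) + 1)⁻¹ • (T ^ k) x) (k + 1) - (fun k => ((n : ℝ) + 1)⁻¹ • (T ^ k) x) k :=
      fun k _ => rfl
    rw [Finset.sum_congr rfl e2,
      Finset.sum_range_sub (fun k => ((n : ℝ) + 1)⁻¹ • (T ^ k) x) (n + 1)]
    simp [smul_sub]
  have h4 : Tendsto (fun n => T (a n) - a n) (hyperfilter ℕ : Ultrafilter ℕ) (𝓝 0) := by
    have h5 : Tendsto (fun n => T (a n) - a n) atTop (𝓝 0) := by
      rw [tendsto_pi_nhds]
      intro z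
      have h6 : ∀ n, |(T (a n) - a n) z| ≤ (2 * D z) * (1 / ((n : ℝ) + 1)) := by
        intro n
        rw [h3]
        simp only [Pi.smul_apply, Pi.sub_apply, smul_eq_mul]
        rw [abs_mul, abs_of_nonneg (by positivity : (0 : ℝ) ≤ ((n : ℝ) + 1)⁻¹)]
        have e3 : |((T ^ (n + 1)) x) z - x z| ≤ 2 * D z := by
          refine (abs_sub _ _).trans ?_
          have := hb _ (hit (n + 1)) z
          have := hb _ hx z
          linarith
        calc ((n : ℝ) + 1)⁻¹ * |((T ^ (n + 1)) x) z - x z| ≤ ((n : ℝ) + 1)⁻¹ * (2 * D z) := by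
              gcongr
          _ = (2 * D z) * (1 / ((n : ℝ) + 1)) := by rw [one_div]; ring
      have h7 : Tendsto (fun n : ℕ => (2 * D z) * (1 / ((n : ℝ) + 1))) atTop (𝓝 0) := by
        have := (tendsto_one_div_add_atTop_nhds_zero_nat (𝕜 := ℝ)).const_mul (2 * D z)
        simpa using this
      exact squeeze_zero_norm h6 h7
    refine h5.mono_left ?_
    rw [← Nat.cofinite_eq_atTop]
    exact hyperfilter_le_cofinite
  have h5 : T y - y = 0 := tendsto_nhds_unique h2 h4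
  exact sub_eq_zero.1 h5

section action

variable {Z G : Type*} [Group G] [MulAction G Z]

/-- translation of functions -/
def tr (g : G) (q : Z → ℝ) : Z → ℝ := fun z => q (g • z)

@[simp] lemma tr_apply (g : G) (q : Z → ℝ) (z : Z) : tr g q z = q (g • z) := rfl

/-- translation as a continuous linear map -/
def trL (g : G) : (Z → ℝ) →L[ℝ] (Z → ℝ) where
  toFun q := tr g q
  map_add' _ _ := rfl
  map_smul' _ _ := rfl
  cont := by
    refine continuous_pi fun z => ?_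
    exact continuous_apply (g • z)

lemma tr_continuous (g : G) : Continuous (tr g : (Z → ℝ) → (Z → ℝ)) := (trL g).continuous

lemma tr_tr (g h : G) (q : Z → ℝ) : tr h (tr g q) = tr (g * h) q := by
  ext z; simp [mul_smul]

theorem fixed_finite (ω : Z → ℝ) (hω : ∀ z, 0 ≤ ω z) (hωi : ∀ (g : G) z, ω (g • z) = ω z)
    (K : Set (Z → ℝ)) (hK : IsCompact K)
    (hKc : Convex ℝ K) (hne : K.Nonempty) (hinv : ∀ g : G, ∀ q ∈ K, tr g q ∈ K) (C0 : ℝ)
    (hb : ∀ q ∈ K, ∀ z, |q z| ≤ C0 * ω z) (hsep : WSep ω K) (F : Finset G) :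
    ∃ q ∈ K, ∀ g ∈ F, tr g q = q := by
  classical
  rcases F.eq_empty_or_nonempty with hF | hF
  · obtain ⟨q, hq⟩ := hne
    exact ⟨q, hq, by simp [hF]⟩
  have hFc : (0 : ℝ) < (F.card : ℝ) := by exact_mod_cast hF.card_pos
  set T : (Z → ℝ) →L[ℝ] (Z → ℝ) := (F.card : ℝ)⁻¹ • ∑ g ∈ F, trL g with hT
  have hTq : ∀ q, T q = ∑ g ∈ F, (F.card : ℝ)⁻¹ • tr g q := by
    intro q
    rw [hT]
    simp only [ContinuousLinearMap.smul_apply, ContinuousLinearMap.sum_apply, Finset.smul_sum]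
    rfl
  obtain ⟨q, hqK, hq⟩ := affine_fixed T K hK hKc hne (by
    intro q hq
    rw [hTq]
    refine hKc.sum_mem (fun _ _ => by positivity) ?_ (fun g _ => hinv g q hq)
    rw [Finset.sum_const]
    simp
    field_simp) (fun z => C0 * ω z) hb
  refine ⟨q, hqK, ?_⟩
  by_contra hcon
  push Not at hcon
  obtain ⟨g₀, hg₀F, hg₀⟩ := hcon
  set F' := F.filter (fun g => tr g q ≠ q) with hF'
  have hF'ne : F'.Nonempty := ⟨g₀, Finset.mem_filter.2 ⟨hg₀F, hg₀⟩⟩
  have hF'c : (0 : ℝ) < (F'.card : ℝ) := by exact_mod_cast hF'ne.card_pos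
  -- average over the moving elements
  have hsum : ∑ g ∈ F, (tr g q - q) = 0 := by
    have h1 : ∑ g ∈ F, tr g q = (F.card : ℝ) • q := by
      have h2 := hTq q
      rw [hq, ← Finset.smul_sum] at h2
      conv_rhs => rw [h2]
      rw [smul_smul, mul_inv_cancel₀ hFc.ne', one_smul]
    rw [Finset.sum_sub_distrib, h1, Finset.sum_const, Nat.cast_smul_eq_nsmul, sub_self]
  have hsum' : ∑ g ∈ F', (tr g q - q) = 0 := by
    rw [← hsum, hF', Finset.sum_filter]
    refine Finset.sum_congr rfl fun g _ => ?_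
    by_cases h : tr g q = q
    · simp [h]
    · simp [h]
  have havg : q = ∑ g ∈ F', (F'.card : ℝ)⁻¹ • tr g q := by
    rw [Finset.sum_sub_distrib, Finset.sum_const, ← Nat.cast_smul_eq_nsmul ℝ] at hsum'
    rw [← Finset.smul_sum, sub_eq_zero.1 hsum', smul_smul, inv_mul_cancel₀ hF'c.ne', one_smul]
  -- the gap
  have hgap : ∀ g ∈ F', ∃ ε : ℝ, 0 < ε ∧ ∃ z, ε * ω z < |q (g • z) - q z| := by
    intro g hg
    have h1 := (Finset.mem_filter.1 hg).2
    obtain ⟨z, hz⟩ : ∃ z, tr g q z ≠ q z := by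
      by_contra hh
      push Not at hh
      exact h1 (funext hh)
    have h2 : 0 < |q (g • z) - q z| := abs_pos.2 (sub_ne_zero.2 hz)
    refine ⟨|q (g • z) - q z| / (2 * (ω z + 1)), by have := hω z; positivity, z, ?_⟩
    have h3 := hω z
    have h4 : |q (g • z) - q z| / (2 * (ω z + 1)) * ω z
        = |q (g • z) - q z| * (ω z / (2 * (ω z + 1))) := by ring
    have h5 : ω z / (2 * (ω z + 1)) < 1 := by
      rw [div_lt_one (by positivity)]
      linarith
    rw [h4]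
    calc |q (g • z) - q z| * (ω z / (2 * (ω z + 1))) < |q (g • z) - q z| * 1 :=
          mul_lt_mul_of_pos_left h5 h2
      _ = _ := mul_one _
  choose! e he0 hez using hgap
  obtain ⟨gm, hgm, hmin⟩ := Finset.exists_min_image F' e hF'ne
  have hε := he0 gm hgm
  set ε := e gm with hεd
  -- the hull of the orbit
  set S : Set (Z → ℝ) := {p | ∃ h : G, p = tr h q} with hS
  set L : Set (Z → ℝ) := closure (convexHull ℝ S) with hL
  have hSK : S ⊆ K := by
    rintro _ ⟨h, rfl⟩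
    exact hinv h q hqK
  have hLK : L ⊆ K := closure_minimal (convexHull_min hSK hKc) hK.isClosed
  have hSL : S ⊆ L := (subset_convexHull ℝ S).trans subset_closure
  obtain ⟨C, hCL, hCv, hCc, hCne, hCs⟩ := dent ω hω L
    (hK.of_isClosed_subset isClosed_closure hLK) (convex_convexHull ℝ S).closure
    ⟨q, hSL ⟨1, by ext z; simp⟩⟩ C0 (fun q hq => hb q (hLK hq)) (hsep.mono hLK) ε hε
  obtain ⟨h, hh⟩ : ∃ h : G, tr h q ∉ C := by
    by_contra hcon
    push Not at hcon
    apply hCne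
    refine Subset.antisymm hCL (closure_minimal (convexHull_min ?_ hCv) hCc)
    rintro _ ⟨h, rfl⟩
    exact hcon h
  have hh2 : tr h q = ∑ g ∈ F', (F'.card : ℝ)⁻¹ • tr h (tr g q) := by
    have h1 : trL h q = ∑ g ∈ F', (F'.card : ℝ)⁻¹ • trL h (tr g q) := by
      conv_lhs => rw [havg]
      simp only [map_sum, map_smul]
    exact h1
  obtain ⟨g, hg, hgC⟩ : ∃ g ∈ F', tr h (tr g q) ∉ C := by
    by_contra hcon
    push Not at hcon
    apply hh
    rw [hh2]
    refine hCv.sum_mem (fun _ _ => inv_nonneg.2 hF'c.le) ?_ (fun g hg => hcon g hg)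
    rw [Finset.sum_const, ← Nat.cast_smul_eq_nsmul ℝ, smul_eq_mul, mul_inv_cancel₀ hF'c.ne']
  obtain ⟨z, hz⟩ := hez g hg
  have h1 := hCs (tr h (tr g q)) ⟨hSL ⟨g * h, tr_tr g h q⟩, hgC⟩ (tr h q) ⟨hSL ⟨h, rfl⟩, hh⟩
    (h⁻¹ • z)
  simp only [tr_apply, smul_inv_smul, hωi] at h1
  have h2 : ε * ω z ≤ e g * ω z := mul_le_mul_of_nonneg_right (hmin g hg) (hω z)
  linarith

/-- **Fixed point theorem** (Ryll-Nardzewski type): an isometric action on a compact convex set
of functions that is separable for a weighted sup-norm. -/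
theorem fixed_point (ω : Z → ℝ) (hω : ∀ z, 0 ≤ ω z) (hωi : ∀ (g : G) z, ω (g • z) = ω z)
    (K : Set (Z → ℝ)) (hK : IsCompact K)
    (hKc : Convex ℝ K) (hne : K.Nonempty) (hinv : ∀ g : G, ∀ q ∈ K, tr g q ∈ K) (C0 : ℝ)
    (hb : ∀ q ∈ K, ∀ z, |q z| ≤ C0 * ω z) (hsep : WSep ω K) :
    ∃ q ∈ K, ∀ g : G, tr g q = q := by
  have h1 : (K ∩ ⋂ g : G, {q : Z → ℝ | tr g q = q}).Nonempty := by
    refine hK.inter_iInter_nonempty _ (fun g => isClosed_eq (tr_continuous g) continuous_id) ?_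
    intro F
    obtain ⟨q, hq, hqF⟩ := fixed_finite ω hω hωi K hK hKc hne hinv C0 hb hsep F
    exact ⟨q, hq, mem_iInter₂.2 fun g hg => hqF g hg⟩
  obtain ⟨q, hq, hqF⟩ := h1
  exact ⟨q, hq, fun g => mem_iInter.1 hqF g⟩

end action

end Pool.Agent.V5helper39.BM
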