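import Pool.Agent.V5helper39.BM.Taylor

set_option autoImplicit false

namespace Pool.Agent.V5helper39.BM

open Filter Topology Asymptotics Set

section

variable {E : Type} [NormedAddCommGroup E] [NormedSpace ℝ E] {f : E → E →L[ℝ] ℝ}
  {A : E → E →L[ℝ] E →L[ℝ] ℝ} {c C : ℝ}

/-- uniqueness of the expansion in one direction -/
lemma exp_unique (hA : HF E f A c C) {x w : E} (hx : ‖x‖ = 1) {a b : ℝ}
    (h : (fun t : ℝ => ‖x + t • w‖ ^ 2 - 1 - t * a - t ^ 2 * b) =o[𝓝 0] fun t : ℝ => t ^ 2) :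
    a = 2 * f x w ∧ b = A x w w := by
  have h1 := (hA.exp x hx w).sub h
  have h2 : (fun t : ℝ => (a - 2 * f x w) * t + (b - A x w w) * t ^ 2) =o[𝓝 0]
      fun t : ℝ => t ^ 2 := by
    refine h1.congr_left fun t => ?_
    ring
  obtain ⟨e1, e2⟩ := coef_zero h2
  constructor <;> linarith

/-- a field which satisfies the expansions is the Hessian field -/
lemma field_unique (hA : HF E f A c C) {f' : E → E →L[ℝ] ℝ} {A' : E → E →L[ℝ] E →L[ℝ] ℝ}
    (hs : ∀ x, ‖x‖ = 1 → ∀ v w, A' x v w = A' x w v)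
    (he : ∀ x, ‖x‖ = 1 → ∀ w, (fun t : ℝ => ‖x + t • w‖ ^ 2 - 1 - 2 * t * f' x w -
      t ^ 2 * A' x w w) =o[𝓝 0] fun t : ℝ => t ^ 2) :
    ∀ x, ‖x‖ = 1 → A' x = A x ∧ f' x = f x := by
  intro x hx
  have h1 : ∀ w, 2 * f' x w = 2 * f x w ∧ A' x w w = A x w w := by
    intro w
    refine exp_unique hA hx ?_
    refine (he x hx w).congr_left fun t => ?_
    ring
  constructor
  · ext v w
    have h2 := (h1 (v + w)).2
    have h3 := (h1 v).2
    have h4 := (h1 w).2
    simp only [map_add, ContinuousLinearMap.add_apply] at h2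
    have h5 := hs x hx v w
    have h6 := hA.symm x hx v w
    linarith
  · ext w
    have := (h1 w).1
    linarith

end

theorem t_FRE : S_FRE := by
  intro E _ _ f A c C hA hT hB ε hε
  obtain ⟨e, φ, B, he, hB⟩ := hB
  -- identification
  have hid : ∀ w, φ w = 2 * f e w ∧ B w w = A e w w := by
    intro w
    refine exp_unique hA he ?_
    have ht : Tendsto (fun t : ℝ => t • w) (𝓝 0) (𝓝 0) := by
      have : Tendsto (fun t : ℝ => t • w) (𝓝 0) (𝓝 ((0 : ℝ) • w)) :=
        tendsto_id.smul_const w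
      rwa [zero_smul] at this
    have h1 := hB.comp_tendsto ht
    have h2 : (fun t : ℝ => ‖e + t • w‖ ^ 2 - 1 - t * φ w - t ^ 2 * B w w) =
        (fun v : E => ‖e + v‖ ^ 2 - 1 - φ v - B v v) ∘ fun t : ℝ => t • w := by
      funext t
      simp only [Function.comp, map_smul, ContinuousLinearMap.smul_apply, smul_eq_mul]
      ring
    rw [h2]
    refine h1.trans_isBigO ?_
    refine IsBigO.of_bound (‖w‖ ^ 2) (Eventually.of_forall fun t => ?_)
    simp only [Function.comp]
    rw [norm_smul, mul_pow, norm_mul, norm_pow, norm_norm, norm_pow, norm_norm, norm_pow]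
    rw [mul_comm]
  obtain ⟨δ, hδ, hd⟩ := Metric.eventually_nhds_iff.1 (hB.def hε)
  refine ⟨δ / 2, by positivity, ?_⟩
  intro x hx v hv
  obtain ⟨T, hT⟩ := hT e x he hx
  obtain ⟨w, rfl⟩ : ∃ w, T w = v := T.surjective v
  have hw : ‖w‖ ≤ δ / 2 := by rwa [T.norm_map] at hv
  have h1 := hd (y := w) (by rw [dist_zero_right]; linarith)
  rw [(hid w).1, (hid w).2, Real.norm_eq_abs, Real.norm_eq_abs, abs_of_nonneg (sq_nonneg ‖w‖)] at h1
  have h2 : ‖x + T w‖ = ‖e + w‖ := by rw [← hT, ← map_add, T.norm_map]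
  have h3 : A x (T w) (T w) = A e w w := by rw [← hT]; exact hA.equi e he T w w
  have h4 : 2 * f e w = 2 * f x (T w) := by
    have h5 : ‖x‖ = 1 := hx
    refine (exp_unique hA (x := x) (w := T w) (b := A x (T w) (T w)) hx ?_).1
    refine (hA.exp e he w).congr_left fun t => ?_
    have h6 : ‖x + t • T w‖ = ‖e + t • w‖ := by
      rw [← hT, ← map_smul, ← map_add, T.norm_map]
    rw [h6, h3]
    ring
  rw [h2, h3, ← h4, T.norm_map]
  exact h1

end Pool.Agent.V5helper39.BM
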