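import Mathlib.MeasureTheory.Measure.Prokhorov
import Pool.Agent.V5helper39.BM.Dent

set_option autoImplicit false

namespace Pool.Agent.V5helper39.BM

open Set Filter Topology MeasureTheory

section bary

variable {Z : Type*} {Q : Set (Z → ℝ)}

/-- evaluation at `z` on a compact set of functions -/
noncomputable def evb (hQ : IsCompact Q) (z : Z) : BoundedContinuousFunction Q ℝ :=
  haveI : CompactSpace Q := isCompact_iff_compactSpace.1 hQ
  BoundedContinuousFunction.mkOfCompact ⟨fun p => (p : Z → ℝ) z,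
    (continuous_apply z).comp continuous_subtype_val⟩

lemma evb_apply (hQ : IsCompact Q) (z : Z) (p : Q) : evb hQ z p = (p : Z → ℝ) z := rfl

variable [MeasurableSpace Q] [BorelSpace Q]

/-- every point of the closed convex hull of a compact set is the barycentre of a probability
measure on the set -/
lemma exists_bary (hQ : IsCompact Q) (q : Z → ℝ) (hq : q ∈ closure (convexHull ℝ Q)) :
    ∃ μ : ProbabilityMeasure Q, ∀ z, q z = ∫ p, (p : Z → ℝ) z ∂(μ : Measure Q) := by
  haveI : CompactSpace Q := isCompact_iff_compactSpace.1 hQ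
  set Φ : ProbabilityMeasure Q → (Z → ℝ) := fun μ z => ∫ p, (p : Z → ℝ) z ∂(μ : Measure Q) with hΦ
  have hcont : Continuous Φ := by
    refine continuous_pi fun z => ?_
    have h1 := (ProbabilityMeasure.continuous_integral_boundedContinuousFunction (evb hQ z))
    exact h1
  have hcl : IsClosed (range Φ) := (isCompact_range hcont).isClosed
  have hint : ∀ (μ : ProbabilityMeasure Q) (z : Z),
      Integrable (fun p : Q => (p : Z → ℝ) z) (μ : Measure Q) := by
    intro μ z
    exact (evb hQ z).integrable _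
  have hconv : Convex ℝ (range Φ) := by
    rintro _ ⟨μ, rfl⟩ _ ⟨ν, rfl⟩ a b ha hb hab
    have hp : IsProbabilityMeasure (ENNReal.ofReal a • (μ : Measure Q) +
        ENNReal.ofReal b • (ν : Measure Q)) := by
      constructor
      simp only [Measure.coe_add, Measure.coe_smul, Pi.add_apply, Pi.smul_apply, measure_univ,
        smul_eq_mul, mul_one]
      rw [← ENNReal.ofReal_add ha hb, hab, ENNReal.ofReal_one]
    refine ⟨⟨_, hp⟩, ?_⟩
    ext z
    simp only [hΦ, ProbabilityMeasure.coe_mk, Pi.add_apply, Pi.smul_apply, smul_eq_mul]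
    rw [integral_add_measure, integral_smul_measure, integral_smul_measure,
      ENNReal.toReal_ofReal ha, ENNReal.toReal_ofReal hb]
    · rfl
    · exact (hint μ z).smul_measure ENNReal.ofReal_ne_top
    · exact (hint ν z).smul_measure ENNReal.ofReal_ne_top
  have hsub : Q ⊆ range Φ := by
    intro p hp
    refine ⟨⟨Measure.dirac (⟨p, hp⟩ : Q), inferInstance⟩, ?_⟩
    ext z
    simp only [hΦ, ProbabilityMeasure.coe_mk]
    rw [integral_dirac]
  obtain ⟨μ, hμ⟩ := closure_minimal (convexHull_min hsub hconv) hcl hq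
  exact ⟨μ, fun z => by rw [← hμ]⟩

end bary

/-- **Haydon's lemma**: the closed convex hull of a compact set that is separable for the
weighted sup-norm is again separable. -/
theorem haydon {Z : Type*} (ω : Z → ℝ) (hω : ∀ z, 0 ≤ ω z) (Q : Set (Z → ℝ)) (hQ : IsCompact Q)
    (C0 : ℝ) (hb : ∀ q ∈ Q, ∀ z, |q z| ≤ C0 * ω z) (hsep : WSep ω Q) :
    WSep ω (closure (convexHull ℝ Q)) := by
  classical
  rcases Q.eq_empty_or_nonempty with hQe | hQe
  · subst hQe
    intro δ _
    refine ⟨fun _ _ => 0, ?_⟩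
    intro q hq
    simp at hq
  obtain ⟨q₀, hq₀⟩ := hQe
  intro δ hδ
  obtain ⟨c₀, hc₀⟩ := hsep (δ / 4) (by positivity)
  -- centres in `Q`
  set c : ℕ → Z → ℝ := fun n => if h : (Q ∩ wBall ω (c₀ n) (δ / 4)).Nonempty then h.choose else q₀
    with hcd
  have hcQ : ∀ n, c n ∈ Q := by
    intro n
    simp only [hcd]
    split_ifs with h
    · exact h.choose_spec.1
    · exact hq₀
  have hcov : ∀ q ∈ Q, ∃ n, q ∈ wBall ω (c n) (δ / 2) := by
    intro q hq
    obtain ⟨n, hn⟩ := hc₀ q hq
    refine ⟨n, fun z => ?_⟩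
    have h : (Q ∩ wBall ω (c₀ n) (δ / 4)).Nonempty := ⟨q, hq, hn⟩
    have h1 : c n = h.choose := by simp only [hcd]; rw [dif_pos h]
    have h2 : c n ∈ wBall ω (c₀ n) (δ / 4) := by rw [h1]; exact h.choose_spec.2
    have h3 : q z - c n z = (q z - c₀ n z) - (c n z - c₀ n z) := by ring
    rw [h3]
    refine (abs_sub _ _).trans ?_
    have h4 := hn z
    have h5 := h2 z
    linarith
  haveI : CompactSpace Q := isCompact_iff_compactSpace.1 hQ
  letI : MeasurableSpace Q := borel Q
  haveI : BorelSpace Q := ⟨rfl⟩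
  obtain ⟨en, hen⟩ := exists_surjective_nat (Σ N : ℕ, (Fin N → ℚ))
  refine ⟨fun k z => ∑ i : Fin (en k).1, ((en k).2 i : ℝ) * c i z, ?_⟩
  intro q hq
  obtain ⟨μ, hμ⟩ := exists_bary hQ q hq
  -- the sets
  set Acc : ℕ → Set Q := fun N => {p | ∃ n < N, (p : Z → ℝ) ∈ wBall ω (c n) (δ / 2)} with hAcc
  have hAccm : ∀ N, MeasurableSet (Acc N) := by
    intro N
    have h1 : Acc N = ⋃ n ∈ Finset.range N, Subtype.val ⁻¹' (wBall ω (c n) (δ / 2)) := by
      ext p
      simp [hAcc]
    rw [h1]
    refine Finset.measurableSet_biUnion _ fun n _ => ?_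
    exact ((wBall_closed ω (c n) (δ / 2)).preimage continuous_subtype_val).measurableSet
  set B : ℕ → Set Q := fun N => Acc (N + 1) \ Acc N with hB
  have hBm : ∀ N, MeasurableSet (B N) := fun N => (hAccm _).diff (hAccm _)
  have hmono : Monotone Acc := by
    intro M N hMN p hp
    obtain ⟨n, hn, h⟩ := hp
    exact ⟨n, hn.trans_le hMN, h⟩
  have hAccS : ∀ N, Acc (N + 1) = Acc N ∪ B N := fun N =>
    (union_diff_cancel (hmono (Nat.le_succ N))).symm
  have hdisj : ∀ N, Disjoint (Acc N) (B N) := fun N => disjoint_sdiff_right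
  have hBball : ∀ N, ∀ p ∈ B N, (p : Z → ℝ) ∈ wBall ω (c N) (δ / 2) := by
    rintro N p ⟨⟨n, hn, hp⟩, hp2⟩
    rcases Nat.lt_succ_iff_lt_or_eq.1 hn with h | h
    · exact absurd ⟨n, h, hp⟩ hp2
    · rwa [h] at hp
  have hint : ∀ (z : Z), Integrable (fun p : Q => (p : Z → ℝ) z) (μ : Measure Q) := by
    intro z
    exact (evb hQ z).integrable _
  -- main estimate
  have hmain : ∀ N z, |∫ p in Acc N, (p : Z → ℝ) z ∂(μ : Measure Q) -
      ∑ i : Fin N, (μ : Measure Q).real (B i) * c i z| ≤ δ / 2 * ω z * (μ : Measure Q).real (Acc N) := by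
    intro N z
    induction N with
    | zero =>
      have : Acc 0 = ∅ := by ext p; simp [hAcc]
      simp [this]
    | succ N ih =>
      rw [Fin.sum_univ_castSucc]
      simp only [Fin.val_castSucc, Fin.val_last]
      rw [hAccS N, setIntegral_union (hdisj N) (hBm N) (hint z).integrableOn
        (hint z).integrableOn, measureReal_union (hdisj N) (hBm N)]
      have h1 : ∫ p in B N, (p : Z → ℝ) z ∂(μ : Measure Q) - (μ : Measure Q).real (B N) * c N z
          = ∫ p in B N, ((p : Z → ℝ) z - c N z) ∂(μ : Measure Q) := by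
        rw [integral_sub (hint z).integrableOn (integrable_const _), setIntegral_const,
          smul_eq_mul]
      have h2 : |∫ p in B N, ((p : Z → ℝ) z - c N z) ∂(μ : Measure Q)| ≤
          δ / 2 * ω z * (μ : Measure Q).real (B N) := by
        rw [← Real.norm_eq_abs]
        refine norm_setIntegral_le_of_norm_le_const (measure_lt_top _ _) ?_
        intro p hp
        exact hBball N p hp z
      have h3 : ∫ p in Acc N, (p : Z → ℝ) z ∂(μ : Measure Q) +
          ∫ p in B N, (p : Z → ℝ) z ∂(μ : Measure Q) -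
          (∑ i : Fin N, (μ : Measure Q).real (B i) * c i z + (μ : Measure Q).real (B N) * c N z)
          = (∫ p in Acc N, (p : Z → ℝ) z ∂(μ : Measure Q) -
          ∑ i : Fin N, (μ : Measure Q).real (B i) * c i z) +
          ∫ p in B N, ((p : Z → ℝ) z - c N z) ∂(μ : Measure Q) := by
        rw [← h1]; ring
      rw [h3]
      refine (abs_add_le _ _).trans ?_
      have h4 := add_le_add ih h2
      refine h4.trans (le_of_eq ?_)
      ring
  -- choice of `N`
  obtain ⟨η, hη0, hη⟩ : ∃ η : ℝ, 0 < η ∧ η * |C0| ≤ δ / 4 := by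
    refine ⟨δ / (4 * (|C0| + 1)), by positivity, ?_⟩
    calc δ / (4 * (|C0| + 1)) * |C0| = δ / 4 * (|C0| / (|C0| + 1)) := by field_simp
      _ ≤ δ / 4 * 1 := by
        gcongr
        rw [div_le_one (by positivity)]
        linarith
      _ = δ / 4 := mul_one _
  have hlim : Tendsto (fun N => (μ : Measure Q).real (Acc N)) atTop (𝓝 1) := by
    have h1 : Tendsto (fun N => (μ : Measure Q) (Acc N)) atTop (𝓝 ((μ : Measure Q) (⋃ N, Acc N))) :=
      tendsto_measure_iUnion_atTop hmono
    have h2 : (⋃ N, Acc N) = univ := by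
      ext p
      simp only [mem_iUnion, mem_univ, iff_true]
      obtain ⟨n, hn⟩ := hcov p p.2
      exact ⟨n + 1, n, Nat.lt_succ_self n, hn⟩
    rw [h2, measure_univ] at h1
    exact (ENNReal.tendsto_toReal ENNReal.one_ne_top).comp h1
  obtain ⟨N, hN⟩ := ((hlim.eventually (lt_mem_nhds (show (1 - η : ℝ) < 1 by linarith)))).exists
  -- rational weights
  have hrat : ∀ i : Fin N, ∃ r : ℚ, |(μ : Measure Q).real (B i) - r| < η / (N + 1) :=
    fun i => exists_rat_near _ (by positivity)
  choose r hr using hrat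
  obtain ⟨k, hk⟩ := hen ⟨N, r⟩
  refine ⟨k, ?_⟩
  intro z
  show |q z - ∑ i : Fin (en k).1, ((en k).2 i : ℝ) * c i z| ≤ δ * ω z
  rw [hk]
  show |q z - ∑ i : Fin N, (r i : ℝ) * c i z| ≤ δ * ω z
  have e1 : |∫ p in (Acc N)ᶜ, (p : Z → ℝ) z ∂(μ : Measure Q)| ≤ |C0| * ω z * η := by
    rw [← Real.norm_eq_abs]
    have h1 : ‖∫ p in (Acc N)ᶜ, (p : Z → ℝ) z ∂(μ : Measure Q)‖ ≤
        |C0| * ω z * (μ : Measure Q).real (Acc N)ᶜ := by
      refine norm_setIntegral_le_of_norm_le_const (measure_lt_top _ _) ?_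
      intro p _
      refine (hb p p.2 z).trans ?_
      exact mul_le_mul_of_nonneg_right (le_abs_self _) (hω z)
    refine h1.trans ?_
    have h2 : (μ : Measure Q).real (Acc N)ᶜ = 1 - (μ : Measure Q).real (Acc N) := by
      rw [measureReal_compl (hAccm N), probReal_univ]
    rw [h2]
    have h3 : 0 ≤ |C0| * ω z := mul_nonneg (abs_nonneg _) (hω z)
    exact mul_le_mul_of_nonneg_left (by linarith) h3
  have e2 : |∑ i : Fin N, (μ : Measure Q).real (B i) * c i z - ∑ i : Fin N, (r i : ℝ) * c i z| ≤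
      η * (|C0| * ω z) := by
    rw [← Finset.sum_sub_distrib]
    refine (Finset.abs_sum_le_sum_abs _ _).trans ?_
    have h1 : ∀ i ∈ (Finset.univ : Finset (Fin N)), |(μ : Measure Q).real (B i) * c i z -
        (r i : ℝ) * c i z| ≤ η / (N + 1) * (|C0| * ω z) := by
      intro i _
      rw [← sub_mul, abs_mul]
      have h2 : |c i z| ≤ |C0| * ω z := (hb _ (hcQ i) z).trans
        (mul_le_mul_of_nonneg_right (le_abs_self _) (hω z))
      exact mul_le_mul (hr i).le h2 (abs_nonneg _) (by positivity)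
    refine (Finset.sum_le_sum h1).trans ?_
    rw [Finset.sum_const, Finset.card_univ, Fintype.card_fin, nsmul_eq_mul]
    have h3 : 0 ≤ |C0| * ω z := mul_nonneg (abs_nonneg _) (hω z)
    calc (N : ℝ) * (η / (N + 1) * (|C0| * ω z)) = (N / (N + 1) : ℝ) * (η * (|C0| * ω z)) := by
          ring
      _ ≤ 1 * (η * (|C0| * ω z)) := by
          gcongr
          rw [div_le_one (by positivity)]
          linarith
      _ = _ := one_mul _
  have e3 : q z = ∫ p in Acc N, (p : Z → ℝ) z ∂(μ : Measure Q) +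
      ∫ p in (Acc N)ᶜ, (p : Z → ℝ) z ∂(μ : Measure Q) := by
    rw [hμ z, integral_add_compl (hAccm N) (hint z)]
  have e4 := hmain N z
  have e5 : q z - ∑ i : Fin N, (r i : ℝ) * c i z =
      (∫ p in Acc N, (p : Z → ℝ) z ∂(μ : Measure Q) -
        ∑ i : Fin N, (μ : Measure Q).real (B i) * c i z) +
      (∫ p in (Acc N)ᶜ, (p : Z → ℝ) z ∂(μ : Measure Q)) +
      (∑ i : Fin N, (μ : Measure Q).real (B i) * c i z - ∑ i : Fin N, (r i : ℝ) * c i z) := by
    rw [e3]; ring
  rw [e5]
  refine (abs_add_three _ _ _).trans ?_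
  have e6 : δ / 2 * ω z * (μ : Measure Q).real (Acc N) ≤ δ / 2 * ω z := by
    have h1 : (μ : Measure Q).real (Acc N) ≤ 1 := measureReal_le_one
    have h2 : 0 ≤ δ / 2 * ω z := mul_nonneg (by positivity) (hω z)
    calc _ ≤ δ / 2 * ω z * 1 := mul_le_mul_of_nonneg_left h1 h2
      _ = _ := mul_one _
  have e7 : η * |C0| * ω z ≤ δ / 4 * ω z := mul_le_mul_of_nonneg_right hη (hω z)
  have e8 : |C0| * ω z * η = η * |C0| * ω z := by ring
  have e9 : η * (|C0| * ω z) = η * |C0| * ω z := by ring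
  have e10 : δ * ω z = δ / 2 * ω z + δ / 4 * ω z + δ / 4 * ω z := by ring
  linarith

end Pool.Agent.V5helper39.BM
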