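import Pool.Agent.V5helper39.BM.Stm2
import Pool.Agent.N314.OP.Two
import Pool.Agent.N314.OP.Wsc

set_option autoImplicit false

/-! # Types of weakly null sequences -/

namespace Pool.Agent.V5helper39.BM

open Filter Topology Set

section

variable {E : Type} [NormedAddCommGroup E] [NormedSpace ℝ E]

lemma KT_sub {S : Set (E → ℝ)} (hS : IsClosed S) (h : ∀ τ ∈ WT E, τ ∈ S) {τ : E → ℝ}
    (hτ : τ ∈ KT E) : τ ∈ S := closure_minimal h hS hτ

lemma KT_range {τ : E → ℝ} (hτ : τ ∈ KT E) (v : E) : |τ v - ‖v‖| ≤ 1 := by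
  refine KT_sub (S := {τ : E → ℝ | |τ v - ‖v‖| ≤ 1}) ?_ ?_ hτ
  · exact isClosed_le (by fun_prop) continuous_const
  · rintro τ ⟨y, hy, -, h⟩
    refine le_of_tendsto' (((h v).sub_const ‖v‖).abs) fun n => ?_
    have h1 := abs_norm_sub_norm_le (v + y n) v
    rw [add_sub_cancel_left, hy] at h1
    exact h1

lemma KT_zero {τ : E → ℝ} (hτ : τ ∈ KT E) : τ 0 = 1 := by
  refine KT_sub (S := {τ : E → ℝ | τ 0 = 1}) ?_ ?_ hτ
  · exact isClosed_eq (by fun_prop) continuous_const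
  · rintro τ ⟨y, hy, -, h⟩
    have h1 := h 0
    simp only [zero_add, hy] at h1
    exact tendsto_nhds_unique h1 tendsto_const_nhds

lemma KT_lip {τ : E → ℝ} (hτ : τ ∈ KT E) (x x' : E) : |τ x - τ x'| ≤ ‖x - x'‖ := by
  refine KT_sub (S := {τ : E → ℝ | |τ x - τ x'| ≤ ‖x - x'‖}) ?_ ?_ hτ
  · exact isClosed_le (by fun_prop) continuous_const
  · rintro τ ⟨y, hy, -, h⟩
    refine le_of_tendsto' (((h x).sub (h x')).abs) fun n => ?_
    have h1 := abs_norm_sub_norm_le (x + y n) (x' + y n)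
    rwa [add_sub_add_right_eq_sub] at h1

lemma KT_comp {τ : E → ℝ} (hτ : τ ∈ KT E) (T : E ≃ₗᵢ[ℝ] E) : (fun v => τ (T v)) ∈ KT E := by
  refine KT_sub (S := {τ : E → ℝ | (fun v => τ (T v)) ∈ KT E}) ?_ ?_ hτ
  · refine isClosed_closure.preimage (f := fun (τ : E → ℝ) (v : E) => τ (T v)) ?_
    fun_prop
  · rintro τ ⟨y, hy, hw, h⟩
    refine subset_closure ⟨fun n => T.symm (y n), fun n => by rw [T.symm.norm_map, hy], fun φ => ?_,
      fun x => ?_⟩
    · exact hw (φ.comp (T.symm.toContinuousLinearEquiv : E →L[ℝ] E))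
    · refine (h (T x)).congr fun n => ?_
      rw [← T.norm_map (x + T.symm (y n)), map_add, T.apply_symm_apply]

lemma KT_nonneg {τ : E → ℝ} (hτ : τ ∈ KT E) (v : E) : 0 ≤ τ v := by
  refine KT_sub (S := {τ : E → ℝ | 0 ≤ τ v}) ?_ ?_ hτ
  · exact isClosed_le continuous_const (by fun_prop)
  · rintro τ ⟨y, hy, -, h⟩
    exact ge_of_tendsto' (h v) fun n => norm_nonneg _

lemma KT_le {τ : E → ℝ} (hτ : τ ∈ KT E) (v : E) : τ v ≤ 1 + ‖v‖ := by
  have := (abs_le.1 (KT_range hτ v)).2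
  linarith

lemma KT_compact : IsCompact (KT E) := by
  refine IsCompact.of_isClosed_subset (s := Set.univ.pi fun v : E => Icc (0 : ℝ) (1 + ‖v‖))
    (isCompact_univ_pi fun v => isCompact_Icc) isClosed_closure ?_
  intro τ hτ v _
  exact ⟨KT_nonneg hτ v, KT_le hτ v⟩

end

theorem t_KSEQ : S_KSEQ := by
  intro E _ _ _ τ hτ
  have hτ' : τ ∈ closure {τ : E → ℝ | ∃ y : E, ‖y‖ = 1 ∧ τ = fun x => ‖x + y‖} := by
    refine KT_sub isClosed_closure ?_ hτ
    rintro τ ⟨y, hy, -, h⟩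
    refine mem_closure_of_tendsto (tendsto_pi_nhds.2 h) (Eventually.of_forall fun n => ?_)
    exact ⟨y n, hy n, rfl⟩
  obtain ⟨D, hD⟩ := TopologicalSpace.exists_dense_seq E
  have hex : ∀ m : ℕ, ∃ y : E, ‖y‖ = 1 ∧ ∀ i ∈ Finset.range (m + 1),
      |‖D i + y‖ - τ (D i)| < 1 / ((m : ℝ) + 1) := by
    intro m
    have hopen : IsOpen {σ : E → ℝ | ∀ i ∈ Finset.range (m + 1),
        |σ (D i) - τ (D i)| < 1 / ((m : ℝ) + 1)} := by
      have : {σ : E → ℝ | ∀ i ∈ Finset.range (m + 1),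
        |σ (D i) - τ (D i)| < 1 / ((m : ℝ) + 1)} =
        ⋂ i ∈ Finset.range (m + 1), {σ : E → ℝ | |σ (D i) - τ (D i)| < 1 / ((m : ℝ) + 1)} := by
        ext; simp
      rw [this]
      exact isOpen_biInter_finset fun i _ => isOpen_lt (by fun_prop) continuous_const
    obtain ⟨σ, hσ, y, hy, rfl⟩ := mem_closure_iff.1 hτ' _ hopen
      (by
        intro i _
        simp only [sub_self, abs_zero]
        positivity)
    exact ⟨y, hy, hσ⟩
  choose y hy hyD using hex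
  refine ⟨y, hy, fun x => ?_⟩
  rw [Metric.tendsto_atTop]
  intro ε hε
  obtain ⟨_, ⟨i, rfl⟩, hi⟩ := Metric.mem_closure_iff.1 (hD x) (ε / 3) (by positivity)
  rw [dist_eq_norm] at hi
  obtain ⟨N, hN⟩ := exists_nat_one_div_lt (show (0 : ℝ) < ε / 3 by positivity)
  refine ⟨max N i, fun m hm => ?_⟩
  have h1 := hyD m i (Finset.mem_range.2 (Nat.lt_succ_of_le ((le_max_right _ _).trans hm)))
  have h2 : 1 / ((m : ℝ) + 1) ≤ 1 / ((N : ℝ) + 1) := by
    apply one_div_le_one_div_of_le (by positivity)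
    have : (N : ℝ) ≤ m := by exact_mod_cast (le_max_left _ _).trans hm
    linarith
  have h3 := KT_lip hτ x (D i)
  have h4 := abs_norm_sub_norm_le (x + y m) (D i + y m)
  rw [add_sub_add_right_eq_sub] at h4
  rw [Real.dist_eq]
  rw [abs_lt] at h1 ⊢
  rw [abs_le] at h3 h4
  constructor <;> linarith [h1.1, h1.2, h3.1, h3.2, h4.1, h4.2]

theorem t_COM : S_COM := by
  intro E _ _ hst τ σ y z hy hz hτ hσ v t ht
  set g : ℕ → ℝ := fun n => t * σ (t⁻¹ • (v + y n)) with hg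
  set h : ℕ → ℝ := fun m => τ (v + t • z m) with hh
  have hnorm : ∀ u w : E, t * ‖t⁻¹ • u + w‖ = ‖u + t • w‖ := by
    intro u w
    have h1 : u + t • w = t • (t⁻¹ • u + w) := by
      rw [smul_add, smul_smul, mul_inv_cancel₀ ht.ne', one_smul]
    rw [h1, norm_smul, Real.norm_eq_abs, abs_of_pos ht]
  have hgl : ∀ n, Tendsto (fun m => ‖(v + y n) + t • z m‖) atTop (𝓝 (g n)) := by
    intro n
    refine ((hσ (t⁻¹ • (v + y n))).const_mul t).congr fun m => ?_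
    exact hnorm _ _
  have hhl : ∀ m, Tendsto (fun n => ‖(v + y n) + t • z m‖) atTop (𝓝 (h m)) := by
    intro m
    refine (hτ (v + t • z m)).congr fun n => ?_
    congr 1
    abel
  set R : ℝ := ‖v‖ + 1 + t with hR
  have hbd : ∀ n m, ‖(v + y n) + t • z m‖ ≤ R := by
    intro n m
    refine (norm_add_le _ _).trans ?_
    have h1 := norm_add_le v (y n)
    rw [hy] at h1
    rw [norm_smul, hz, mul_one, Real.norm_eq_abs, abs_of_pos ht]
    linarith
  have hgb : ∀ n, |g n| ≤ R := by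
    intro n
    have h1 : 0 ≤ g n := ge_of_tendsto' (hgl n) fun m => norm_nonneg _
    rw [abs_of_nonneg h1]
    exact le_of_tendsto' (hgl n) fun m => hbd n m
  have hhb : ∀ n, |h n| ≤ R := by
    intro m
    have h1 : 0 ≤ h m := ge_of_tendsto' (hhl m) fun n => norm_nonneg _
    rw [abs_of_nonneg h1]
    exact le_of_tendsto' (hhl m) fun n => hbd n m
  -- limits along subsequences agree
  have key : ∀ (φ ψ : ℕ → ℕ) (a b : ℝ), Tendsto φ atTop atTop → Tendsto ψ atTop atTop →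
      Tendsto (fun n => g (φ n)) atTop (𝓝 a) → Tendsto (fun m => h (ψ m)) atTop (𝓝 b) → a = b := by
    intro φ ψ a b hφ hψ ha hb
    refine hst (fun n => v + y (φ n)) (fun m => t • z (ψ m)) R (fun n => ?_) (fun m => ?_)
      (fun n => g (φ n)) (fun m => h (ψ m)) a b (fun n => ?_) ha (fun m => ?_) hb
    · refine (norm_add_le _ _).trans ?_
      rw [hy]
      linarith
    · rw [norm_smul, hz, mul_one, Real.norm_eq_abs, abs_of_pos ht]
      have := norm_nonneg v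
      linarith
    · exact (hgl (φ n)).comp hψ
    · exact (hhl (ψ m)).comp hφ
  obtain ⟨F, φ0, hφ0, hF⟩ := Pool.Agent.N314.OP.exists_sub hgb
  have hH : Tendsto h atTop (𝓝 F) := by
    refine tendsto_of_subseq_tendsto fun ns hns => ?_
    obtain ⟨b, ψ, hψ, hb⟩ := Pool.Agent.N314.OP.exists_sub (u := fun m => h (ns m))
      (fun m => hhb _)
    refine ⟨ψ, ?_⟩
    have := key φ0 (fun m => ns (ψ m)) F b hφ0.tendsto_atTop (hns.comp hψ.tendsto_atTop) hF hb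
    rw [this]
    exact hb
  refine ⟨F, ?_, hH⟩
  refine tendsto_of_subseq_tendsto fun ns hns => ?_
  obtain ⟨a, ψ, hψ, ha⟩ := Pool.Agent.N314.OP.exists_sub (u := fun m => g (ns m))
    (fun m => hgb _)
  refine ⟨ψ, ?_⟩
  have := key (fun m => ns (ψ m)) id a F (hns.comp hψ.tendsto_atTop) tendsto_id ha hH
  rw [← this]
  exact ha

theorem t_KBD : S_KBD := by
  intro E _ _ H _ _ hΦ hT
  obtain ⟨Φ⟩ := hΦ
  have hAT : Pool.Agent.N314.OP.AT E := by
    intro x y hx hy ε hε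
    obtain ⟨T, hT⟩ := hT x y hx hy
    exact ⟨T, by rw [hT, sub_self, norm_zero]; exact hε⟩
  obtain ⟨c, hc, h1⟩ := Pool.Agent.N314.OP.two_convex hAT Φ
  obtain ⟨K, hK, h2⟩ := Pool.Agent.N314.OP.two_smooth hAT Φ
  refine ⟨min (c / 4) 1, max (2 * K + K ^ 2) 3, by positivity,
    (min_le_right _ _).trans ((by norm_num : (1 : ℝ) ≤ 3).trans (le_max_right _ _)), ?_⟩
  intro τ hτ v
  refine KT_sub (S := {τ : E → ℝ | ‖v‖ ^ 2 + min (c / 4) 1 ≤ τ v ^ 2 ∧
    τ v ^ 2 ≤ ‖v‖ ^ 2 + max (2 * K + K ^ 2) 3}) ?_ ?_ hτ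
  · have k1 : IsClosed {τ : E → ℝ | ‖v‖ ^ 2 + min (c / 4) 1 ≤ τ v ^ 2} :=
      isClosed_le continuous_const (by fun_prop)
    have k2 : IsClosed {τ : E → ℝ | τ v ^ 2 ≤ ‖v‖ ^ 2 + max (2 * K + K ^ 2) 3} :=
      isClosed_le (by fun_prop) continuous_const
    exact k1.inter k2
  rintro τ ⟨y, hy, hw, h⟩
  have hτ0 : 0 ≤ τ v := ge_of_tendsto' (h v) fun n => norm_nonneg _
  have hweak : ∀ (s : ℝ) (f : StrongDual ℝ E), Tendsto (fun n => f (v + s • y n)) atTop (𝓝 (f v)) := by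
    intro s f
    have := ((hw f).const_mul s).const_add (f v)
    simpa only [map_add, map_smul, smul_eq_mul, mul_zero, add_zero] using this
  constructor
  · obtain ⟨m, φ, hφ, hm⟩ := Pool.Agent.N314.OP.exists_sub
      (u := fun n => ‖v + (1 / 2 : ℝ) • y n‖) (C := ‖v‖ + 1) (fun n => by
        rw [abs_norm]
        refine (norm_add_le _ _).trans ?_
        rw [norm_smul, hy]
        norm_num)
    have e1 : ‖v‖ ≤ m := Pool.Agent.N314.OP.norm_le_of_weak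
      (fun f => (hweak (1 / 2) f).comp hφ.tendsto_atTop) hm
    have e2 : c / 4 ≤ τ v ^ 2 + ‖v‖ ^ 2 - 2 * m ^ 2 := by
      refine ge_of_tendsto' (((((h v).comp hφ.tendsto_atTop).pow 2).add_const (‖v‖ ^ 2)).sub
        ((hm.pow 2).const_mul 2)) fun n => ?_
      have e3 := h1 (v + (1 / 2 : ℝ) • y (φ n)) ((1 / 2 : ℝ) • y (φ n))
      have e4 : v + (1 / 2 : ℝ) • y (φ n) + (1 / 2 : ℝ) • y (φ n) = v + y (φ n) := by module
      have e5 : v + (1 / 2 : ℝ) • y (φ n) - (1 / 2 : ℝ) • y (φ n) = v := by module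
      rw [e4, e5, norm_smul, hy] at e3
      simp only [Function.comp]
      norm_num at e3 ⊢
      linarith
    have e6 : min (c / 4) 1 ≤ c / 4 := min_le_left _ _
    have e7 := norm_nonneg v
    nlinarith
  · have hle : τ v ≤ ‖v‖ + 1 := le_of_tendsto' (h v) fun n => by
      refine (norm_add_le _ _).trans ?_
      rw [hy]
    rcases lt_or_ge ‖v‖ 1 with hv | hv
    · have e1 : (3 : ℝ) ≤ max (2 * K + K ^ 2) 3 := le_max_right _ _
      have e2 := norm_nonneg v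
      nlinarith
    · have hv0 : 0 < ‖v‖ := by linarith
      obtain ⟨m, φ, hφ, hm⟩ := Pool.Agent.N314.OP.exists_sub
        (u := fun n => ‖v + (-1 : ℝ) • y n‖) (C := ‖v‖ + 1) (fun n => by
          rw [abs_norm]
          refine (norm_add_le _ _).trans ?_
          rw [norm_smul, hy]
          norm_num)
      have e1 : ‖v‖ ≤ m := Pool.Agent.N314.OP.norm_le_of_weak
        (fun f => (hweak (-1) f).comp hφ.tendsto_atTop) hm
      have e2 : τ v + m ≤ 2 * ‖v‖ + K / ‖v‖ := by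
        refine le_of_tendsto' (((h v).comp hφ.tendsto_atTop).add hm) fun n => ?_
        have e3 := h2 (‖v‖⁻¹ • v) (‖v‖⁻¹ • y (φ n))
          (by rw [norm_smul, norm_inv, norm_norm, inv_mul_cancel₀ hv0.ne'])
        have e4 : ‖v‖⁻¹ • v + ‖v‖⁻¹ • y (φ n) = ‖v‖⁻¹ • (v + y (φ n)) := by module
        have e5 : ‖v‖⁻¹ • v - ‖v‖⁻¹ • y (φ n) = ‖v‖⁻¹ • (v + (-1 : ℝ) • y (φ n)) := by module
        rw [e4, e5, norm_smul, norm_smul, norm_smul, norm_smul, norm_inv, norm_norm, hy] at e3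
        simp only [Function.comp]
        have e6 : ‖v‖ * (‖v‖⁻¹ * ‖v + y (φ n)‖ + ‖v‖⁻¹ * ‖v + (-1 : ℝ) • y (φ n)‖ -
            2 * (‖v‖⁻¹ * ‖v‖)) ≤ ‖v‖ * (K * (‖v‖⁻¹ * 1) ^ 2) := by
          refine mul_le_mul_of_nonneg_left ?_ hv0.le
          exact e3
        have e7 : ‖v‖ * (‖v‖⁻¹ * ‖v + y (φ n)‖ + ‖v‖⁻¹ * ‖v + (-1 : ℝ) • y (φ n)‖ -
            2 * (‖v‖⁻¹ * ‖v‖)) = ‖v + y (φ n)‖ + ‖v + (-1 : ℝ) • y (φ n)‖ - 2 * ‖v‖ := by
          field_simp
        have e8 : ‖v‖ * (K * (‖v‖⁻¹ * 1) ^ 2) = K / ‖v‖ := by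
          field_simp
        rw [e7, e8] at e6
        linarith
      have e3 : τ v ≤ ‖v‖ + K / ‖v‖ := by linarith
      have e4 : K / ‖v‖ ≤ K := div_le_self hK.le hv
      have e5 : 0 ≤ K / ‖v‖ := by positivity
      have e6 : ‖v‖ * (K / ‖v‖) = K := by field_simp
      have e7 : τ v ^ 2 ≤ (‖v‖ + K / ‖v‖) ^ 2 := by gcongr
      have e8 : (‖v‖ + K / ‖v‖) ^ 2 = ‖v‖ ^ 2 + 2 * K + (K / ‖v‖) ^ 2 := by
        have : (‖v‖ + K / ‖v‖) ^ 2 = ‖v‖ ^ 2 + 2 * (‖v‖ * (K / ‖v‖)) + (K / ‖v‖) ^ 2 := by ring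
        rw [this, e6]
      have e9 : (K / ‖v‖) ^ 2 ≤ K ^ 2 := by gcongr
      have e10 : 2 * K + K ^ 2 ≤ max (2 * K + K ^ 2) 3 := le_max_left _ _
      rw [e8] at e7
      linarith

end Pool.Agent.V5helper39.BM
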