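import Pool.Agent.V5helper39.BM.Taylor

set_option autoImplicit false

/-! # Totally bounded spaces of pair orbits: the Hessian field is uniformly norm continuous -/

namespace Pool.Agent.V5helper39.BM

open Filter Topology Asymptotics Set

/-- up to every `ε` there are only finitely many pairs of unit vectors modulo isometries -/
def PC (E : Type) [NormedAddCommGroup E] [NormedSpace ℝ E] : Prop :=
  ∀ ε : ℝ, 0 < ε → ∃ P : Finset (E × E), ∀ x z : E, ‖x‖ = 1 → ‖z‖ = 1 →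
    ∃ p ∈ P, ∃ T : E ≃ₗᵢ[ℝ] E, ‖T x - p.1‖ ≤ ε ∧ ‖T z - p.2‖ ≤ ε

section

variable {E : Type} [NormedAddCommGroup E] [NormedSpace ℝ E] {f : E → E →L[ℝ] ℝ}
  {A : E → E →L[ℝ] E →L[ℝ] ℝ} {c C : ℝ}

/-- an isometry moves the pair `p` to within `ε` of the pair `q` -/
def Near (ε : ℝ) (p q : E × E) : Prop :=
  ∃ T : E ≃ₗᵢ[ℝ] E, ‖T p.1 - q.1‖ ≤ ε ∧ ‖T p.2 - q.2‖ ≤ ε

lemma Near.symm {ε : ℝ} {p q : E × E} (h : Near ε p q) : Near ε q p := by
  obtain ⟨T, h1, h2⟩ := h
  refine ⟨T.symm, ?_, ?_⟩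
  · have : T.symm q.1 - p.1 = T.symm (q.1 - T p.1) := by rw [map_sub, T.symm_apply_apply]
    rw [this, T.symm.norm_map, norm_sub_rev]; exact h1
  · have : T.symm q.2 - p.2 = T.symm (q.2 - T p.2) := by rw [map_sub, T.symm_apply_apply]
    rw [this, T.symm.norm_map, norm_sub_rev]; exact h2

lemma Near.trans {ε δ : ℝ} {p q r : E × E} (h : Near ε p q) (h' : Near δ q r) :
    Near (ε + δ) p r := by
  obtain ⟨T, h1, h2⟩ := h
  obtain ⟨S, h3, h4⟩ := h'
  refine ⟨T.trans S, ?_, ?_⟩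
  · rw [LinearIsometryEquiv.trans_apply]
    have : S (T p.1) - r.1 = S (T p.1 - q.1) + (S q.1 - r.1) := by rw [map_sub]; abel
    rw [this]
    refine (norm_add_le _ _).trans ?_
    rw [S.norm_map]; linarith
  · rw [LinearIsometryEquiv.trans_apply]
    have : S (T p.2) - r.2 = S (T p.2 - q.2) + (S q.2 - r.2) := by rw [map_sub]; abel
    rw [this]
    refine (norm_add_le _ _).trans ?_
    rw [S.norm_map]; linarith

lemma Near.mono {ε δ : ℝ} {p q : E × E} (h : Near ε p q) (hh : ε ≤ δ) : Near δ p q := by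
  obtain ⟨T, h1, h2⟩ := h
  exact ⟨T, h1.trans hh, h2.trans hh⟩

/-- sequences of pairs of unit vectors converge modulo isometries along an ultrafilter -/
lemma pair_limit [CompleteSpace E] (hP : PC E) (U : Ultrafilter ℕ) (x w : ℕ → E)
    (hx : ∀ n, ‖x n‖ = 1) (hw : ∀ n, ‖w n‖ = 1) : ∃ a b : E, ‖a‖ = 1 ∧ ‖b‖ = 1 ∧
      ∀ r : ℝ, 0 < r → ∀ᶠ n in (U : Filter ℕ), Near r (x n, w n) (a, b) := by
  -- balls
  have hball : ∀ k : ℕ, ∃ p : E × E, {n : ℕ | Near ((1 / 2) ^ k) (x n, w n) p} ∈ U := by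
    intro k
    obtain ⟨P, hP'⟩ := hP ((1 / 2) ^ k) (by positivity)
    have h1 : (⋃ p ∈ (P : Set (E × E)), {n : ℕ | Near ((1 / 2) ^ k) (x n, w n) p}) ∈ U := by
      have : (⋃ p ∈ (P : Set (E × E)), {n : ℕ | Near ((1 / 2) ^ k) (x n, w n) p}) = Set.univ := by
        rw [Set.eq_univ_iff_forall]
        intro n
        obtain ⟨p, hp, T, hT⟩ := hP' (x n) (w n) (hx n) (hw n)
        exact Set.mem_biUnion (by simpa using hp) ⟨T, hT⟩
      rw [this]
      exact Filter.univ_mem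
    obtain ⟨p, -, h2⟩ := (Ultrafilter.finite_biUnion_mem_iff P.finite_toSet).1 h1
    exact ⟨p, h2⟩
  choose p hp using hball
  have hstep : ∀ k : ℕ, Near (2 * (1 / 2) ^ k) (p k) (p (k + 1)) := by
    intro k
    obtain ⟨n, hn1, hn2⟩ := Filter.nonempty_of_mem (Filter.inter_mem (hp k) (hp (k + 1)))
    have h := (Near.symm hn1).trans hn2
    refine h.mono ?_
    have : ((1 : ℝ) / 2) ^ (k + 1) ≤ (1 / 2) ^ k :=
      pow_le_pow_of_le_one (by norm_num) (by norm_num) (Nat.le_succ k)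
    linarith
  choose T hT1 hT2 using hstep
  let Q : ℕ → (E ≃ₗᵢ[ℝ] E) := fun n =>
    Nat.rec (LinearIsometryEquiv.refl ℝ E) (fun k Q => Q.trans (T k)) n
  have hQs : ∀ k, Q (k + 1) = (Q k).trans (T k) := fun k => rfl
  let y : ℕ → E := fun k => (Q k).symm (p k).1
  let z : ℕ → E := fun k => (Q k).symm (p k).2
  have hy : CauchySeq y := by
    refine cauchySeq_of_le_geometric (1 / 2) 2 (by norm_num) (fun k => ?_)
    have h1 : y (k + 1) = (Q k).symm ((T k).symm (p (k + 1)).1) := by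
      show (Q (k + 1)).symm (p (k + 1)).1 = _
      rw [hQs]; rfl
    have h2 : y k - y (k + 1) = (Q k).symm ((T k).symm ((T k) (p k).1 - (p (k + 1)).1)) := by
      rw [h1, map_sub, map_sub, (T k).symm_apply_apply]
    rw [dist_eq_norm, h2, LinearIsometryEquiv.norm_map, LinearIsometryEquiv.norm_map]
    exact hT1 k
  have hz : CauchySeq z := by
    refine cauchySeq_of_le_geometric (1 / 2) 2 (by norm_num) (fun k => ?_)
    have h1 : z (k + 1) = (Q k).symm ((T k).symm (p (k + 1)).2) := by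
      show (Q (k + 1)).symm (p (k + 1)).2 = _
      rw [hQs]; rfl
    have h2 : z k - z (k + 1) = (Q k).symm ((T k).symm ((T k) (p k).2 - (p (k + 1)).2)) := by
      rw [h1, map_sub, map_sub, (T k).symm_apply_apply]
    rw [dist_eq_norm, h2, LinearIsometryEquiv.norm_map, LinearIsometryEquiv.norm_map]
    exact hT2 k
  obtain ⟨a, ha⟩ := cauchySeq_tendsto_of_complete hy
  obtain ⟨b, hb⟩ := cauchySeq_tendsto_of_complete hz
  have hkey : ∀ r : ℝ, 0 < r → ∀ᶠ n in (U : Filter ℕ), Near r (x n, w n) (a, b) := by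
    intro r hr
    have h1 : ∀ᶠ k in atTop, ‖y k - a‖ < r / 2 :=
      (tendsto_iff_norm_sub_tendsto_zero.1 ha).eventually (gt_mem_nhds (by positivity))
    have h2 : ∀ᶠ k in atTop, ‖z k - b‖ < r / 2 :=
      (tendsto_iff_norm_sub_tendsto_zero.1 hb).eventually (gt_mem_nhds (by positivity))
    have h3 : ∀ᶠ k : ℕ in atTop, ((1 : ℝ) / 2) ^ k < r / 2 :=
      (tendsto_pow_atTop_nhds_zero_of_lt_one (r := (1 : ℝ) / 2) (by norm_num)
        (by norm_num)).eventually (gt_mem_nhds (by positivity))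
    obtain ⟨k, hk1, hk2, hk3⟩ := (h1.and (h2.and h3)).exists
    filter_upwards [hp k] with n hn
    have h4 : Near (r / 2) (p k) (a, b) := ⟨(Q k).symm, hk1.le, hk2.le⟩
    exact (Near.trans hn h4).mono (by linarith)
  have hnorm : ∀ (u : ℕ → E) (v : E), (∀ n, ‖u n‖ = 1) →
      (∀ r : ℝ, 0 < r → ∃ (n : ℕ) (T : E ≃ₗᵢ[ℝ] E), ‖T (u n) - v‖ ≤ r) → ‖v‖ = 1 := by
    intro u v hu h
    have h1 : ∀ r : ℝ, 0 < r → |1 - ‖v‖| ≤ r := by
      intro r hr
      obtain ⟨n, T, hT⟩ := h r hr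
      have h2 := abs_norm_sub_norm_le (T (u n)) v
      rw [T.norm_map, hu] at h2
      exact h2.trans hT
    have h2 : |1 - ‖v‖| ≤ 0 := le_of_forall_pos_le_add fun r hr => by linarith [h1 r hr]
    have h3 := abs_nonpos_iff.1 h2
    linarith
  refine ⟨a, b, hnorm x a hx fun r hr => ?_, hnorm w b hw fun r hr => ?_, hkey⟩
  · obtain ⟨n, T, h1, -⟩ := (hkey r hr).exists
    exact ⟨n, T, h1⟩
  · obtain ⟨n, T, -, h1⟩ := (hkey r hr).exists
    exact ⟨n, T, h1⟩

/-- bound for the forms -/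
lemma HF.bd (hA : HF E f A c C) {x : E} (hx : ‖x‖ = 1) (u v : E) :
    |A x u v| ≤ 2 * (|C| + 1) * ‖u‖ * ‖v‖ := by
  have key : ∀ u v : E, ‖u‖ = 1 → ‖v‖ = 1 → |A x u v| ≤ 2 * (|C| + 1) := by
    intro u v hu hv
    have h1 : A x (u + v) (u + v) = A x u u + 2 * A x u v + A x v v := by
      simp only [map_add, ContinuousLinearMap.add_apply]
      rw [hA.symm x hx v u]; ring
    have h2 : A x (u - v) (u - v) = A x u u - 2 * A x u v + A x v v := by
      simp only [map_sub, ContinuousLinearMap.sub_apply]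
      rw [hA.symm x hx v u]; ring
    have a1 := hA.up x hx u
    have a2 := hA.up x hx v
    have a3 := hA.up x hx (u + v)
    have a4 := hA.up x hx (u - v)
    have b1 := hA.low x hx (u + v)
    have b2 := hA.low x hx (u - v)
    have hc := hA.cpos
    have b3 : 0 ≤ A x (u + v) (u + v) := le_trans (by positivity) b1
    have b4 : 0 ≤ A x (u - v) (u - v) := le_trans (by positivity) b2
    rw [hu, one_pow, mul_one] at a1
    rw [hv, one_pow, mul_one] at a2
    have hC := le_abs_self C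
    rw [abs_le]
    constructor <;> linarith
  by_cases hu : u = 0
  · simp [hu]
  by_cases hv : v = 0
  · simp [hv]
  have hu' : ‖u‖ ≠ 0 := norm_ne_zero_iff.2 hu
  have hv' : ‖v‖ ≠ 0 := norm_ne_zero_iff.2 hv
  have h2 := key (‖u‖⁻¹ • u) (‖v‖⁻¹ • v)
    (by rw [norm_smul, norm_inv, norm_norm, inv_mul_cancel₀ hu'])
    (by rw [norm_smul, norm_inv, norm_norm, inv_mul_cancel₀ hv'])
  have h3 : A x u v = ‖u‖ * ‖v‖ * A x (‖u‖⁻¹ • u) (‖v‖⁻¹ • v) := by
    simp only [map_smul, ContinuousLinearMap.smul_apply, smul_eq_mul]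
    field_simp
  rw [h3, abs_mul, abs_of_nonneg (by positivity)]
  calc ‖u‖ * ‖v‖ * |A x (‖u‖⁻¹ • u) (‖v‖⁻¹ • v)| ≤ ‖u‖ * ‖v‖ * (2 * (|C| + 1)) :=
        mul_le_mul_of_nonneg_left h2 (by positivity)
    _ = 2 * (|C| + 1) * ‖u‖ * ‖v‖ := by ring

/-- **pair orbits**: total boundedness gives uniform norm continuity of the Hessians -/
theorem UC_of_PC [CompleteSpace E] (hA : HF E f A c C) (hP : PC E) : UC E A := by
  by_contra hcon
  unfold UC at hcon
  push Not at hcon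
  obtain ⟨ε, hε, hcon⟩ := hcon
  have hseq : ∀ n : ℕ, ∃ x y w : E, ‖x‖ = 1 ∧ ‖y‖ = 1 ∧ ‖x - y‖ ≤ 1 / ((n : ℝ) + 1) ∧ ‖w‖ = 1 ∧
      ε < |A x w w - A y w w| := by
    intro n
    obtain ⟨x, y, hx, hy, hxy, w, hw⟩ := hcon (1 / ((n : ℝ) + 1)) (by positivity)
    have hw0 : w ≠ 0 := by
      rintro rfl
      simp at hw
    have hn : 0 < ‖w‖ := norm_pos_iff.2 hw0
    refine ⟨x, y, ‖w‖⁻¹ • w, hx, hy, hxy, by
      rw [norm_smul, norm_inv, norm_norm, inv_mul_cancel₀ hn.ne'], ?_⟩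
    have h1 : A x w w - A y w w = ‖w‖ ^ 2 * (A x (‖w‖⁻¹ • w) (‖w‖⁻¹ • w) -
        A y (‖w‖⁻¹ • w) (‖w‖⁻¹ • w)) := by
      simp only [map_smul, ContinuousLinearMap.smul_apply, smul_eq_mul]
      field_simp
    rw [h1, abs_mul, abs_of_nonneg (sq_nonneg ‖w‖), mul_comm ε] at hw
    exact lt_of_mul_lt_mul_left hw (sq_nonneg _)
  choose x y w hx hy hxy hw hlt using hseq
  set U : Ultrafilter ℕ := Filter.hyperfilter ℕ with hU
  obtain ⟨a, b, ha, hb, hab⟩ := pair_limit hP U x w hx hw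
  -- continuity at `(a, b)`
  set M : ℝ := 2 * (|C| + 1) with hM
  have hM0 : 0 < M := by positivity
  have hc1 := (hA.cont b b) a ha
  have hc2 : ∀ᶠ x' in 𝓝[{x : E | ‖x‖ = 1}] a, |A x' b b - A a b b| < ε / 4 := by
    have := (Metric.tendsto_nhds.1 hc1) (ε / 4) (by positivity)
    filter_upwards [this] with x' hx'
    rwa [Real.dist_eq] at hx'
  obtain ⟨r, hr, hr2⟩ := Metric.mem_nhdsWithin_iff.1 hc2
  set r' : ℝ := min (r / 4) (min 1 (ε / (32 * M))) with hr'
  have hr'0 : 0 < r' := by positivity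
  have hcont : ∀ x' w' : E, ‖x'‖ = 1 → ‖x' - a‖ < r → ‖w' - b‖ ≤ r' →
      |A x' w' w' - A a b b| < ε / 2 := by
    intro x' w' hx' h1 h2
    have h3 := hr2 (a := x') ⟨by rw [Metric.mem_ball, dist_eq_norm]; exact h1, hx'⟩
    have h4 : A x' w' w' - A x' b b = A x' (w' - b) w' + A x' b (w' - b) := by
      simp only [map_sub, ContinuousLinearMap.sub_apply]
      ring
    have h5 : ‖w'‖ ≤ 2 := by
      have : w' = (w' - b) + b := by abel
      rw [this]
      refine (norm_add_le _ _).trans ?_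
      rw [hb]
      have : r' ≤ 1 := (min_le_right _ _).trans (min_le_left _ _)
      linarith
    have h6 : |A x' w' w' - A x' b b| ≤ ε / 8 := by
      rw [h4]
      refine (abs_add_le _ _).trans ?_
      have e1 := hA.bd hx' (w' - b) w'
      have e2 := hA.bd hx' b (w' - b)
      have e3 : r' ≤ ε / (32 * M) := (min_le_right _ _).trans (min_le_right _ _)
      have e4 : M * ‖w' - b‖ * ‖w'‖ ≤ M * (ε / (32 * M)) * 2 := by
        gcongr
        exact h2.trans e3
      have e5 : M * ‖b‖ * ‖w' - b‖ ≤ M * 1 * (ε / (32 * M)) := by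
        rw [hb]
        gcongr
        exact h2.trans e3
      have e6 : M * (ε / (32 * M)) * 2 = ε / 16 := by field_simp; ring
      have e7 : M * 1 * (ε / (32 * M)) = ε / 32 := by field_simp
      rw [e6] at e4
      rw [e7] at e5
      linarith
    have h7 : A x' w' w' - A a b b = (A x' w' w' - A x' b b) + (A x' b b - A a b b) := by ring
    rw [h7]
    refine (abs_add_le _ _).trans_lt ?_
    have h8 : |A x' b b - A a b b| < ε / 4 := h3
    linarith
  have hlarge : ∀ᶠ n : ℕ in (U : Filter ℕ), 1 / ((n : ℝ) + 1) < r / 2 := by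
    have h1 : Tendsto (fun n : ℕ => 1 / ((n : ℝ) + 1)) atTop (𝓝 0) :=
      tendsto_one_div_add_atTop_nhds_zero_nat
    have h2 := h1.eventually (gt_mem_nhds (show (0 : ℝ) < r / 2 by positivity))
    exact h2.filter_mono (by
      rw [← Nat.cofinite_eq_atTop]
      exact Filter.hyperfilter_le_cofinite)
  obtain ⟨n, ⟨T, hT1, hT2⟩, hn⟩ := ((hab r' hr'0).and hlarge).exists
  have hrr : r' ≤ r / 4 := min_le_left _ _
  have g1 : ‖T (x n)‖ = 1 := by rw [T.norm_map, hx]
  have g2 : ‖T (y n)‖ = 1 := by rw [T.norm_map, hy]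
  have g3 : ‖T (x n) - a‖ < r := by
    have : ‖T (x n) - a‖ ≤ r' := hT1
    linarith
  have g4 : ‖T (y n) - a‖ < r := by
    have h1 : T (y n) - a = (T (x n) - a) - T (x n - y n) := by rw [map_sub]; abel
    rw [h1]
    refine (norm_sub_le _ _).trans_lt ?_
    rw [T.norm_map]
    have : ‖T (x n) - a‖ ≤ r' := hT1
    have := hxy n
    linarith
  have k1 := hcont (T (x n)) (T (w n)) g1 g3 hT2
  have k2 := hcont (T (y n)) (T (w n)) g2 g4 hT2
  rw [hA.equi (x n) (hx n) T (w n) (w n)] at k1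
  rw [hA.equi (y n) (hy n) T (w n) (w n)] at k2
  have k3 := hlt n
  have k4 : A (x n) (w n) (w n) - A (y n) (w n) (w n) =
      (A (x n) (w n) (w n) - A a b b) - (A (y n) (w n) (w n) - A a b b) := by ring
  rw [k4] at k3
  have k5 := abs_sub (A (x n) (w n) (w n) - A a b b) (A (y n) (w n) (w n) - A a b b)
  linarith

end

end Pool.Agent.V5helper39.BM
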