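import Pool.Agent.V5helper39.BM.Clt
import Pool.Agent.V5helper39.BM.Fre
import Pool.Agent.V5helper39.BM.Cpt
import Pool.Agent.V5helper39.BM.Pairs
import Pool.Agent.V5helper21.BM.FPH
import Pool.Agent.V5helper21.BM.TYP
import Pool.Agent.V5helper21.BM.STA
import Pool.Agent.TH578.Rot.Pairs
import Pool.Agent.H305R3.Rot.Amen
import Pool.Agent.H305R3.Rot.Conv

set_option autoImplicit false

/-! # Banach-Mazur rotations: assembly -/

namespace Pool.Agent.V5helper39.BM

open Filter Topology Asymptotics Set TopologicalSpace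
open Pool.Agent.V5helper21.BM

variable {E : Type} [NormedAddCommGroup E] [NormedSpace ℝ E]

/-- `E` is linearly isometric to a Hilbert space -/
def IsHilbert (E : Type) [NormedAddCommGroup E] [NormedSpace ℝ E] : Prop :=
  ∃ (H : Type) (_ : NormedAddCommGroup H) (_ : InnerProductSpace ℝ H) (_ : CompleteSpace H),
    Nonempty (E ≃ₗᵢ[ℝ] H)

/-- `E` is linearly isomorphic to a Hilbert space -/
def Hilbertian (E : Type) [NormedAddCommGroup E] [NormedSpace ℝ E] : Prop :=
  ∃ (H : Type) (_ : NormedAddCommGroup H) (_ : InnerProductSpace ℝ H) (_ : CompleteSpace H),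
    Nonempty (E ≃L[ℝ] H)

theorem isHilbert_of_par [CompleteSpace E] (h : Par E) : IsHilbert E :=
  ⟨E, inferInstance, InnerProductSpace.ofNorm ℝ h, inferInstance,
    ⟨LinearIsometryEquiv.refl ℝ E⟩⟩

/-- the Hessian field -/
theorem exists_HF [CompleteSpace E] [SeparableSpace E] (hH : Hilbertian E) (hT : Tr E) :
    ∃ (f : E → E →L[ℝ] ℝ) (A : E → E →L[ℝ] E →L[ℝ] ℝ) (c C : ℝ), HF E f A c C := by
  obtain ⟨H, _, _, _, ⟨Φ⟩⟩ := hH
  obtain ⟨c, C, f, A, hc, hA, hcont⟩ := Pool.Agent.Y278.Rot.hessian_field Φ hT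
  exact ⟨f, A, c, C, ⟨hc, fun x hx => (hA x hx).1, fun x hx w => ((hA x hx).2.1 w).1,
    fun x hx w => ((hA x hx).2.1 w).2, fun x hx w => (hA x hx).2.2.1 w,
    fun x hx T v w => (hA x hx).2.2.2 T v w, hcont⟩⟩

/-- conclusion from the uniform expansion -/
theorem par_of_UE [SeparableSpace E] {f : E → E →L[ℝ] ℝ} {A : E → E →L[ℝ] E →L[ℝ] ℝ} {c C : ℝ}
    (hA : HF E f A c C) (hT : Tr E) (hU : UE E f A) (h : Stable E ∨ SST E ∨
      ∃ y : ℕ → E, (∃ R, ∀ n, ‖y n‖ ≤ R) ∧
        (∀ φ : StrongDual ℝ E, Tendsto (fun n => φ (y n)) atTop (𝓝 0)) ∧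
        ∀ x, ‖x‖ = 1 → Tendsto (fun n => A x (y n) (y n)) atTop (𝓝 1)) : Par E := by
  rcases h with h | h | h
  · exact t_FPH E f A c C hA hT (t_TYP E f A c C hA hU (t_STA E h))
  · exact t_FPH E f A c C hA hT (t_TYP E f A c C hA hU h)
  · exact t_CLT E f A c C hA hU h

lemma isHilbert_of_zero (h : ¬ ∃ x : E, ‖x‖ = 1) : IsHilbert E := by
  have h0 : ∀ v : E, v = 0 := by
    intro v
    by_contra hv
    apply h
    refine ⟨‖v‖⁻¹ • v, ?_⟩
    rw [norm_smul, norm_inv, norm_norm, inv_mul_cancel₀ (norm_ne_zero_iff.2 hv)]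
  refine ⟨EuclideanSpace ℝ (Fin 0), inferInstance, inferInstance, inferInstance, ⟨?_⟩⟩
  exact
    { toFun := fun _ => 0
      invFun := fun _ => 0
      map_add' := fun _ _ => by simp
      map_smul' := fun _ _ => by simp
      left_inv := fun v => (h0 v).symm
      right_inv := fun v => Subsingleton.elim _ _
      norm_map' := fun v => by rw [h0 v]; simp }

/-- totally bounded spaces of pair orbits -/
theorem hilbertian_of_PC [CompleteSpace E] [SeparableSpace E] (hT : Tr E) (hP : PC E) :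
    Hilbertian E := by
  by_cases hx : ∃ x : E, ‖x‖ = 1
  · obtain ⟨x, hx⟩ := hx
    obtain ⟨F, hF1, hF2⟩ := Pool.TH578.Rot.cover hT hP x hx (κ := 1 / 2) (by norm_num)
    exact Pool.H305R3.Rot.dichotomy hT x hx (Pool.TH578.Rot.not_nullDual F hF2)
      (Pool.TH578.Rot.not_nullVec F hF1 hF2)
  · obtain ⟨H, i1, i2, i3, ⟨A⟩⟩ := isHilbert_of_zero hx
    exact ⟨H, i1, i2, i3, ⟨A.toContinuousLinearEquiv⟩⟩

theorem hilbert_of_PC [CompleteSpace E] [SeparableSpace E] (hT : Tr E) (hP : PC E)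
    (h : Stable E ∨ SST E) : IsHilbert E := by
  obtain ⟨f, A, c, C, hA⟩ := exists_HF (hilbertian_of_PC hT hP) hT
  refine isHilbert_of_par (par_of_UE hA hT (UE_of_UC hA (UC_of_PC hA hP)) ?_)
  rcases h with h | h
  · exact Or.inl h
  · exact Or.inr (Or.inl h)

end Pool.Agent.V5helper39.BM
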