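import Mathlib

set_option autoImplicit false

/-!
# Milman's theorem and small slices of compact convex sets
-/

namespace Pool.Agent.V5helper39.BM

open Set Filter Topology

section TVS

variable {F : Type*} [AddCommGroup F] [Module ℝ F] [TopologicalSpace F] [IsTopologicalAddGroup F]
  [ContinuousSMul ℝ F]

lemma compact_join {A B : Set F} (hA : IsCompact A) (hB : IsCompact B) :
    IsCompact (convexJoin ℝ A B) := by
  have h : convexJoin ℝ A B =
      (fun p : (F × F) × ℝ => (1 - p.2) • p.1.1 + p.2 • p.1.2) '' ((A ×ˢ B) ×ˢ Icc (0 : ℝ) 1) := by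
    ext x
    simp only [mem_convexJoin, mem_image, mem_prod, Prod.exists]
    constructor
    · rintro ⟨a, ha, b, hb, hx⟩
      rw [segment_eq_image] at hx
      obtain ⟨t, ht, rfl⟩ := hx
      exact ⟨a, b, t, ⟨⟨ha, hb⟩, ht⟩, rfl⟩
    · rintro ⟨a, b, t, ⟨⟨ha, hb⟩, ht⟩, rfl⟩
      refine ⟨a, ha, b, hb, ?_⟩
      rw [segment_eq_image]
      exact ⟨t, ht, rfl⟩
  rw [h]
  apply ((hA.prod hB).prod isCompact_Icc).image
  fun_prop

lemma compact_hull_union {ι : Type*} (s : Finset ι) (K : ι → Set F) (hK : ∀ i ∈ s, IsCompact (K i))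
    (hc : ∀ i ∈ s, Convex ℝ (K i)) : IsCompact (convexHull ℝ (⋃ i ∈ s, K i)) := by
  classical
  induction s using Finset.induction_on with
  | empty => simp
  | insert a s ha ih =>
    have h1 : IsCompact (convexHull ℝ (⋃ i ∈ s, K i)) :=
      ih (fun i hi => hK i (Finset.mem_insert_of_mem hi))
        (fun i hi => hc i (Finset.mem_insert_of_mem hi))
    have h2 : (⋃ i ∈ insert a s, K i) = K a ∪ ⋃ i ∈ s, K i := by
      simp
    rw [h2]
    by_cases h3 : (K a).Nonempty
    · by_cases h4 : (⋃ i ∈ s, K i).Nonempty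
      · rw [convexHull_union h3 h4, (hc a (Finset.mem_insert_self _ _)).convexHull_eq]
        exact compact_join (hK a (Finset.mem_insert_self _ _)) h1
      · rw [Set.not_nonempty_iff_eq_empty.1 h4, Set.union_empty,
          (hc a (Finset.mem_insert_self _ _)).convexHull_eq]
        exact hK a (Finset.mem_insert_self _ _)
    · rw [Set.not_nonempty_iff_eq_empty.1 h3, Set.empty_union]
      exact h1

variable [LocallyConvexSpace ℝ F] [T2Space F]

/-- **Milman's theorem.** -/
theorem milman {S : Set F} (hS : IsCompact S) (hK : IsCompact (closure (convexHull ℝ S))) :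
    (closure (convexHull ℝ S)).extremePoints ℝ ⊆ S := by
  intro e he
  by_contra heS
  set K := closure (convexHull ℝ S) with hKd
  have hKc : Convex ℝ K := (convex_convexHull ℝ S).closure
  -- a closed convex neighbourhood `U` of `0` with `(e - U) ∩ S = ∅`
  have h0 : (fun u : F => e - u) ⁻¹' Sᶜ ∈ 𝓝 (0 : F) := by
    apply (continuous_const.sub continuous_id).continuousAt.preimage_mem_nhds
    simpa using hS.isClosed.isOpen_compl.mem_nhds heS
  obtain ⟨U, ⟨hU0, hUc, hUcl⟩, hU⟩ : ∃ U : Set F, (U ∈ 𝓝 (0 : F) ∧ Convex ℝ U ∧ IsClosed U) ∧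
      U ⊆ (fun u : F => e - u) ⁻¹' Sᶜ := by
    obtain ⟨V, ⟨hV1, hV2⟩, hV3⟩ := (closed_nhds_basis (0 : F)).mem_iff.1 h0
    obtain ⟨W, ⟨hW1, hW2⟩, hW3⟩ :=
      (LocallyConvexSpace.convex_basis_zero ℝ F).mem_iff.1 hV1
    exact ⟨closure W, ⟨mem_of_superset hW1 subset_closure, hW2.closure, isClosed_closure⟩,
      ((closure_minimal hW3 hV2)).trans hV3⟩
  obtain ⟨s, hsS, hs⟩ := hS.elim_nhds_subcover (fun x => (fun y => y - x) ⁻¹' U) (fun x hx => by
    apply (continuous_id.sub continuous_const).continuousAt.preimage_mem_nhds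
    simpa using hU0)
  set Ki : F → Set F := fun x => K ∩ (fun y => y - x) ⁻¹' U with hKi
  have hKi1 : ∀ x ∈ s, IsCompact (Ki x) := fun x _ =>
    hK.inter_right (hUcl.preimage (continuous_id.sub continuous_const))
  have hKi2 : ∀ x ∈ s, Convex ℝ (Ki x) := by
    intro x _
    apply hKc.inter
    intro y hy z hz a b ha hb hab
    have h1 : a • y + b • z - x = a • (y - x) + b • (z - x) := by
      rw [smul_sub, smul_sub, ← add_sub_add_comm, ← add_smul, hab, one_smul]
    show a • y + b • z - x ∈ U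
    rw [h1]
    exact hUc hy hz ha hb hab
  have hcomp := compact_hull_union s Ki hKi1 hKi2
  have hSsub : S ⊆ ⋃ x ∈ s, Ki x := by
    intro y hy
    obtain ⟨x, hx, hxy⟩ := mem_iUnion₂.1 (hs hy)
    exact mem_iUnion₂.2 ⟨x, hx, subset_closure (subset_convexHull ℝ S hy), hxy⟩
  have hsubK : (⋃ x ∈ s, Ki x) ⊆ K := iUnion₂_subset fun x _ => inter_subset_left
  have heq : convexHull ℝ (⋃ x ∈ s, Ki x) = K := by
    apply Subset.antisymm
    · exact convexHull_min hsubK hKc
    · exact closure_minimal (convexHull_mono hSsub) hcomp.isClosed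
  rw [← heq] at he
  obtain ⟨x, hx, hxe⟩ := mem_iUnion₂.1 (extremePoints_convexHull_subset he)
  have h1 : e - x ∈ U := hxe.2
  have h2 := hU h1
  simp only [mem_preimage, sub_sub_cancel, mem_compl_iff] at h2
  exact h2 (hsS x hx)

end TVS

end Pool.Agent.V5helper39.BM
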