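import Pool.Agent.Y278.Rot.HessMain
import Pool.Agent.V5helper39.BM.Fixed
import Pool.Agent.V5helper39.BM.Haydon

set_option autoImplicit false

/-!
# Banach-Mazur rotations: how the Hessians of a transitive norm vary. Statements of the parts

`E` separable, isomorphic to a Hilbert space, transitive. Hessian field `A x` (`Y278.Rot.hessian_field`).
Final theorem: `E` is a Hilbert space if
(a) all `A x - A y` are compact, or
(b) the closure of `{A x}` for pointwise convergence is separable for the operator norm, or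
(c) the norm is twice Fréchet differentiable at one point, and `E` is stable, or has strongly
separable types, or has one weakly null sequence with `A x (y n) (y n) → 1` for all unit `x`.
-/

namespace Pool.Agent.V5helper39.BM

open Filter Topology Asymptotics Set

/-- a Hessian field with its properties -/
structure HF (E : Type) [NormedAddCommGroup E] [NormedSpace ℝ E] (f : E → E →L[ℝ] ℝ)
    (A : E → E →L[ℝ] E →L[ℝ] ℝ) (c C : ℝ) : Prop where
  cpos : 0 < c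
  symm : ∀ x, ‖x‖ = 1 → ∀ v w, A x v w = A x w v
  low : ∀ x, ‖x‖ = 1 → ∀ w, c * ‖w‖ ^ 2 ≤ A x w w
  up : ∀ x, ‖x‖ = 1 → ∀ w, A x w w ≤ C * ‖w‖ ^ 2
  exp : ∀ x, ‖x‖ = 1 → ∀ w, (fun t : ℝ => ‖x + t • w‖ ^ 2 - 1 - 2 * t * f x w - t ^ 2 * A x w w)
    =o[𝓝 0] fun t : ℝ => t ^ 2
  equi : ∀ x, ‖x‖ = 1 → ∀ (T : E ≃ₗᵢ[ℝ] E) (v w : E), A (T x) (T v) (T w) = A x v w
  cont : ∀ v w, ContinuousOn (fun x => A x v w) {x | ‖x‖ = 1}

/-- transitivity -/
def Tr (E : Type) [NormedAddCommGroup E] [NormedSpace ℝ E] : Prop :=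
  ∀ x y : E, ‖x‖ = 1 → ‖y‖ = 1 → ∃ T : E ≃ₗᵢ[ℝ] E, T x = y

/-- parallelogram law -/
def Par (E : Type) [NormedAddCommGroup E] [NormedSpace ℝ E] : Prop :=
  ∀ x y : E, ‖x + y‖ * ‖x + y‖ + ‖x - y‖ * ‖x - y‖ = 2 * (‖x‖ * ‖x‖ + ‖y‖ * ‖y‖)

/-- uniform second order expansion -/
def UE (E : Type) [NormedAddCommGroup E] [NormedSpace ℝ E] (f : E → E →L[ℝ] ℝ)
    (A : E → E →L[ℝ] E →L[ℝ] ℝ) : Prop :=
  ∀ ε : ℝ, 0 < ε → ∃ δ : ℝ, 0 < δ ∧ ∀ x : E, ‖x‖ = 1 → ∀ v : E, ‖v‖ ≤ δ →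
    |‖x + v‖ ^ 2 - 1 - 2 * f x v - A x v v| ≤ ε * ‖v‖ ^ 2

/-- the set of the Hessians, as functions on `E × E` -/
def HS (E : Type) [NormedAddCommGroup E] [NormedSpace ℝ E]
    (A : E → E →L[ℝ] E →L[ℝ] ℝ) : Set (E × E → ℝ) :=
  {q | ∃ x : E, ‖x‖ = 1 ∧ q = fun p : E × E => A x p.1 p.2}

/-- the weight -/
def om (E : Type) [NormedAddCommGroup E] (p : E × E) : ℝ := ‖p.1‖ * ‖p.2‖

/-- the types of points of the unit ball -/
def Typ (E : Type) [NormedAddCommGroup E] : Set (E → ℝ) :=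
  closure {τ : E → ℝ | ∃ y : E, ‖y‖ ≤ 1 ∧ τ = fun x => ‖x + y‖}

/-- `E` has strongly separable types: up to every `ε` and uniformly on the unit ball there are only
countably many types of points of the unit ball -/
def SST (E : Type) [NormedAddCommGroup E] : Prop :=
  ∀ ε : ℝ, 0 < ε → ∃ c : ℕ → E → ℝ, ∀ τ ∈ Typ E, ∃ n, ∀ x : E, ‖x‖ ≤ 1 → |τ x - c n x| ≤ ε

/-- stable spaces (Krivine-Maurey): the iterated limits of `‖x n + y m‖` agree if they exist -/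
def Stable (E : Type) [NormedAddCommGroup E] : Prop :=
  ∀ (x y : ℕ → E) (R : ℝ), (∀ n, ‖x n‖ ≤ R) → (∀ n, ‖y n‖ ≤ R) → ∀ (g h : ℕ → ℝ) (a b : ℝ),
    (∀ n, Tendsto (fun m => ‖x n + y m‖) atTop (𝓝 (g n))) → Tendsto g atTop (𝓝 a) →
    (∀ m, Tendsto (fun n => ‖x n + y m‖) atTop (𝓝 (h m))) → Tendsto h atTop (𝓝 b) → a = b

/-- FPH (helper21). Proof: `fixed_point` (group `E ≃ₗᵢ[ℝ] E` acting on `E × E` diagonally, weight `om`)
for the closed convex hull of `closure (HS E A)` (compact, `haydon`), gives an invariant symmetric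
bilinear `B` with `c ‖v‖² ≤ B (v, v)`; by `Tr`, `B (v, v) = b ‖v‖²`, `b > 0`, so `Par`. -/
def S_FPH : Prop := ∀ (E : Type) [NormedAddCommGroup E] [NormedSpace ℝ E] (f : E → E →L[ℝ] ℝ)
  (A : E → E →L[ℝ] E →L[ℝ] ℝ) (c C : ℝ), HF E f A c C → Tr E →
  WSep (om E) (closure (HS E A)) → Par E

/-- SEP (helper21): condition (b) implies the hypothesis of FPH. `q` in the closure is a bounded
bilinear form `B` (`LinearMap.mkContinuous₂`). -/
def S_SEP : Prop := ∀ (E : Type) [NormedAddCommGroup E] [NormedSpace ℝ E] (f : E → E →L[ℝ] ℝ)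
  (A : E → E →L[ℝ] E →L[ℝ] ℝ) (c C : ℝ), HF E f A c C →
  TopologicalSpace.IsSeparable {B : E →L[ℝ] E →L[ℝ] ℝ |
    (fun p : E × E => B p.1 p.2) ∈ closure (HS E A)} →
  WSep (om E) (closure (HS E A))

/-- TYP (helper21). `(‖x + t v‖² + ‖x - t v‖² - 2) / t²` is within `2 ε ‖v‖²` of `2 A x v v` for
`‖x‖ = 1`, `t ‖v‖ ≤ δ`; so for `q` in the closure of `HS`, `q = lim A (x i)` along an ultrafilter,
and `τ = lim ‖· + x i‖` in `Typ E`, `2 t² q (v, v)` is within `2 ε t² ‖v‖²` of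
`τ (t v)² + τ (- t v)² - 2` for `‖v‖ = 1`; now SST (with a small `ε' ≪ ε t²`), homogeneity, and
polarization (for `q (v, w)` use `v/‖v‖ ± w/‖w‖`). -/
def S_TYP : Prop := ∀ (E : Type) [NormedAddCommGroup E] [NormedSpace ℝ E] (f : E → E →L[ℝ] ℝ)
  (A : E → E →L[ℝ] E →L[ℝ] ℝ) (c C : ℝ), HF E f A c C → UE E f A → SST E →
  WSep (om E) (closure (HS E A))

/-- STA (helper21). `E` separable, `D` a dense sequence in the unit ball. For `τ` in `Typ E` (a limit of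
`‖· + y m‖`, `y m` a sequence in the ball, by metrizability) and `ε > 0` there is `k` such that
`|‖x + D i‖ - ‖x' + D i‖| ≤ 1 / k` for all `i ≤ k` implies `|τ x - τ x'| ≤ ε` for `x, x'` in the ball
(otherwise `x k, x' k`; pass to subsequences such that all limits exist, and use stability twice).
The ball is totally bounded for these semimetrics, so `τ` is within `2 ε` of one of countably many
functions (finitely many pieces, rational values). -/
def S_STA : Prop := ∀ (E : Type) [NormedAddCommGroup E] [NormedSpace ℝ E]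
  [TopologicalSpace.SeparableSpace E], Stable E → SST E

/-- FRE: twice Fréchet differentiable at one point implies UE. -/
def S_FRE : Prop := ∀ (E : Type) [NormedAddCommGroup E] [NormedSpace ℝ E] (f : E → E →L[ℝ] ℝ)
  (A : E → E →L[ℝ] E →L[ℝ] ℝ) (c C : ℝ), HF E f A c C → Tr E →
  (∃ (e : E) (φ : E →L[ℝ] ℝ) (B : E →L[ℝ] E →L[ℝ] ℝ), ‖e‖ = 1 ∧
    (fun v : E => ‖e + v‖ ^ 2 - 1 - φ v - B v v) =o[𝓝 0] fun v : E => ‖v‖ ^ 2) → UE E f A

/-- CLT (helper39) -/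
def S_CLT : Prop := ∀ (E : Type) [NormedAddCommGroup E] [NormedSpace ℝ E] (f : E → E →L[ℝ] ℝ)
  (A : E → E →L[ℝ] E →L[ℝ] ℝ) (c C : ℝ), HF E f A c C → UE E f A →
  (∃ y : ℕ → E, (∃ R, ∀ n, ‖y n‖ ≤ R) ∧ (∀ φ : StrongDual ℝ E, Tendsto (fun n => φ (y n)) atTop (𝓝 0)) ∧
    ∀ x, ‖x‖ = 1 → Tendsto (fun n => A x (y n) (y n)) atTop (𝓝 1)) → Par E

/-- CPT (helper39) -/
def S_CPT : Prop := ∀ (E : Type) [NormedAddCommGroup E] [NormedSpace ℝ E] [CompleteSpace E]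
  [TopologicalSpace.SeparableSpace E] (H : Type) [NormedAddCommGroup H] [InnerProductSpace ℝ H]
  (f : E → E →L[ℝ] ℝ) (A : E → E →L[ℝ] E →L[ℝ] ℝ) (c C : ℝ), Nonempty (E ≃L[ℝ] H) →
  ¬ FiniteDimensional ℝ E → HF E f A c C → Tr E →
  (∀ x y : E, ‖x‖ = 1 → ‖y‖ = 1 → IsCompactOperator (A x - A y)) → UE E f A ∧
  ∃ y : ℕ → E, (∃ R, ∀ n, ‖y n‖ ≤ R) ∧ (∀ φ : StrongDual ℝ E, Tendsto (fun n => φ (y n)) atTop (𝓝 0)) ∧
    ∀ x, ‖x‖ = 1 → Tendsto (fun n => A x (y n) (y n)) atTop (𝓝 1)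

end Pool.Agent.V5helper39.BM
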