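import Pool.Agent.V5helper39.BM.Stm

set_option autoImplicit false

/-!
# Stable Hilbertian transitive spaces contain orthogonal sequences. Statements of the parts

Target (`S_ORT`): `E` separable, infinite-dimensional, isomorphic to a Hilbert space, transitive and
stable. Then there is a weakly null sequence of unit vectors `y n` with
`‖v + t y n‖² → ‖v‖² + t²` for all `v` and `t`.

`WT E` = types of weakly null sequences of unit vectors, `KT E` its closure. By stability the types are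
norm separable (`t_STA`), so the fixed point theorem gives an invariant mean `M` of `τ (v)²` and of
`τ (v)⁴` over `τ` in `KT E`, which by transitivity are functions `h (‖v‖²)`, `h4 (‖v‖²)`, and it is
approximated uniformly on bounded sets by finite convex combinations (`APX`, `FIX`). Stability
makes the convolution of types commutative (`COM`), which gives `M [t² h (τ(v)² / t²)] =
M [h (t² τ(v / t)²)]` (`FAM`). As `τ(v)²` is between `‖v‖² + c` and `‖v‖² + C` (`KBD`), for `t → 0` this is a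
differential equation of the first order for `h`, whose solution is `h ρ = 1 + ρ`; the same for `h4`
gives `h4 ρ = (1 + ρ)²` (`ODE`). So the variance of `τ(v)²` is zero (`FIN`).
-/

namespace Pool.Agent.V5helper39.BM

open Filter Topology Set

/-- types of weakly null sequences of unit vectors -/
def WT (E : Type) [NormedAddCommGroup E] [NormedSpace ℝ E] : Set (E → ℝ) :=
  {τ | ∃ y : ℕ → E, (∀ n, ‖y n‖ = 1) ∧
    (∀ φ : StrongDual ℝ E, Tendsto (fun n => φ (y n)) atTop (𝓝 0)) ∧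
    ∀ x, Tendsto (fun n => ‖x + y n‖) atTop (𝓝 (τ x))}

def KT (E : Type) [NormedAddCommGroup E] [NormedSpace ℝ E] : Set (E → ℝ) := closure (WT E)

/-- APX (helper21): approximation by finite convex combinations, in the weighted sup-norm. The proof of
`haydon` (`Haydon.lean`) gives this: `q = ∫ p dμ (p)`, the sets `B i` of small diameter, `Acc N` of measure
close to 1; give the rest of the mass to `c 0`. -/
def S_APX : Prop := ∀ (Z : Type) (ω : Z → ℝ), (∀ z, 0 ≤ ω z) → ∀ Q : Set (Z → ℝ), IsCompact Q →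
  ∀ C0 : ℝ, (∀ q ∈ Q, ∀ z, |q z| ≤ C0 * ω z) → WSep ω Q → ∀ q ∈ closure (convexHull ℝ Q),
  ∀ δ : ℝ, 0 < δ → ∃ (N : ℕ) (w : Fin N → ℝ) (p : Fin N → Z → ℝ), (∀ i, 0 ≤ w i) ∧
    ∑ i, w i = 1 ∧ (∀ i, p i ∈ Q) ∧ ∀ z, |q z - ∑ i, w i * p i z| ≤ δ * ω z

/-- the squares and fourth powers of the types in `KT` -/
def q24 {E : Type} (τ : E → ℝ) : E × Bool → ℝ := fun z => if z.2 then τ z.1 ^ 4 else τ z.1 ^ 2

/-- the weight -/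
def om4 (E : Type) [NormedAddCommGroup E] (z : E × Bool) : ℝ := (1 + ‖z.1‖) ^ 4

/-- KSEP (helper21). All `τ ∈ KT` satisfy `|τ v - ‖v‖| ≤ 1`, so outside a large ball `τ²`, `τ⁴` are close to
`‖v‖²`, `‖v‖⁴` relative to the weight; on the ball of radius `R` use `SST` for the type
`u ↦ τ (R u) / R` (in `Typ E` for `R ≥ 1`). -/
def S_KSEP : Prop := ∀ (E : Type) [NormedAddCommGroup E] [NormedSpace ℝ E], SST E →
  WSep (om4 E) (q24 '' KT E)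

/-- FIX (helper39) -/
def S_FIX : Prop := ∀ (E : Type) [NormedAddCommGroup E] [NormedSpace ℝ E], Tr E → (WT E).Nonempty →
  WSep (om4 E) (q24 '' KT E) → ∃ h h4 : ℝ → ℝ, ContinuousOn h (Ici 0) ∧ ContinuousOn h4 (Ici 0) ∧
    ∀ δ : ℝ, 0 < δ → ∃ (N : ℕ) (w : Fin N → ℝ) (τ : Fin N → E → ℝ), (∀ i, 0 ≤ w i) ∧
      ∑ i, w i = 1 ∧ (∀ i, τ i ∈ KT E) ∧
      (∀ v, |h (‖v‖ ^ 2) - ∑ i, w i * τ i v ^ 2| ≤ δ * (1 + ‖v‖) ^ 4) ∧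
      ∀ v, |h4 (‖v‖ ^ 2) - ∑ i, w i * τ i v ^ 4| ≤ δ * (1 + ‖v‖) ^ 4

/-- KBD (helper39) -/
def S_KBD : Prop := ∀ (E : Type) [NormedAddCommGroup E] [NormedSpace ℝ E] (H : Type)
  [NormedAddCommGroup H] [InnerProductSpace ℝ H], Nonempty (E ≃L[ℝ] H) → Tr E →
  ∃ c C : ℝ, 0 < c ∧ c ≤ C ∧ ∀ τ ∈ KT E, ∀ v, ‖v‖ ^ 2 + c ≤ τ v ^ 2 ∧ τ v ^ 2 ≤ ‖v‖ ^ 2 + C

/-- KSEQ (helper39): representing sequences -/
def S_KSEQ : Prop := ∀ (E : Type) [NormedAddCommGroup E] [NormedSpace ℝ E]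
  [TopologicalSpace.SeparableSpace E], ∀ τ ∈ KT E, ∃ y : ℕ → E, (∀ n, ‖y n‖ = 1) ∧
    ∀ x, Tendsto (fun n => ‖x + y n‖) atTop (𝓝 (τ x))

/-- COM (helper39) -/
def S_COM : Prop := ∀ (E : Type) [NormedAddCommGroup E] [NormedSpace ℝ E], Stable E →
  ∀ (τ σ : E → ℝ) (y z : ℕ → E), (∀ n, ‖y n‖ = 1) → (∀ n, ‖z n‖ = 1) →
    (∀ x, Tendsto (fun n => ‖x + y n‖) atTop (𝓝 (τ x))) →
    (∀ x, Tendsto (fun n => ‖x + z n‖) atTop (𝓝 (σ x))) →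
    ∀ (v : E) (t : ℝ), 0 < t → ∃ F : ℝ, Tendsto (fun n => t * σ (t⁻¹ • (v + y n))) atTop (𝓝 F) ∧
      Tendsto (fun m => τ (v + t • z m)) atTop (𝓝 F)

/-- a family of weights and numbers -/
def Fam (h h4 : ℝ → ℝ) (c C ρ t δ : ℝ) : Prop :=
  ∃ (N : ℕ) (w a b : Fin N → ℝ), (∀ j, 0 ≤ w j) ∧ ∑ j, w j = 1 ∧
    (∀ j, ρ + c ≤ a j ∧ a j ≤ ρ + C) ∧ (∀ j, ρ + c * t ^ 2 ≤ b j ∧ b j ≤ ρ + C * t ^ 2) ∧
    (ρ = 0 → ∀ j, a j = 1 ∧ b j = t ^ 2) ∧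
    |∑ j, w j * a j - h ρ| ≤ δ ∧ |∑ j, w j * a j ^ 2 - h4 ρ| ≤ δ ∧
    |∑ j, w j * b j - t ^ 2 * h (ρ / t ^ 2)| ≤ δ ∧ |∑ j, w j * b j ^ 2 - t ^ 4 * h4 (ρ / t ^ 2)| ≤ δ ∧
    |∑ j, w j * (t ^ 2 * h (a j / t ^ 2)) - ∑ j, w j * h (b j)| ≤ δ ∧
    |∑ j, w j * (t ^ 4 * h4 (a j / t ^ 2)) - ∑ j, w j * h4 (b j)| ≤ δ

/-- FAM (helper39) -/
def S_FAM : Prop := ∀ (E : Type) [NormedAddCommGroup E] [NormedSpace ℝ E]
  [TopologicalSpace.SeparableSpace E], Stable E → (∃ e : E, ‖e‖ = 1) → ∀ (c C : ℝ), 0 < c → c ≤ C →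
  (∀ τ ∈ KT E, ∀ v, ‖v‖ ^ 2 + c ≤ τ v ^ 2 ∧ τ v ^ 2 ≤ ‖v‖ ^ 2 + C) →
  ∀ h h4 : ℝ → ℝ, ContinuousOn h (Ici 0) → ContinuousOn h4 (Ici 0) →
  (∀ δ : ℝ, 0 < δ → ∃ (N : ℕ) (w : Fin N → ℝ) (τ : Fin N → E → ℝ), (∀ i, 0 ≤ w i) ∧
      ∑ i, w i = 1 ∧ (∀ i, τ i ∈ KT E) ∧
      (∀ v, |h (‖v‖ ^ 2) - ∑ i, w i * τ i v ^ 2| ≤ δ * (1 + ‖v‖) ^ 4) ∧
      ∀ v, |h4 (‖v‖ ^ 2) - ∑ i, w i * τ i v ^ 4| ≤ δ * (1 + ‖v‖) ^ 4) →
  ∀ ρ t δ : ℝ, 0 ≤ ρ → 0 < t → 0 < δ → Fam h h4 c C ρ t δ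

/-- ODE (helper21), pure analysis. Proof:
(0) `ρ = 0`: `h 0 = 1`, `h4 0 = 1`, and from the last but one line `t² h (1 / t²) = h (t²)`; with the bounds
of the `b j` and the line for `∑ w b`: `ρ + c t² ≤ t² h (ρ / t²) ≤ ρ + C t²`, so
`p ρ := (h ρ - 1) / ρ` is in `[c, C]` for `ρ > 0` (`h (t²) = t² h (1 / t²)`). For `u > 0`:
`t² h (u / t²) = u + t² p (t² / u)`.
(1) Fix `ρ > 0`. By the last but one line and the line for `∑ w a`,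
`∑ w_j (h (b_j) - h ρ) = t² ∑ w_j p (t² / a_j) + O(δ)` where `b_j - ρ ∈ [c t², C t²]` and
`∑ w_j (b_j - ρ) = t² p (t² / ρ) + O(δ)`. Let `L = limsup_{ρ → 0+} p`. Choose `t → 0` with
`p (t² / ρ) → L`: then `∑ w_j (h (b_j) - h ρ - θ (b_j - ρ)) < 0` for every `θ > 1` (take `δ` much smaller
than `t²`), so some `j` has `h (b_j) - h ρ < θ (b_j - ρ)`: slopes `≤ θ` occur on the right
arbitrarily close to `ρ`. So `h` grows at most like `ρ` (`image_le_of_liminf_slope_right_lt_deriv_boundary'`,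
see `frequently_of` in `N314/OP/Exact.lean`); with `liminf` instead of `limsup`: at least like `ρ`.
Hence `h ρ = 1 + ρ`, `p = 1`.
(2) `t⁴ h4 (u / t²) = ∑ w b²` (`ρ := u`) `= u² + 2 u t² + O(t⁴)` for `u ≥ 0` as `∑ w (b - u) = t²` and
`(b - u)² ≤ C² t⁴`. So the last line gives `∑ w_j (h4 (b_j) - h4 ρ - 2 (ρ + 1) (b_j - ρ)) = O(t⁴)`
(using `∑ w a = h ρ = 1 + ρ`, `∑ w (b - ρ) = t²`, `∑ w a² = h4 ρ`), hence slopes `≤ 2 (ρ + 1) + O(t²)`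
and `≥ 2 (ρ + 1) - O(t²)` occur, so `h4 ρ = 1 + 2 ρ + ρ²`. -/
def S_ODE : Prop := ∀ (h h4 : ℝ → ℝ) (c C : ℝ), 0 < c → c ≤ C → ContinuousOn h (Ici 0) →
  ContinuousOn h4 (Ici 0) → (∀ ρ t δ : ℝ, 0 ≤ ρ → 0 < t → 0 < δ → Fam h h4 c C ρ t δ) →
  ∀ ρ : ℝ, 0 ≤ ρ → h ρ = 1 + ρ ∧ h4 ρ = (1 + ρ) ^ 2

/-- FIN (helper39) -/
def S_FIN : Prop := ∀ (E : Type) [NormedAddCommGroup E] [NormedSpace ℝ E]
  [TopologicalSpace.SeparableSpace E] (H : Type) [NormedAddCommGroup H] [InnerProductSpace ℝ H]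
  [CompleteSpace H], Nonempty (E ≃L[ℝ] H) →
  (∀ δ : ℝ, 0 < δ → ∃ (N : ℕ) (w : Fin N → ℝ) (τ : Fin N → E → ℝ), (∀ i, 0 ≤ w i) ∧
      ∑ i, w i = 1 ∧ (∀ i, τ i ∈ KT E) ∧
      (∀ v, |(1 + ‖v‖ ^ 2) - ∑ i, w i * τ i v ^ 2| ≤ δ * (1 + ‖v‖) ^ 4) ∧
      ∀ v, |(1 + ‖v‖ ^ 2) ^ 2 - ∑ i, w i * τ i v ^ 4| ≤ δ * (1 + ‖v‖) ^ 4) →
  ∃ y : ℕ → E, (∀ n, ‖y n‖ = 1) ∧
    (∀ φ : StrongDual ℝ E, Tendsto (fun n => φ (y n)) atTop (𝓝 0)) ∧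
    ∀ v (t : ℝ), Tendsto (fun n => ‖v + t • y n‖ ^ 2) atTop (𝓝 (‖v‖ ^ 2 + t ^ 2))

end Pool.Agent.V5helper39.BM
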