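import Pool.Agent.V5helper39.BM.Stm

set_option autoImplicit false

namespace Pool.Agent.V5helper39.BM

open Filter Topology Asymptotics Set

/-- uniqueness of the coefficients of an expansion -/
lemma coef_zero {a b : ℝ} (h : (fun t : ℝ => a * t + b * t ^ 2) =o[𝓝 0] fun t : ℝ => t ^ 2) :
    a = 0 ∧ b = 0 := by
  have h1 : ∀ ε : ℝ, 0 < ε → ∀ᶠ t : ℝ in 𝓝 0, |a * t + b * t ^ 2| ≤ ε * t ^ 2 := by
    intro ε hε
    filter_upwards [h.def hε] with t ht
    simpa using ht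
  have hb : b = 0 := by
    by_contra hb
    have hb0 : 0 < |b| := abs_pos.2 hb
    obtain ⟨δ, hδ, hd⟩ := Metric.eventually_nhds_iff.1 (h1 (|b| / 2) (by positivity))
    have h2 := hd (y := δ / 2) (by rw [Real.dist_eq, sub_zero, abs_of_pos (by positivity)]; linarith)
    have h3 := hd (y := -(δ / 2)) (by
      rw [Real.dist_eq, sub_zero, abs_neg, abs_of_pos (by positivity)]; linarith)
    have h4 : |2 * b * (δ / 2) ^ 2| ≤ |b| * (δ / 2) ^ 2 := by
      have e1 : 2 * b * (δ / 2) ^ 2 = (a * (δ / 2) + b * (δ / 2) ^ 2) +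
          (a * (-(δ / 2)) + b * (-(δ / 2)) ^ 2) := by ring
      rw [e1]
      refine (abs_add_le _ _).trans ?_
      have e2 : (-(δ / 2)) ^ 2 = (δ / 2) ^ 2 := by ring
      rw [e2] at h3 ⊢
      linarith
    rw [abs_mul, abs_mul, abs_of_pos (by norm_num : (0 : ℝ) < 2),
      abs_of_pos (by positivity : (0 : ℝ) < (δ / 2) ^ 2)] at h4
    have h5 : 0 < |b| * (δ / 2) ^ 2 := by positivity
    linarith
  refine ⟨?_, hb⟩
  by_contra ha
  have ha0 : 0 < |a| := abs_pos.2 ha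
  obtain ⟨δ, hδ, hd⟩ := Metric.eventually_nhds_iff.1 (h1 1 one_pos)
  set t := min (δ / 2) (|a| / 2) with ht
  have ht0 : 0 < t := by positivity
  have h2 := hd (y := t) (by
    rw [Real.dist_eq, sub_zero, abs_of_pos ht0]
    linarith [min_le_left (δ / 2) (|a| / 2)])
  rw [hb, zero_mul, add_zero, abs_mul, abs_of_pos ht0, one_mul] at h2
  have h3 : t ≤ |a| / 2 := min_le_right _ _
  nlinarith

/-- a function on an interval with second order expansions at all points -/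
lemma taylor_le (g b a : ℝ → ℝ) (M : ℝ) (hg : Continuous g)
    (hexp : ∀ s ∈ Icc (0 : ℝ) 1, (fun t : ℝ => g (s + t) - g s - b s * t - a s * t ^ 2)
      =o[𝓝 0] fun t : ℝ => t ^ 2)
    (hM : ∀ s ∈ Icc (0 : ℝ) 1, a s ≤ M) : g 1 ≤ g 0 + b 0 + M := by
  refine le_of_forall_pos_le_add fun η hη => ?_
  by_contra hcon
  push Not at hcon
  -- `h = g - (M + η / 2) s²`
  obtain ⟨κ, hκ0, hκ⟩ : ∃ κ : ℝ, 0 < κ ∧ κ < g 1 - (M + η / 2) - g 0 - b 0 := by
    refine ⟨η / 4, by positivity, by linarith⟩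
  set φ : ℝ → ℝ := fun s => g s - (M + η / 2) * s ^ 2 - g 0 - (b 0 + κ) * s with hφ
  have hφc : Continuous φ := by fun_prop
  have hφ0 : φ 0 = 0 := by simp [hφ]
  have hφ1 : 0 < φ 1 := by simp only [hφ]; linarith
  -- negative near `0`
  obtain ⟨t₀, ht₀0, ht₀1, ht₀⟩ : ∃ t : ℝ, 0 < t ∧ t < 1 ∧ φ t < 0 := by
    have h1 := (hexp 0 ⟨le_rfl, zero_le_one⟩).def (c := 1) one_pos
    obtain ⟨δ, hδ, hd⟩ := Metric.eventually_nhds_iff.1 h1
    set K := |a 0 - (M + η / 2)| + 1 with hK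
    have hK0 : 0 < K := by positivity
    set t := min (δ / 2) (min (1 / 2) (κ / (2 * K))) with ht
    have ht0 : 0 < t := by positivity
    have h2 := hd (y := t) (by
      rw [Real.dist_eq, sub_zero, abs_of_pos ht0]
      linarith [min_le_left (δ / 2) (min (1 / 2) (κ / (2 * K)))])
    rw [one_mul, zero_add, Real.norm_eq_abs, Real.norm_eq_abs, abs_of_nonneg (sq_nonneg t)] at h2
    have h3 := (abs_le.1 h2).2
    have ht1 : t ≤ 1 / 2 := (min_le_right _ _).trans (min_le_left _ _)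
    have ht2 : t ≤ κ / (2 * K) := (min_le_right _ _).trans (min_le_right _ _)
    refine ⟨t, ht0, by linarith, ?_⟩
    have h4 : K * t ≤ κ / 2 := by
      rw [le_div_iff₀ (by positivity)] at ht2
      linarith
    have h5 : φ t ≤ (a 0 - (M + η / 2)) * t ^ 2 + t ^ 2 - κ * t := by
      simp only [hφ]
      linarith
    have h6 : (a 0 - (M + η / 2)) * t ^ 2 + t ^ 2 ≤ K * t ^ 2 := by
      rw [hK]
      nlinarith [le_abs_self (a 0 - (M + η / 2)), sq_nonneg t]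
    nlinarith
  -- interior minimum
  obtain ⟨s, hs, hmin⟩ := isCompact_Icc.exists_isMinOn (nonempty_Icc.2 (zero_le_one' ℝ))
    hφc.continuousOn
  have hsneg : φ s < 0 := (hmin ⟨ht₀0.le, ht₀1.le⟩).trans_lt ht₀
  have hs0 : 0 < s := by
    rcases eq_or_lt_of_le hs.1 with h | h
    · rw [← h, hφ0] at hsneg; exact absurd hsneg (lt_irrefl _)
    · exact h
  have hs1 : s < 1 := by
    rcases eq_or_lt_of_le hs.2 with h | h
    · rw [h] at hsneg; linarith
    · exact h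
  have h1 := (hexp s hs).def (c := η / 8) (by positivity)
  obtain ⟨δ, hδ, hd⟩ := Metric.eventually_nhds_iff.1 h1
  set t := min (δ / 2) (min (s / 2) ((1 - s) / 2)) with ht
  have ht0 : 0 < t := by
    have : 0 < 1 - s := by linarith
    positivity
  have hta : t ≤ δ / 2 := min_le_left _ _
  have htb : t ≤ s / 2 := (min_le_right _ _).trans (min_le_left _ _)
  have htc : t ≤ (1 - s) / 2 := (min_le_right _ _).trans (min_le_right _ _)
  have h2 := hd (y := t) (by rw [Real.dist_eq, sub_zero, abs_of_pos ht0]; linarith)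
  have h3 := hd (y := -t) (by rw [Real.dist_eq, sub_zero, abs_neg, abs_of_pos ht0]; linarith)
  rw [Real.norm_eq_abs, Real.norm_eq_abs] at h2 h3
  have h4 := (abs_le.1 h2).2
  have h5 := (abs_le.1 h3).2
  have e1 : |t ^ 2| = t ^ 2 := abs_of_nonneg (sq_nonneg t)
  have e2 : |(-t) ^ 2| = t ^ 2 := by rw [neg_sq]; exact e1
  rw [e1] at h4
  rw [e2] at h5
  have m1 : φ s ≤ φ (s + t) := hmin ⟨by linarith, by linarith⟩
  have m2 : φ s ≤ φ (s + -t) := hmin ⟨by linarith, by linarith⟩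
  have hMs := hM s hs
  have ht2 : 0 < t ^ 2 := by positivity
  simp only [hφ] at m1 m2
  have e3 : (s + t) ^ 2 + (s + -t) ^ 2 - 2 * s ^ 2 = 2 * t ^ 2 := by ring
  have e4 : 0 ≤ g (s + t) + g (s + -t) - 2 * g s - (M + η / 2) * (2 * t ^ 2) := by
    rw [← e3]
    linarith
  have e5 : g (s + t) + g (s + -t) - 2 * g s ≤ 2 * a s * t ^ 2 + η / 4 * t ^ 2 := by
    have : (-t) ^ 2 = t ^ 2 := by ring
    rw [this] at h5
    linarith
  nlinarith

lemma taylor_ge (g b a : ℝ → ℝ) (M : ℝ) (hg : Continuous g)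
    (hexp : ∀ s ∈ Icc (0 : ℝ) 1, (fun t : ℝ => g (s + t) - g s - b s * t - a s * t ^ 2)
      =o[𝓝 0] fun t : ℝ => t ^ 2)
    (hM : ∀ s ∈ Icc (0 : ℝ) 1, M ≤ a s) : g 0 + b 0 + M ≤ g 1 := by
  have h := taylor_le (fun s => -g s) (fun s => -b s) (fun s => -a s) (-M) hg.neg (by
    intro s hs
    have := (hexp s hs).neg_left
    refine this.congr_left fun t => ?_
    ring) (fun s hs => neg_le_neg (hM s hs))
  linarith

section

variable {E : Type} [NormedAddCommGroup E] [NormedSpace ℝ E] {f : E → E →L[ℝ] ℝ}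
  {A : E → E →L[ℝ] E →L[ℝ] ℝ} {c C : ℝ}

/-- uniform continuity of the field in norm -/
def UC (E : Type) [NormedAddCommGroup E] [NormedSpace ℝ E]
    (A : E → E →L[ℝ] E →L[ℝ] ℝ) : Prop :=
  ∀ ε : ℝ, 0 < ε → ∃ δ : ℝ, 0 < δ ∧ ∀ x y : E, ‖x‖ = 1 → ‖y‖ = 1 → ‖x - y‖ ≤ δ →
    ∀ w : E, |A x w w - A y w w| ≤ ε * ‖w‖ ^ 2

/-- expansion at a point of the ray -/
lemma exp_scaled (hA : HF E f A c C) (z w : E) (hz : z ≠ 0) :
    (fun t : ℝ => ‖z + t • w‖ ^ 2 - ‖z‖ ^ 2 - 2 * ‖z‖ * f (‖z‖⁻¹ • z) w * t -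
      A (‖z‖⁻¹ • z) w w * t ^ 2) =o[𝓝 0] fun t : ℝ => t ^ 2 := by
  have hn : 0 < ‖z‖ := norm_pos_iff.2 hz
  set u := ‖z‖⁻¹ • z with hu
  have hun : ‖u‖ = 1 := by
    rw [hu, norm_smul, norm_inv, norm_norm, inv_mul_cancel₀ hn.ne']
  have h := hA.exp u hun w
  have ht : Tendsto (fun t : ℝ => ‖z‖⁻¹ * t) (𝓝 0) (𝓝 0) := by
    have : Tendsto (fun t : ℝ => ‖z‖⁻¹ * t) (𝓝 0) (𝓝 (‖z‖⁻¹ * 0)) :=
      tendsto_id.const_mul _
    rwa [mul_zero] at this
  have h2 := (h.comp_tendsto ht).const_mul_left (‖z‖ ^ 2)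
  have h3 : (fun t : ℝ => ‖z‖ ^ 2 * ((fun t : ℝ => ‖u + t • w‖ ^ 2 - 1 - 2 * t * f u w -
      t ^ 2 * A u w w) ∘ fun t : ℝ => ‖z‖⁻¹ * t) t) = fun t : ℝ => ‖z + t • w‖ ^ 2 - ‖z‖ ^ 2 -
      2 * ‖z‖ * f u w * t - A u w w * t ^ 2 := by
    funext t
    simp only [Function.comp]
    have e1 : ‖z + t • w‖ = ‖z‖ * ‖u + (‖z‖⁻¹ * t) • w‖ := by
      rw [← norm_norm z, ← norm_smul, hu, smul_add, smul_smul, smul_smul, norm_norm,
        mul_inv_cancel₀ hn.ne', one_smul, ← mul_assoc, mul_inv_cancel₀ hn.ne', one_mul]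
    rw [e1]
    field_simp
  rw [h3] at h2
  refine h2.trans_isBigO ?_
  refine IsBigO.of_bound (‖z‖⁻¹ ^ 2) (Eventually.of_forall fun t => ?_)
  simp only [Function.comp, mul_pow]
  rw [norm_mul, Real.norm_of_nonneg (by positivity : (0 : ℝ) ≤ ‖z‖⁻¹ ^ 2)]

theorem UE_of_UC (hA : HF E f A c C) (hU : UC E A) : UE E f A := by
  intro ε hε
  obtain ⟨δ, hδ, hd⟩ := hU ε hε
  refine ⟨min (δ / 2) (1 / 2), by positivity, ?_⟩
  intro x hx v hv
  have hv1 : ‖v‖ ≤ δ / 2 := hv.trans (min_le_left _ _)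
  have hv2 : ‖v‖ ≤ 1 / 2 := hv.trans (min_le_right _ _)
  set g : ℝ → ℝ := fun s => ‖x + s • v‖ ^ 2 with hg
  set b : ℝ → ℝ := fun s => 2 * ‖x + s • v‖ * f (‖x + s • v‖⁻¹ • (x + s • v)) v with hb
  set a : ℝ → ℝ := fun s => A (‖x + s • v‖⁻¹ • (x + s • v)) v v with ha
  have hgc : Continuous g := by fun_prop
  have hsv : ∀ s ∈ Icc (0 : ℝ) 1, ‖s • v‖ ≤ ‖v‖ := by
    intro s hs
    rw [norm_smul, Real.norm_of_nonneg hs.1]
    exact mul_le_of_le_one_left (norm_nonneg _) hs.2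
  have hlow : ∀ s ∈ Icc (0 : ℝ) 1, |‖x + s • v‖ - 1| ≤ ‖v‖ := by
    intro s hs
    have h1 := abs_norm_sub_norm_le (x + s • v) x
    rw [add_sub_cancel_left, hx] at h1
    exact h1.trans (hsv s hs)
  have hne : ∀ s ∈ Icc (0 : ℝ) 1, x + s • v ≠ 0 := by
    intro s hs h0
    have h1 := hlow s hs
    rw [h0, norm_zero, zero_sub, abs_neg, abs_one] at h1
    linarith
  have hexp : ∀ s ∈ Icc (0 : ℝ) 1, (fun t : ℝ => g (s + t) - g s - b s * t - a s * t ^ 2)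
      =o[𝓝 0] fun t : ℝ => t ^ 2 := by
    intro s hs
    refine (exp_scaled hA (x + s • v) v (hne s hs)).congr_left fun t => ?_
    simp only [hg, hb, ha]
    rw [add_smul, ← add_assoc]
  have hab : ∀ s ∈ Icc (0 : ℝ) 1, |a s - A x v v| ≤ ε * ‖v‖ ^ 2 := by
    intro s hs
    have hn : 0 < ‖x + s • v‖ := norm_pos_iff.2 (hne s hs)
    refine hd _ _ ?_ hx ?_ v
    · rw [norm_smul, norm_inv, norm_norm, inv_mul_cancel₀ hn.ne']
    · have e1 : ‖x + s • v‖⁻¹ • (x + s • v) - x = (‖x + s • v‖⁻¹ • (x + s • v) - (x + s • v)) +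
          s • v := by abel
      rw [e1]
      refine (norm_add_le _ _).trans ?_
      have e2 : ‖x + s • v‖⁻¹ • (x + s • v) - (x + s • v) = (‖x + s • v‖⁻¹ - 1) • (x + s • v) := by
        rw [sub_smul, one_smul]
      have e3 : ‖‖x + s • v‖⁻¹ • (x + s • v) - (x + s • v)‖ ≤ ‖v‖ := by
        rw [e2, norm_smul, Real.norm_eq_abs]
        have e4 : |‖x + s • v‖⁻¹ - 1| * ‖x + s • v‖ = |1 - ‖x + s • v‖| := by
          rw [← abs_of_pos hn, ← abs_mul, abs_of_pos hn, sub_mul, inv_mul_cancel₀ hn.ne', one_mul]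
        rw [e4, abs_sub_comm]
        exact hlow s hs
      linarith [hsv s hs]
  have h1 := taylor_le g b a (A x v v + ε * ‖v‖ ^ 2) hgc hexp (fun s hs => by
    linarith [(abs_le.1 (hab s hs)).2])
  have h2 := taylor_ge g b a (A x v v - ε * ‖v‖ ^ 2) hgc hexp (fun s hs => by
    linarith [(abs_le.1 (hab s hs)).1])
  have e0 : g 0 = 1 := by simp [hg, hx]
  have e1 : g 1 = ‖x + v‖ ^ 2 := by simp [hg]
  have e2 : b 0 = 2 * f x v := by simp [hb, hx]
  rw [e0, e1, e2] at h1 h2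
  rw [abs_le]
  constructor <;> linarith

end

end Pool.Agent.V5helper39.BM
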